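import Mathlib
import Pool.Agent.Lib.MP_ca2859_nt.GR.Hub

/-!
# Division polynomials attached to `y² = x³ + A x + B`

`pf`: the `x`-coordinates of the points of order `2`; `p3`: of order `3`; `pY A B (2 i)`: of exact
order `4 * 2 ^ i`; `pY A B (2 i + 1)`: of exact order `6 * 2 ^ i`.  The duplication map is
`x ↦ pP(x) / (4 pf(x))`.
-/

set_option autoImplicit false

open Polynomial WithZero IsDedekindDomain NumberField

namespace Pool.Agent.Lib.MP_ca2859_nt.GR.GB

section defs
variable {R : Type*} [CommRing R]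

/-- `x³ + A x + B` -/
noncomputable def pf (A B : R) : R[X] := X ^ 3 + C A * X + C B

/-- `x⁴ - 2 A x² - 8 B x + A²` -/
noncomputable def pP (A B : R) : R[X] := X ^ 4 - C (2 * A) * X ^ 2 - C (8 * B) * X + C (A ^ 2)

/-- the points of exact order `4` -/
noncomputable def pT (A B : R) : R[X] :=
  X ^ 6 + C (5 * A) * X ^ 4 + C (20 * B) * X ^ 3 - C (5 * A ^ 2) * X ^ 2 - C (4 * A * B) * X -
    C (8 * B ^ 2 + A ^ 3)

/-- the points of order `3` -/
noncomputable def p3 (A B : R) : R[X] :=
  C 3 * X ^ 4 + C (6 * A) * X ^ 2 + C (12 * B) * X - C (A ^ 2)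

/-- the points of exact order `6` -/
noncomputable def p6 (A B : R) : R[X] :=
  C 32 * pf A B ^ 2 * pT A B - p3 A B ^ 3 - C 4 * pT A B ^ 2

/-- the pull back of a form of degree `n` under the duplication map -/
noncomputable def dbl (A B : R) (n : ℕ) (G : R[X]) : R[X] :=
  ∑ i ∈ Finset.range (n + 1), C (G.coeff i) * pP A B ^ i * (C 4 * pf A B) ^ (n - i)

/-- the points of exact order `4, 6, 8, 12, 16, 24, …` -/
noncomputable def pY (A B : R) : ℕ → R[X]
  | 0 => pT A B
  | 1 => p6 A B
  | (i + 2) => dbl A B (6 * 2 ^ i) (pY A B i)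

/-- the branch points of the curve attached to `y² = x³ + A x + B` -/
noncomputable def pG (A B : R) (δ ε : ℕ) (s : Finset ℕ) : R[X] :=
  pf A B ^ δ * p3 A B ^ ε * ∏ i ∈ s, pY A B i

end defs

/-- the image of `c` under the translation by the point `(a, 0)` of order two, on the curve
`y² = (x - a) (x - b) (x - c')` -/
noncomputable def rr {L : Type*} [Field L] (a b c' x : L) : L := a + (a - b) * (a - c') / (x - a)

end Pool.Agent.Lib.MP_ca2859_nt.GR.GB
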