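import Pool.Agent.Lib.MP_ca2859_nt.GR.GB.Defs

/-!
# Polynomial identities between the division polynomials
-/

set_option autoImplicit false

open Polynomial WithZero IsDedekindDomain NumberField

namespace Pool.Agent.Lib.MP_ca2859_nt.GR.GB

section ids
variable {R : Type*} [CommRing R] (A B : R)

/-- GB1 -/
theorem id1 : pP A B ^ 3 + C A * pP A B * (C 4 * pf A B) ^ 2 + C B * (C 4 * pf A B) ^ 3 =
    pT A B ^ 2 := by
  simp only [pf, pP, pT, map_add, map_mul, map_pow, map_ofNat]
  ring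

theorem id2 : derivative (pP A B) * (C 4 * pf A B) - pP A B * derivative (C 4 * pf A B) =
    C 4 * pT A B := by
  simp only [pf, pP, pT, map_add, map_sub, map_mul, map_pow, map_ofNat, derivative_mul,
    derivative_X_pow, derivative_C, derivative_X, derivative_ofNat, derivative_pow,
    Nat.cast_ofNat]
  norm_num
  ring

theorem id3 : pP A B - X * (C 4 * pf A B) = -p3 A B := by
  simp only [pf, pP, p3, map_add, map_mul, map_pow, map_ofNat]
  ring

theorem id4 : pP A B = derivative (pf A B) ^ 2 - C 8 * X * pf A B := by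
  simp only [pf, pP, map_add, map_sub, map_mul, map_pow, map_ofNat, derivative_mul,
    derivative_X_pow, derivative_C, derivative_X, derivative_ofNat, derivative_pow,
    Nat.cast_ofNat]
  norm_num
  ring

theorem id5 : p3 A B = C 12 * X * pf A B - derivative (pf A B) ^ 2 := by
  simp only [pf, p3, map_add, map_sub, map_mul, map_pow, map_ofNat, derivative_mul,
    derivative_X_pow, derivative_C, derivative_X, derivative_ofNat, derivative_pow,
    Nat.cast_ofNat]
  norm_num
  ring

theorem id6 : derivative (p3 A B) = C 12 * pf A B := by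
  simp only [pf, p3, map_add, map_sub, map_mul, map_pow, map_ofNat, derivative_mul,
    derivative_X_pow, derivative_C, derivative_X, derivative_ofNat, derivative_pow,
    Nat.cast_ofNat]
  norm_num
  ring

theorem id7 : C 3 * pP A B ^ 4 + C (6 * A) * pP A B ^ 2 * (C 4 * pf A B) ^ 2 +
    C (12 * B) * pP A B * (C 4 * pf A B) ^ 3 - C (A ^ 2) * (C 4 * pf A B) ^ 4 =
    p3 A B * p6 A B := by
  simp only [pf, pP, pT, p3, p6, map_add, map_mul, map_pow, map_ofNat]
  ring

theorem id8 : pT A B = -derivative (pf A B) ^ 3 +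
    C 4 * pf A B * (C 7 * X ^ 3 + C A * X - C (2 * B)) := by
  simp only [pf, pT, map_add, map_sub, map_mul, map_pow, map_ofNat, derivative_mul,
    derivative_X_pow, derivative_C, derivative_X, derivative_ofNat, derivative_pow,
    Nat.cast_ofNat]
  norm_num
  ring

theorem id9 (e : R) (he : e ^ 3 + A * e + B = 0) :
    pP A B - C e * (C 4 * pf A B) = ((X - C e) ^ 2 - C (3 * e ^ 2 + A)) ^ 2 := by
  have hB : B = -(e ^ 3 + A * e) := by linear_combination he
  rw [hB]
  simp only [pf, pP, map_add, map_mul, map_pow, map_ofNat, map_neg]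
  ring

private theorem GB1_p6 : p6 A B = X ^ 12 + (C (22 * A) * X ^ 10 + C (220 * B) * X ^ 9 -
    C (165 * A ^ 2) * X ^ 8 - C (528 * A * B) * X ^ 7 - C (92 * A ^ 3 + 1776 * B ^ 2) * X ^ 6 +
    C (264 * A ^ 2 * B) * X ^ 5 - C (185 * A ^ 4 + 960 * A * B ^ 2) * X ^ 4 -
    C (80 * A ^ 3 * B + 320 * B ^ 3) * X ^ 3 - C (90 * A ^ 5 + 624 * A ^ 2 * B ^ 2) * X ^ 2 -
    C (132 * A ^ 4 * B + 896 * A * B ^ 3) * X -
    C (3 * A ^ 6 + 96 * A ^ 3 * B ^ 2 + 512 * B ^ 4)) := by
  simp only [pf, pT, p3, p6, map_add, map_mul, map_pow, map_ofNat]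
  ring

theorem monics [Nontrivial R] : ((pf A B).Monic ∧ (pf A B).natDegree = 3) ∧
    ((pP A B).Monic ∧ (pP A B).natDegree = 4) ∧ ((pT A B).Monic ∧ (pT A B).natDegree = 6) ∧
    ((p6 A B).Monic ∧ (p6 A B).natDegree = 12) := by
  refine ⟨⟨?_, ?_⟩, ⟨?_, ?_⟩, ⟨?_, ?_⟩, ⟨?_, ?_⟩⟩
  · unfold pf; monicity!
  · unfold pf; compute_degree!
  · unfold pP; monicity!
  · unfold pP; compute_degree!
  · unfold pT; monicity!
  · unfold pT; compute_degree!
  · rw [GB1_p6]; monicity!
  · rw [GB1_p6]; compute_degree!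

theorem p3_natDegree (h3 : (3 : R) ≠ 0) : (p3 A B).natDegree = 4 ∧ (p3 A B).leadingCoeff = 3 := by
  have h : (p3 A B).natDegree = 4 := by
    unfold p3
    compute_degree!
  refine ⟨h, ?_⟩
  rw [leadingCoeff, h]
  unfold p3
  rw [coeff_sub, coeff_add, coeff_add, coeff_C_mul_X_pow, coeff_C_mul_X_pow, coeff_C_mul_X,
    coeff_C]
  norm_num

end ids

end Pool.Agent.Lib.MP_ca2859_nt.GR.GB
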