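import Mathlib
import Pool.Agent.Lib.MP_ca2859_nt.GR.GB.Defs

/-!
# GB2: the division polynomials are separable and coprime
-/

set_option autoImplicit false
set_option linter.unusedSimpArgs false

open Polynomial WithZero IsDedekindDomain NumberField

namespace Pool.Agent.Lib.MP_ca2859_nt.GR.GB

section core
variable {K : Type*} [Field K] {A B x : K}

/-- `f` and `f'` have no common root -/
private theorem gb2_sep (hD : 4 * A ^ 3 + 27 * B ^ 2 ≠ 0) (h : x ^ 3 + A * x + B = 0) :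
    3 * x ^ 2 + A ≠ 0 := by
  intro h1
  apply hD
  linear_combination (-18 * A * x + 27 * B) * h + (6 * A * x ^ 2 - 9 * B * x + 4 * A ^ 2) * h1

private theorem gb2_fP (hD : 4 * A ^ 3 + 27 * B ^ 2 ≠ 0) (h : x ^ 3 + A * x + B = 0) :
    x ^ 4 - 2 * A * x ^ 2 - 8 * B * x + A ^ 2 ≠ 0 := by
  intro h1
  have h2 : (3 * x ^ 2 + A) ^ 2 = 0 := by
    linear_combination h1 + 8 * x * h
  exact gb2_sep hD h (pow_eq_zero_iff (two_ne_zero) |>.1 h2)

private theorem gb2_fT (hD : 4 * A ^ 3 + 27 * B ^ 2 ≠ 0) (h : x ^ 3 + A * x + B = 0) :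
    x ^ 6 + 5 * A * x ^ 4 + 20 * B * x ^ 3 - 5 * A ^ 2 * x ^ 2 - 4 * A * B * x -
      (8 * B ^ 2 + A ^ 3) ≠ 0 := by
  intro h1
  have h2 : (3 * x ^ 2 + A) ^ 3 = 0 := by
    linear_combination -h1 + 4 * (7 * x ^ 3 + A * x - 2 * B) * h
  exact gb2_sep hD h (pow_eq_zero_iff (three_ne_zero) |>.1 h2)

private theorem gb2_f3 (hD : 4 * A ^ 3 + 27 * B ^ 2 ≠ 0) (h : x ^ 3 + A * x + B = 0) :
    3 * x ^ 4 + 6 * A * x ^ 2 + 12 * B * x - A ^ 2 ≠ 0 := by
  intro h1
  have h2 : (3 * x ^ 2 + A) ^ 2 = 0 := by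
    linear_combination -h1 + 12 * x * h
  exact gb2_sep hD h (pow_eq_zero_iff (two_ne_zero) |>.1 h2)

/-- `P, f` and `P³ + A P (4 f)² + B (4 f)³ = 0` -/
private theorem gb2_ex (h2 : (2 : K) ≠ 0) (hD : 4 * A ^ 3 + 27 * B ^ 2 ≠ 0)
    (h : x ^ 6 + 5 * A * x ^ 4 + 20 * B * x ^ 3 - 5 * A ^ 2 * x ^ 2 - 4 * A * B * x -
      (8 * B ^ 2 + A ^ 3) = 0) :
    ∃ e : K, x ^ 4 - 2 * A * x ^ 2 - 8 * B * x + A ^ 2 = e * (4 * (x ^ 3 + A * x + B)) ∧
      x ^ 3 + A * x + B ≠ 0 ∧ e ^ 3 + A * e + B = 0 := by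
  have hf : x ^ 3 + A * x + B ≠ 0 := fun h0 => gb2_fT hD h0 h
  have h4 : (4 : K) ≠ 0 := by
    have : (4 : K) = 2 ^ 2 := by norm_num
    rw [this]; exact pow_ne_zero 2 h2
  have hv : 4 * (x ^ 3 + A * x + B) ≠ 0 := mul_ne_zero h4 hf
  set P := x ^ 4 - 2 * A * x ^ 2 - 8 * B * x + A ^ 2 with hP
  set v := 4 * (x ^ 3 + A * x + B) with hvdef
  have h1 : P ^ 3 + A * P * v ^ 2 + B * v ^ 3 = 0 := by
    rw [hP, hvdef]
    linear_combination (x ^ 6 + 5 * A * x ^ 4 + 20 * B * x ^ 3 - 5 * A ^ 2 * x ^ 2 - 4 * A * B * x -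
      (8 * B ^ 2 + A ^ 3)) * h
  refine ⟨P / v, by field_simp, hf, ?_⟩
  have h3 : ((P / v) ^ 3 + A * (P / v) + B) * v ^ 3 = 0 := by
    rw [← h1]
    field_simp
  exact (mul_eq_zero.1 h3).resolve_right (pow_ne_zero 3 hv)

private theorem gb2_T (h2 : (2 : K) ≠ 0) (hD : 4 * A ^ 3 + 27 * B ^ 2 ≠ 0)
    (h : x ^ 6 + 5 * A * x ^ 4 + 20 * B * x ^ 3 - 5 * A ^ 2 * x ^ 2 - 4 * A * B * x -
      (8 * B ^ 2 + A ^ 3) = 0) :
    6 * x ^ 5 + 20 * A * x ^ 3 + 60 * B * x ^ 2 - 10 * A ^ 2 * x - 4 * A * B ≠ 0 := by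
  obtain ⟨e, h3, -, h4⟩ := gb2_ex h2 hD h
  intro h5
  have hB : B = -e ^ 3 - A * e := by linear_combination h4
  have h6 : ((x - e) ^ 2 - (3 * e ^ 2 + A)) ^ 2 = 0 := by
    subst hB
    linear_combination h3
  have h7 : A = (x - e) ^ 2 - 3 * e ^ 2 := by
    have := pow_eq_zero_iff (two_ne_zero) |>.1 h6
    linear_combination -this
  have h8 : (2 : K) ^ 3 * (4 * A ^ 3 + 27 * B ^ 2) = 0 := by
    have h9 : (2 : K) ^ 3 * (4 * A ^ 3 + 27 * B ^ 2) = (2 * x - 5 * e) *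
        (6 * x ^ 5 + 20 * A * x ^ 3 + 60 * B * x ^ 2 - 10 * A ^ 2 * x - 4 * A * B) := by
      rw [hB, h7]
      ring
    rw [h9, h5, mul_zero]
  exact hD ((mul_eq_zero.1 h8).resolve_left (pow_ne_zero 3 h2))

/-- the product `p3 * p6` and `pT` have no common root -/
private theorem gb2_GT (h2 : (2 : K) ≠ 0) (hD : 4 * A ^ 3 + 27 * B ^ 2 ≠ 0) {P f : K}
    (hP : P = x ^ 4 - 2 * A * x ^ 2 - 8 * B * x + A ^ 2) (hf : f = x ^ 3 + A * x + B)
    (h : x ^ 6 + 5 * A * x ^ 4 + 20 * B * x ^ 3 - 5 * A ^ 2 * x ^ 2 - 4 * A * B * x -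
      (8 * B ^ 2 + A ^ 3) = 0) :
    3 * P ^ 4 + 6 * A * P ^ 2 * (4 * f) ^ 2 + 12 * B * P * (4 * f) ^ 3 - A ^ 2 * (4 * f) ^ 4 ≠ 0 := by
  obtain ⟨e, h3, h4, h5⟩ := gb2_ex h2 hD h
  rw [← hP, ← hf] at h3
  rw [← hf] at h4
  intro h6
  rw [h3] at h6
  have h7 : (3 * e ^ 4 + 6 * A * e ^ 2 + 12 * B * e - A ^ 2) * (4 * f) ^ 4 = 0 := by
    linear_combination h6
  have h8 : (4 : K) ≠ 0 := by
    have : (4 : K) = 2 ^ 2 := by norm_num
    rw [this]; exact pow_ne_zero 2 h2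
  exact gb2_f3 hD h5 ((mul_eq_zero.1 h7).resolve_right (pow_ne_zero 4 (mul_ne_zero h8 h4)))

/-- the product `p3 * p6` has no multiple root -/
private theorem gb2_GG (h2 : (2 : K) ≠ 0) (h3 : (3 : K) ≠ 0) (hD : 4 * A ^ 3 + 27 * B ^ 2 ≠ 0)
    {P f P' f' : K}
    (hP : P = x ^ 4 - 2 * A * x ^ 2 - 8 * B * x + A ^ 2) (hf : f = x ^ 3 + A * x + B)
    (hP' : P' = 4 * x ^ 3 - 4 * A * x - 8 * B) (hf' : f' = 3 * x ^ 2 + A)
    (h : 3 * P ^ 4 + 6 * A * P ^ 2 * (4 * f) ^ 2 + 12 * B * P * (4 * f) ^ 3 -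
      A ^ 2 * (4 * f) ^ 4 = 0) :
    (12 * P ^ 3 + 12 * A * P * (4 * f) ^ 2 + 12 * B * (4 * f) ^ 3) * P' +
      (12 * A * P ^ 2 * (4 * f) + 36 * B * P * (4 * f) ^ 2 - 4 * A ^ 2 * (4 * f) ^ 3) * (4 * f') ≠ 0 := by
  set T := x ^ 6 + 5 * A * x ^ 4 + 20 * B * x ^ 3 - 5 * A ^ 2 * x ^ 2 - 4 * A * B * x -
      (8 * B ^ 2 + A ^ 3) with hT
  have hT0 : T ≠ 0 := fun h0 => gb2_GT h2 hD hP hf h0 h
  intro h4
  have h5 : P ^ 3 + A * P * (4 * f) ^ 2 + B * (4 * f) ^ 3 = T ^ 2 := by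
    rw [hP, hf, hT]; ring
  have h6 : P' * (4 * f) - P * (4 * f') = 4 * T := by
    rw [hP, hf, hT, hP', hf']; ring
  have h7 : 2 ^ 4 * 3 * T ^ 3 = 0 := by
    have h8 : (12 * T ^ 2) * (4 * T) = 0 := by
      rw [← h5, ← h6]
      linear_combination (4 * f) * h4 - 4 * (4 * f') * h
    linear_combination h8
  exact mul_ne_zero (mul_ne_zero (pow_ne_zero 4 h2) h3) (pow_ne_zero 3 hT0) h7

end core

section poly
variable {R : Type*} [CommRing R] (A B : R)

private theorem gb2_id7 : C 3 * pP A B ^ 4 + C (6 * A) * pP A B ^ 2 * (C 4 * pf A B) ^ 2 +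
    C (12 * B) * pP A B * (C 4 * pf A B) ^ 3 - C (A ^ 2) * (C 4 * pf A B) ^ 4 =
    p3 A B * p6 A B := by
  have h3 : (C (3 : R) : R[X]) = 3 := rfl
  have h4 : (C (4 : R) : R[X]) = 4 := rfl
  have h2 : (C (2 : R) : R[X]) = 2 := rfl
  have h5 : (C (5 : R) : R[X]) = 5 := rfl
  have h6 : (C (6 : R) : R[X]) = 6 := rfl
  have h8 : (C (8 : R) : R[X]) = 8 := rfl
  have h12 : (C (12 : R) : R[X]) = 12 := rfl
  have h20 : (C (20 : R) : R[X]) = 20 := rfl
  have h32 : (C (32 : R) : R[X]) = 32 := rfl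
  simp only [p6, p3, pT, pP, pf, C_mul, C_add, C_pow, h3, h4, h2, h5, h6, h8, h12, h20, h32]
  ring

end poly

section ev
variable {k K : Type*} [Field k] [Field K] [Algebra k K] (A B : k) (x : K)

private theorem gb2_ev_f : aeval x (pf A B) = x ^ 3 + algebraMap k K A * x + algebraMap k K B := by
  simp only [pf, derivative_add, derivative_sub, derivative_mul, derivative_pow, derivative_C, derivative_X, derivative_ofNat,
    map_add, map_sub, map_mul, map_pow, aeval_C, aeval_X, map_natCast, map_ofNat, map_one, map_zero,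
    Nat.cast_ofNat]

private theorem gb2_ev_f' : aeval x (derivative (pf A B)) = 3 * x ^ 2 + algebraMap k K A := by
  simp only [pf, derivative_add, derivative_sub, derivative_mul, derivative_pow, derivative_C, derivative_X, derivative_ofNat,
    map_add, map_sub, map_mul, map_pow, aeval_C, aeval_X, map_natCast, map_ofNat, map_one, map_zero,
    Nat.cast_ofNat]
  ring

private theorem gb2_ev_P : aeval x (pP A B) = x ^ 4 - 2 * algebraMap k K A * x ^ 2 -
    8 * algebraMap k K B * x + algebraMap k K A ^ 2 := by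
  simp only [pP, derivative_add, derivative_sub, derivative_mul, derivative_pow, derivative_C, derivative_X, derivative_ofNat,
    map_add, map_sub, map_mul, map_pow, aeval_C, aeval_X, map_natCast, map_ofNat, map_one, map_zero,
    Nat.cast_ofNat]

private theorem gb2_ev_P' : aeval x (derivative (pP A B)) = 4 * x ^ 3 - 4 * algebraMap k K A * x -
    8 * algebraMap k K B := by
  simp only [pP, derivative_add, derivative_sub, derivative_mul, derivative_pow, derivative_C, derivative_X, derivative_ofNat,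
    map_add, map_sub, map_mul, map_pow, aeval_C, aeval_X, map_natCast, map_ofNat, map_one, map_zero,
    Nat.cast_ofNat]
  ring

private theorem gb2_ev_T : aeval x (pT A B) = x ^ 6 + 5 * algebraMap k K A * x ^ 4 +
    20 * algebraMap k K B * x ^ 3 - 5 * algebraMap k K A ^ 2 * x ^ 2 -
    4 * algebraMap k K A * algebraMap k K B * x -
      (8 * algebraMap k K B ^ 2 + algebraMap k K A ^ 3) := by
  simp only [pT, derivative_add, derivative_sub, derivative_mul, derivative_pow, derivative_C, derivative_X, derivative_ofNat,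
    map_add, map_sub, map_mul, map_pow, aeval_C, aeval_X, map_natCast, map_ofNat, map_one, map_zero,
    Nat.cast_ofNat]

private theorem gb2_ev_T' : aeval x (derivative (pT A B)) = 6 * x ^ 5 +
    20 * algebraMap k K A * x ^ 3 + 60 * algebraMap k K B * x ^ 2 -
    10 * algebraMap k K A ^ 2 * x - 4 * algebraMap k K A * algebraMap k K B := by
  simp only [pT, derivative_add, derivative_sub, derivative_mul, derivative_pow, derivative_C, derivative_X, derivative_ofNat,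
    map_add, map_sub, map_mul, map_pow, aeval_C, aeval_X, map_natCast, map_ofNat, map_one, map_zero,
    Nat.cast_ofNat]
  ring

private theorem gb2_ev_3 : aeval x (p3 A B) = 3 * x ^ 4 + 6 * algebraMap k K A * x ^ 2 +
    12 * algebraMap k K B * x - algebraMap k K A ^ 2 := by
  simp only [p3, derivative_add, derivative_sub, derivative_mul, derivative_pow, derivative_C, derivative_X, derivative_ofNat,
    map_add, map_sub, map_mul, map_pow, aeval_C, aeval_X, map_natCast, map_ofNat, map_one, map_zero,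
    Nat.cast_ofNat]

private theorem gb2_ev_G : aeval x (p3 A B * p6 A B) = 3 * aeval x (pP A B) ^ 4 +
    6 * algebraMap k K A * aeval x (pP A B) ^ 2 * (4 * aeval x (pf A B)) ^ 2 +
    12 * algebraMap k K B * aeval x (pP A B) * (4 * aeval x (pf A B)) ^ 3 -
    algebraMap k K A ^ 2 * (4 * aeval x (pf A B)) ^ 4 := by
  rw [← gb2_id7]
  simp only [map_add, map_sub, map_mul, map_pow, aeval_C, map_ofNat]

private theorem gb2_ev_G' : aeval x (derivative (p3 A B * p6 A B)) =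
    (12 * aeval x (pP A B) ^ 3 + 12 * algebraMap k K A * aeval x (pP A B) *
        (4 * aeval x (pf A B)) ^ 2 +
      12 * algebraMap k K B * (4 * aeval x (pf A B)) ^ 3) * aeval x (derivative (pP A B)) +
    (12 * algebraMap k K A * aeval x (pP A B) ^ 2 * (4 * aeval x (pf A B)) +
      36 * algebraMap k K B * aeval x (pP A B) * (4 * aeval x (pf A B)) ^ 2 -
      4 * algebraMap k K A ^ 2 * (4 * aeval x (pf A B)) ^ 3) *
      (4 * aeval x (derivative (pf A B))) := by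
  rw [← gb2_id7]
  simp only [derivative_add, derivative_sub, derivative_mul, derivative_pow, derivative_C, derivative_ofNat, map_add,
    map_sub, map_mul, map_pow, aeval_C, map_natCast, map_ofNat, zero_mul, mul_zero, zero_add,
    add_zero, map_zero, Nat.cast_ofNat]
  ring

end ev

section field
variable {k : Type*} [Field k] (A B : k)

private theorem gb2_base (K : Type*) [Field K] [IsAlgClosed K] [Algebra k K] (h2 : (2 : k) ≠ 0) (h3 : (3 : k) ≠ 0) (hD : 4 * A ^ 3 + 27 * B ^ 2 ≠ 0) :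
    (pf A B).Separable ∧ IsCoprime (pf A B) (pP A B) ∧ IsCoprime (pf A B) (pT A B) ∧
    IsCoprime (pf A B) (p3 A B) ∧ IsCoprime (pf A B) (p6 A B) ∧ (p3 A B).Separable ∧
    (pT A B).Separable ∧ (p6 A B).Separable ∧ IsCoprime (p3 A B) (pT A B) ∧
    IsCoprime (p3 A B) (p6 A B) ∧ IsCoprime (pT A B) (p6 A B) := by
  set φ := algebraMap k K with hφ
  have h2' : (2 : K) ≠ 0 := by
    have := (map_ne_zero φ).2 h2
    rwa [map_ofNat] at this
  have h3' : (3 : K) ≠ 0 := by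
    have := (map_ne_zero φ).2 h3
    rwa [map_ofNat] at this
  have hD' : 4 * φ A ^ 3 + 27 * φ B ^ 2 ≠ 0 := by
    have := (map_ne_zero φ).2 hD
    rwa [map_add, map_mul, map_mul, map_pow, map_pow, map_ofNat, map_ofNat] at this
  have key : ∀ p q : k[X], (∀ x : K, aeval x p = 0 → aeval x q ≠ 0) → IsCoprime p q := by
    intro p q h
    refine (isCoprime_iff_aeval_ne_zero_of_isAlgClosed k K p q).2 fun a => ?_
    by_cases ha : aeval a p = 0
    · exact Or.inr (h a ha)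
    · exact Or.inl ha
  have hG : (p3 A B * p6 A B).Separable := by
    refine key _ _ fun x hx => ?_
    rw [gb2_ev_G] at hx
    rw [gb2_ev_G']
    exact gb2_GG h2' h3' hD' (gb2_ev_P A B x) (gb2_ev_f A B x) (gb2_ev_P' A B x)
      (gb2_ev_f' A B x) hx
  have hTG : ∀ x : K, aeval x (pT A B) = 0 → aeval x (p3 A B * p6 A B) ≠ 0 := by
    intro x hx
    rw [gb2_ev_T] at hx
    rw [gb2_ev_G]
    exact gb2_GT h2' hD' (gb2_ev_P A B x) (gb2_ev_f A B x) hx
  refine ⟨key _ _ fun x hx => ?_, key _ _ fun x hx => ?_, key _ _ fun x hx => ?_,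
    key _ _ fun x hx => ?_, key _ _ fun x hx => ?_, hG.of_mul_left, key _ _ fun x hx => ?_,
    hG.of_mul_right, (key _ _ fun x hx => ?_).symm, hG.isCoprime, key _ _ fun x hx => ?_⟩
  · rw [gb2_ev_f] at hx
    rw [gb2_ev_f']
    exact gb2_sep hD' hx
  · rw [gb2_ev_f] at hx
    rw [gb2_ev_P]
    exact gb2_fP hD' hx
  · rw [gb2_ev_f] at hx
    rw [gb2_ev_T]
    exact gb2_fT hD' hx
  · rw [gb2_ev_f] at hx
    rw [gb2_ev_3]
    exact gb2_f3 hD' hx
  · intro h0
    have h5 := gb2_ev_G A B x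
    rw [map_mul, h0, mul_zero, hx] at h5
    have h6 : (3 : K) * aeval x (pP A B) ^ 4 = 0 := by
      rw [h5]; ring
    rw [gb2_ev_f] at hx
    have h7 := gb2_fP hD' hx
    rw [← gb2_ev_P] at h7
    exact mul_ne_zero h3' (pow_ne_zero 4 h7) h6
  · rw [gb2_ev_T] at hx
    rw [gb2_ev_T']
    exact gb2_T h2' hD' hx
  · have := hTG x hx
    rw [map_mul] at this
    exact left_ne_zero_of_mul this
  · have := hTG x hx
    rw [map_mul] at this
    exact right_ne_zero_of_mul this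

/-- GB2 -/
theorem base (h2 : (2 : k) ≠ 0) (h3 : (3 : k) ≠ 0) (hD : 4 * A ^ 3 + 27 * B ^ 2 ≠ 0) :
    (pf A B).Separable ∧ IsCoprime (pf A B) (pP A B) ∧ IsCoprime (pf A B) (pT A B) ∧
    IsCoprime (pf A B) (p3 A B) ∧ IsCoprime (pf A B) (p6 A B) ∧ (p3 A B).Separable ∧
    (pT A B).Separable ∧ (p6 A B).Separable ∧ IsCoprime (p3 A B) (pT A B) ∧
    IsCoprime (p3 A B) (p6 A B) ∧ IsCoprime (pT A B) (p6 A B) :=
  gb2_base A B (AlgebraicClosure k) h2 h3 hD

end field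

end Pool.Agent.Lib.MP_ca2859_nt.GR.GB
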