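import Pool.Agent.Lib.MP_ca2859_nt.GR.GB.Defs

/-!
# The pull back of a form under the duplication map
-/

set_option autoImplicit false

open Polynomial WithZero IsDedekindDomain NumberField

namespace Pool.Agent.Lib.MP_ca2859_nt.GR.GB

section ids
variable {R : Type*} [CommRing R] (A B : R)

theorem gb3_step (n : ℕ) (G : R[X]) (hG : G.natDegree ≤ n) (c : R) :
    dbl A B (n + 1) (G * (X - C c)) = dbl A B n G * (pP A B - C c * (C 4 * pf A B)) := by
  set P := pP A B with hP
  set Q := C 4 * pf A B with hQ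
  have h1 : dbl A B (n + 1) (G * (X - C c)) =
      ∑ i ∈ Finset.range (n + 1 + 1), C ((G * X).coeff i) * P ^ i * Q ^ (n + 1 - i) -
        ∑ i ∈ Finset.range (n + 1 + 1), C ((G * C c).coeff i) * P ^ i * Q ^ (n + 1 - i) := by
    rw [← Finset.sum_sub_distrib]
    unfold dbl
    refine Finset.sum_congr rfl fun i _ => ?_
    rw [mul_sub, coeff_sub, C_sub]
    ring
  rw [h1, Finset.sum_range_succ', Finset.sum_range_succ (n := n + 1)]
  have h2 : (G * C c).coeff (n + 1) = 0 := by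
    rw [coeff_mul_C, coeff_eq_zero_of_natDegree_lt (by omega), zero_mul]
  have h3 : (G * X).coeff 0 = 0 := by simp
  rw [h2, h3, C_0, zero_mul, zero_mul, zero_mul, zero_mul, add_zero, add_zero]
  have h4 : ∑ k ∈ Finset.range (n + 1), C ((G * X).coeff (k + 1)) * P ^ (k + 1) *
      Q ^ (n + 1 - (k + 1)) = dbl A B n G * P := by
    unfold dbl
    rw [Finset.sum_mul]
    refine Finset.sum_congr rfl fun i _ => ?_
    rw [coeff_mul_X, Nat.add_sub_add_right]
    ring
  have h5 : ∑ x ∈ Finset.range (n + 1), C ((G * C c).coeff x) * P ^ x * Q ^ (n + 1 - x) =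
      dbl A B n G * (C c * Q) := by
    unfold dbl
    rw [Finset.sum_mul]
    refine Finset.sum_congr rfl fun i hi => ?_
    rw [Finset.mem_range] at hi
    rw [coeff_mul_C, C_mul, show n + 1 - i = n - i + 1 by omega]
    ring
  rw [h4, h5]
  ring

theorem dbl_split (n : ℕ) (a : R) (c : Fin n → R) :
    dbl A B n (C a * ∏ j, (X - C (c j))) = C a * ∏ j, (pP A B - C (c j) * (C 4 * pf A B)) := by
  induction n with
  | zero => simp [dbl]
  | succ n ih =>
    rw [Fin.prod_univ_castSucc, Fin.prod_univ_castSucc, ← mul_assoc, ← mul_assoc,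
      gb3_step A B n _ _ (c (Fin.last n)), ih (fun j => c j.castSucc)]
    refine (natDegree_C_mul_le _ _).trans ?_
    refine (natDegree_prod_le _ _).trans ?_
    refine (Finset.sum_le_card_nsmul _ _ 1 fun j _ => natDegree_X_sub_C_le _).trans ?_
    simp

private theorem gb3_pf_le : (C 4 * pf A B).natDegree ≤ 3 := by
  refine (natDegree_C_mul_le _ _).trans ?_
  unfold pf
  compute_degree

private theorem gb3_pP_monic [Nontrivial R] :
    (pP A B).Monic ∧ (pP A B).natDegree = 4 ∧ (pP A B).coeff 3 = 0 := by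
  refine ⟨?_, ?_, ?_⟩
  · unfold pP
    monicity!
  · unfold pP
    compute_degree!
  · unfold pP
    simp only [coeff_add, coeff_sub, coeff_C_mul, coeff_X_pow, coeff_X, coeff_C]
    norm_num

private theorem gb3_term [Nontrivial R] (n : ℕ) (a : R) (i : ℕ) (hi : i ≤ n) :
    (C a * pP A B ^ i * (C 4 * pf A B) ^ (n - i)).natDegree ≤ 3 * n + i := by
  obtain ⟨h1, h2, -⟩ := gb3_pP_monic A B
  refine natDegree_mul_le.trans ?_
  have h3 : (C a * pP A B ^ i).natDegree ≤ 4 * i := by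
    refine (natDegree_C_mul_le _ _).trans ?_
    refine natDegree_pow_le.trans ?_
    rw [h2]
    omega
  have h4 : ((C 4 * pf A B) ^ (n - i)).natDegree ≤ (n - i) * 3 :=
    natDegree_pow_le.trans (Nat.mul_le_mul_left _ (gb3_pf_le A B))
  omega

theorem dbl_monic [Nontrivial R] (n : ℕ) (G : R[X]) (hG : G.Monic) (hn : G.natDegree = n) :
    (dbl A B n G).Monic ∧ (dbl A B n G).natDegree = 4 * n := by
  obtain ⟨h1, h2, -⟩ := gb3_pP_monic A B
  have hc : G.coeff n = 1 := by rw [← hn]; exact hG.coeff_natDegree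
  have hP : (pP A B ^ n).Monic := h1.pow n
  have hPn : (pP A B ^ n).natDegree = 4 * n := by rw [h1.natDegree_pow, h2]; ring
  have hd : dbl A B n G = pP A B ^ n + ∑ i ∈ Finset.range n,
      C (G.coeff i) * pP A B ^ i * (C 4 * pf A B) ^ (n - i) := by
    unfold dbl
    rw [Finset.sum_range_succ, hc, Nat.sub_self]
    simp
    ring
  rcases Nat.eq_zero_or_pos n with h0 | h0
  · subst h0
    rw [hd]
    simp
  · have hs : (∑ i ∈ Finset.range n,
        C (G.coeff i) * pP A B ^ i * (C 4 * pf A B) ^ (n - i)).natDegree < 4 * n := by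
      have : (∑ i ∈ Finset.range n,
        C (G.coeff i) * pP A B ^ i * (C 4 * pf A B) ^ (n - i)).natDegree ≤ 4 * n - 1 := by
        apply natDegree_sum_le_of_forall_le
        intro i hi
        rw [Finset.mem_range] at hi
        have := gb3_term A B n (G.coeff i) i hi.le
        omega
      omega
    rw [hd]
    refine ⟨hP.add_of_left (degree_lt_degree (by rw [hPn]; exact hs)), ?_⟩
    rw [natDegree_add_eq_left_of_natDegree_lt (by rw [hPn]; exact hs), hPn]

private theorem gb3_id7 : C 3 * pP A B ^ 4 + C (6 * A) * pP A B ^ 2 * (C 4 * pf A B) ^ 2 +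
    C (12 * B) * pP A B * (C 4 * pf A B) ^ 3 - C (A ^ 2) * (C 4 * pf A B) ^ 4 =
    p3 A B * p6 A B := by
  unfold p6 p3 pT pP pf
  simp only [C_mul, C_add, C_pow, map_ofNat]
  ring

theorem dbl_p3 : dbl A B 4 (p3 A B) = p3 A B * p6 A B := by
  rw [← gb3_id7]
  have h0 : (p3 A B).coeff 0 = -A ^ 2 := by
    unfold p3
    simp only [coeff_add, coeff_sub, coeff_C_mul, coeff_X_pow, coeff_X, coeff_C]
    norm_num
  have h1 : (p3 A B).coeff 1 = 12 * B := by
    unfold p3
    simp only [coeff_add, coeff_sub, coeff_C_mul, coeff_X_pow, coeff_X, coeff_C]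
    norm_num
  have h2 : (p3 A B).coeff 2 = 6 * A := by
    unfold p3
    simp only [coeff_add, coeff_sub, coeff_C_mul, coeff_X_pow, coeff_X, coeff_C]
    norm_num
  have h3 : (p3 A B).coeff 3 = 0 := by
    unfold p3
    simp only [coeff_add, coeff_sub, coeff_C_mul, coeff_X_pow, coeff_X, coeff_C]
    norm_num
  have h4 : (p3 A B).coeff 4 = 3 := by
    unfold p3
    simp only [coeff_add, coeff_sub, coeff_C_mul, coeff_X_pow, coeff_X, coeff_C]
    norm_num
  unfold dbl
  simp only [Finset.sum_range_succ, Finset.sum_range_zero, h0, h1, h2, h3, h4]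
  simp only [C_neg, C_0]
  ring

theorem dbl_eval (n : ℕ) (G : R[X]) (x y μ : R) (h1 : (pP A B).eval y = μ * (pP A B).eval x)
    (h2 : (pf A B).eval y = μ * (pf A B).eval x) :
    (dbl A B n G).eval y = μ ^ n * (dbl A B n G).eval x := by
  unfold dbl
  rw [eval_finsetSum, eval_finsetSum, Finset.mul_sum]
  refine Finset.sum_congr rfl fun i hi => ?_
  rw [Finset.mem_range] at hi
  simp only [eval_mul, eval_pow, eval_C, h1, h2]
  rw [show 4 * (μ * (pf A B).eval x) = μ * (4 * (pf A B).eval x) by ring, mul_pow, mul_pow,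
    show μ ^ n = μ ^ i * μ ^ (n - i) by rw [← pow_add]; congr 1; omega]
  ring

theorem map_all {S : Type*} [CommRing S] (φ : R →+* S) :
    (pf A B).map φ = pf (φ A) (φ B) ∧ (pP A B).map φ = pP (φ A) (φ B) ∧
    (pT A B).map φ = pT (φ A) (φ B) ∧ (p3 A B).map φ = p3 (φ A) (φ B) ∧
    (p6 A B).map φ = p6 (φ A) (φ B) ∧ (∀ i, (pY A B i).map φ = pY (φ A) (φ B) i) ∧
    (∀ δ ε s, (pG A B δ ε s).map φ = pG (φ A) (φ B) δ ε s) := by
  have hf : (pf A B).map φ = pf (φ A) (φ B) := by
    unfold pf; simp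
  have hP : (pP A B).map φ = pP (φ A) (φ B) := by
    unfold pP; simp [map_ofNat]
  have hT : (pT A B).map φ = pT (φ A) (φ B) := by
    unfold pT; simp [map_ofNat]
  have h3 : (p3 A B).map φ = p3 (φ A) (φ B) := by
    unfold p3; simp [map_ofNat]
  have h6 : (p6 A B).map φ = p6 (φ A) (φ B) := by
    unfold p6
    simp [hf, hT, h3, map_ofNat]
  have hd : ∀ n G, (dbl A B n G).map φ = dbl (φ A) (φ B) n (G.map φ) := by
    intro n G
    unfold dbl
    rw [Polynomial.map_sum]
    refine Finset.sum_congr rfl fun i _ => ?_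
    simp [hf, hP, map_ofNat]
  have hY : ∀ i, (pY A B i).map φ = pY (φ A) (φ B) i := by
    intro i
    induction i using Nat.strong_induction_on with
    | _ i ih =>
      rcases i with _ | _ | i
      · exact hT
      · exact h6
      · rw [pY, pY, hd, ih i (by omega)]
  refine ⟨hf, hP, hT, h3, h6, hY, ?_⟩
  intro δ ε s
  unfold pG
  rw [Polynomial.map_mul, Polynomial.map_mul, Polynomial.map_pow, Polynomial.map_pow,
    Polynomial.map_prod, hf, h3]
  simp only [hY]

private theorem gb3_p6_expand : p6 A B = X ^ 12 + (C (22 * A) * X ^ 10 + C (220 * B) * X ^ 9 -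
    C (165 * A ^ 2) * X ^ 8 - C (528 * A * B) * X ^ 7 - C (1776 * B ^ 2 + 92 * A ^ 3) * X ^ 6 +
    C (264 * A ^ 2 * B) * X ^ 5 - C (960 * A * B ^ 2 + 185 * A ^ 4) * X ^ 4 -
    C (320 * B ^ 3 + 80 * A ^ 3 * B) * X ^ 3 - C (624 * A ^ 2 * B ^ 2 + 90 * A ^ 5) * X ^ 2 -
    C (896 * A * B ^ 3 + 132 * A ^ 4 * B) * X - C (512 * B ^ 4 + 96 * A ^ 3 * B ^ 2 + 3 * A ^ 6)) := by
  unfold p6 p3 pT pf
  simp only [C_mul, C_add, C_pow, map_ofNat]
  ring

private theorem gb3_T [Nontrivial R] :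
    (pT A B).Monic ∧ (pT A B).natDegree = 6 ∧ (pT A B).coeff 5 = 0 := by
  refine ⟨?_, ?_, ?_⟩
  · unfold pT
    monicity!
  · unfold pT
    compute_degree!
  · unfold pT
    simp only [coeff_add, coeff_sub, coeff_C_mul, coeff_X_pow, coeff_X, coeff_C]
    norm_num

private theorem gb3_6 [Nontrivial R] :
    (p6 A B).Monic ∧ (p6 A B).natDegree = 12 ∧ (p6 A B).coeff 11 = 0 := by
  have h : (C (22 * A) * X ^ 10 + C (220 * B) * X ^ 9 -
    C (165 * A ^ 2) * X ^ 8 - C (528 * A * B) * X ^ 7 - C (1776 * B ^ 2 + 92 * A ^ 3) * X ^ 6 +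
    C (264 * A ^ 2 * B) * X ^ 5 - C (960 * A * B ^ 2 + 185 * A ^ 4) * X ^ 4 -
    C (320 * B ^ 3 + 80 * A ^ 3 * B) * X ^ 3 - C (624 * A ^ 2 * B ^ 2 + 90 * A ^ 5) * X ^ 2 -
    C (896 * A * B ^ 3 + 132 * A ^ 4 * B) * X -
      C (512 * B ^ 4 + 96 * A ^ 3 * B ^ 2 + 3 * A ^ 6) : R[X]).natDegree ≤ 10 := by
    compute_degree
  refine ⟨?_, ?_, ?_⟩
  · rw [gb3_p6_expand]
    exact (monic_X_pow 12).add_of_left (degree_lt_degree (by rw [natDegree_X_pow]; omega))
  · rw [gb3_p6_expand, natDegree_add_eq_left_of_natDegree_lt (by rw [natDegree_X_pow]; omega),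
      natDegree_X_pow]
  · rw [gb3_p6_expand, coeff_add, coeff_X_pow,
      coeff_eq_zero_of_natDegree_lt (n := 11) (lt_of_le_of_lt h (by norm_num))]
    simp

theorem pY_monic [Nontrivial R] (i : ℕ) :
    (pY A B i).Monic ∧ (pY A B i).natDegree = 6 * 2 ^ i := by
  induction i using Nat.strong_induction_on with
  | _ i ih =>
    rcases i with _ | _ | i
    · rw [pY]
      exact ⟨(gb3_T A B).1, by simpa using (gb3_T A B).2.1⟩
    · rw [pY]
      exact ⟨(gb3_6 A B).1, by simpa using (gb3_6 A B).2.1⟩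
    · obtain ⟨h1, h2⟩ := ih i (by omega)
      rw [pY]
      obtain ⟨h3, h4⟩ := dbl_monic A B (6 * 2 ^ i) _ h1 h2
      exact ⟨h3, by rw [h4]; ring⟩

theorem gb3_next [Nontrivial R] (n : ℕ) (hn : 1 ≤ n) (G : R[X]) (hG : G.Monic)
    (hd : G.natDegree = n) (hc : G.coeff (n - 1) = 0) :
    (dbl A B n G).coeff (4 * n - 1) = 0 := by
  obtain ⟨h1, h2, h3⟩ := gb3_pP_monic A B
  obtain ⟨m, rfl⟩ : ∃ m, n = m + 1 := ⟨n - 1, by omega⟩
  rw [Nat.add_sub_cancel] at hc
  have hc1 : G.coeff (m + 1) = 1 := by rw [← hd]; exact hG.coeff_natDegree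
  unfold dbl
  rw [Finset.sum_range_succ, Finset.sum_range_succ, hc, hc1, coeff_add, coeff_add]
  have e1 : (∑ x ∈ Finset.range m,
      C (G.coeff x) * pP A B ^ x * (C 4 * pf A B) ^ (m + 1 - x)).coeff (4 * (m + 1) - 1) = 0 := by
    rw [finsetSum_coeff]
    apply Finset.sum_eq_zero
    intro x hx
    rw [Finset.mem_range] at hx
    apply coeff_eq_zero_of_natDegree_lt
    have := gb3_term A B (m + 1) (G.coeff x) x (by omega)
    omega
  have hPn : (pP A B ^ (m + 1)).natDegree = 4 * (m + 1) := by rw [h1.natDegree_pow, h2]; ring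
  have e2 : (pP A B ^ (m + 1)).coeff (4 * (m + 1) - 1) = 0 := by
    have h5 := h1.nextCoeff_pow (m + 1)
    rw [nextCoeff_of_natDegree_pos (by rw [hPn]; omega), hPn,
      nextCoeff_of_natDegree_pos (by rw [h2]; omega), h2] at h5
    rw [h5]
    simp [h3]
  rw [e1, C_0, zero_mul, zero_mul, coeff_zero, C_1, one_mul, Nat.sub_self, pow_zero, mul_one, e2]
  simp

theorem pY_next [Nontrivial R] (i : ℕ) : (pY A B i).coeff (6 * 2 ^ i - 1) = 0 := by
  induction i using Nat.strong_induction_on with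
  | _ i ih =>
    rcases i with _ | _ | i
    · rw [pY]
      simpa using (gb3_T A B).2.2
    · rw [pY]
      simpa using (gb3_6 A B).2.2
    · obtain ⟨h1, h2⟩ := pY_monic A B i
      have h3 : 1 ≤ 2 ^ i := Nat.one_le_two_pow
      have h4 := gb3_next A B (6 * 2 ^ i) (by omega) _ h1 h2 (ih i (by omega))
      rw [pY]
      rw [show 6 * 2 ^ (i + 2) - 1 = 4 * (6 * 2 ^ i) - 1 by
        congr 1; ring]
      exact h4

end ids

end Pool.Agent.Lib.MP_ca2859_nt.GR.GB
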