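import Mathlib
import Pool.Agent.Lib.MP_ca2859_nt.GR.GB.GB1
import Pool.Agent.Lib.MP_ca2859_nt.GR.GB.GB2
import Pool.Agent.Lib.MP_ca2859_nt.GR.GB.GB3

/-!
# Separability and coprimality of the division polynomials
-/

set_option autoImplicit false

open Polynomial WithZero IsDedekindDomain NumberField

namespace Pool.Agent.Lib.MP_ca2859_nt.GR.GB

section closed
variable {K : Type*} [Field K]

theorem GB4_no_common {P Q : K[X]} (h : IsCoprime P Q) (x : K) (hx : P.eval x = 0) :
    Q.eval x ≠ 0 := by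
  obtain ⟨u, v, huv⟩ := h
  intro hQ
  have := congrArg (fun q => q.eval x) huv
  simp [hx, hQ] at this

variable [IsAlgClosed K] (A B : K)

/-- over an algebraically closed field coprime means no common root -/
theorem GB4_coprime_of {P Q : K[X]} (h : ∀ x, P.eval x = 0 → Q.eval x ≠ 0) :
    IsCoprime P Q := by
  rw [Polynomial.isCoprime_iff_aeval_ne_zero_of_isAlgClosed K K]
  intro a
  rw [coe_aeval_eq_eval]
  by_cases h1 : P.eval a = 0
  · exact Or.inr (h a h1)
  · exact Or.inl h1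

/-- monic polynomials are products over `Fin n` -/
theorem GB4_roots (G : K[X]) (hG : G.Monic) (n : ℕ) (hn : G.natDegree = n) :
    ∃ c : Fin n → K, G = ∏ j, (X - C (c j)) := by
  have h1 := (IsAlgClosed.splits G).eq_prod_roots_of_monic hG
  have h2 : G.roots.card = n := by rw [← hn]; exact (IsAlgClosed.splits G).natDegree_eq_card_roots.symm
  have h3 : G.roots.toList.length = n := by rw [Multiset.length_toList, h2]
  subst h3
  refine ⟨fun j => G.roots.toList.get j, ?_⟩
  rw [← List.prod_ofFn]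
  conv_lhs => rw [h1, ← Multiset.coe_toList G.roots, Multiset.map_coe, Multiset.prod_coe]
  congr 1
  conv_lhs => rw [← List.ofFn_get G.roots.toList, List.map_ofFn]
  rfl

/-- `pP - c (4 pf)` -/
noncomputable def GB4_Q (c : K) : K[X] := pP A B - C c * (C 4 * pf A B)

variable (h2 : (2 : K) ≠ 0) (h3 : (3 : K) ≠ 0) (hD : 4 * A ^ 3 + 27 * B ^ 2 ≠ 0)

include h2 h3 hD

theorem GB4_eval (c x : K) (hx : (GB4_Q A B c).eval x = 0) : (pf A B).eval x ≠ 0 ∧
    (pP A B).eval x = c * (4 * (pf A B).eval x) := by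
  have h1 : (pP A B).eval x = c * (4 * (pf A B).eval x) := by
    unfold GB4_Q at hx
    simpa [sub_eq_zero] using hx
  refine ⟨fun h0 => ?_, h1⟩
  exact GB4_no_common (base A B h2 h3 hD).2.1 x h0 (by rw [h1, h0]; ring)

theorem GB4_four : (4 : K) ≠ 0 := by
  have : (4 : K) = 2 * 2 := by norm_num
  rw [this]
  exact mul_ne_zero h2 h2

theorem GB4_T (c x : K) (hx : (GB4_Q A B c).eval x = 0) (hT : (pT A B).eval x = 0) :
    (pf A B).eval c = 0 := by
  obtain ⟨hf, hP⟩ := GB4_eval A B h2 h3 hD c x hx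
  have h4 := GB4_four A B h2 h3 hD
  have h := congrArg (fun q => q.eval x) (id1 A B)
  simp only [eval_add, eval_mul, eval_pow, eval_C, hP, hT] at h
  have h5 : (4 * (pf A B).eval x) ^ 3 * (pf A B).eval c = 0 := by
    have h6 : (pf A B).eval c = c ^ 3 + A * c + B := by simp [pf]
    rw [h6]
    calc _ = (c * (4 * eval x (pf A B))) ^ 3 + A * (c * (4 * eval x (pf A B))) *
        (4 * eval x (pf A B)) ^ 2 + B * (4 * eval x (pf A B)) ^ 3 := by ring
      _ = 0 := by rw [h]; ring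
  exact (mul_eq_zero.mp h5).resolve_left (pow_ne_zero _ (mul_ne_zero h4 hf))

theorem GB4_sep (c : K) (hc : (pf A B).eval c ≠ 0) : (GB4_Q A B c).Separable := by
  have h4 := GB4_four A B h2 h3 hD
  refine GB4_coprime_of fun x hx hd => hc ?_
  obtain ⟨hf, hP⟩ := GB4_eval A B h2 h3 hD c x hx
  refine GB4_T A B h2 h3 hD c x hx ?_
  have h := congrArg (fun q => q.eval x) (id2 A B)
  have hd' : (derivative (pP A B)).eval x = c * (derivative (C 4 * pf A B)).eval x := by
    unfold GB4_Q at hd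
    rw [derivative_sub, derivative_C_mul] at hd
    simpa [sub_eq_zero] using hd
  simp only [eval_sub, eval_mul, eval_C, hP, hd'] at h
  have h5 : 4 * (pT A B).eval x = 0 := by
    rw [← h]; ring
  exact (mul_eq_zero.mp h5).resolve_left h4

theorem GB4_copQ (c c' : K) (hc : c ≠ c') : IsCoprime (GB4_Q A B c) (GB4_Q A B c') := by
  have h4 := GB4_four A B h2 h3 hD
  refine GB4_coprime_of fun x hx hx' => hc ?_
  obtain ⟨hf, hP⟩ := GB4_eval A B h2 h3 hD c x hx
  obtain ⟨_, hP'⟩ := GB4_eval A B h2 h3 hD c' x hx'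
  rw [hP] at hP'
  exact mul_right_cancel₀ (mul_ne_zero h4 hf) hP'

theorem GB4_copf (c : K) : IsCoprime (pf A B) (GB4_Q A B c) :=
  (GB4_coprime_of fun x hx => (GB4_eval A B h2 h3 hD c x hx).1).symm

theorem GB4_cop3 (c : K) (hc : (p3 A B).eval c ≠ 0) : IsCoprime (p3 A B) (GB4_Q A B c) := by
  have h4 := GB4_four A B h2 h3 hD
  refine (GB4_coprime_of fun x hx hx' => hc ?_).symm
  obtain ⟨hf, hP⟩ := GB4_eval A B h2 h3 hD c x hx
  have h := congrArg (fun q => q.eval x) (id3 A B)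
  simp only [eval_sub, eval_mul, eval_C, eval_X, eval_neg, hP, hx'] at h
  have h5 : (c - x) * (4 * (pf A B).eval x) = 0 := by
    rw [sub_mul, h, neg_zero]
  have h6 : c = x := sub_eq_zero.mp
    ((mul_eq_zero.mp h5).resolve_right (mul_ne_zero h4 hf))
  rw [h6]
  exact hx'

theorem GB4_copT (c : K) (hc : (pf A B).eval c ≠ 0) : IsCoprime (pT A B) (GB4_Q A B c) :=
  (GB4_coprime_of fun x hx hx' => hc (GB4_T A B h2 h3 hD c x hx hx')).symm

theorem GB4_cop6 (c : K) (hc : (p3 A B).eval c ≠ 0) : IsCoprime (p6 A B) (GB4_Q A B c) := by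
  have h4 := GB4_four A B h2 h3 hD
  refine (GB4_coprime_of fun x hx hx' => hc ?_).symm
  obtain ⟨hf, hP⟩ := GB4_eval A B h2 h3 hD c x hx
  have h := congrArg (fun q => q.eval x) (id7 A B)
  simp only [eval_sub, eval_add, eval_mul, eval_pow, eval_C, hP, hx'] at h
  have h5 : (4 * (pf A B).eval x) ^ 4 * (p3 A B).eval c = 0 := by
    have h6 : (p3 A B).eval c = 3 * c ^ 4 + 6 * A * c ^ 2 + 12 * B * c - A ^ 2 := by simp [p3]
    rw [h6]
    calc _ = 3 * (c * (4 * eval x (pf A B))) ^ 4 + 6 * A * (c * (4 * eval x (pf A B))) ^ 2 *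
        (4 * eval x (pf A B)) ^ 2 + 12 * B * (c * (4 * eval x (pf A B))) *
        (4 * eval x (pf A B)) ^ 3 - A ^ 2 * (4 * eval x (pf A B)) ^ 4 := by ring
      _ = 0 := by rw [h]; ring
  exact (mul_eq_zero.mp h5).resolve_left (pow_ne_zero _ (mul_ne_zero h4 hf))

/-- the factorisation of `pY (i+2)` -/
theorem GB4_split (i : ℕ) : ∃ c : Fin (6 * 2 ^ i) → K, pY A B i = ∏ j, (X - C (c j)) ∧
    pY A B (i + 2) = ∏ j, GB4_Q A B (c j) := by
  obtain ⟨hm, hd⟩ := pY_monic A B i
  obtain ⟨c, hc⟩ := GB4_roots (pY A B i) hm _ hd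
  refine ⟨c, hc, ?_⟩
  have h := dbl_split A B (6 * 2 ^ i) 1 c
  rw [C_1, one_mul, one_mul, ← hc] at h
  exact h

theorem GB4_spec (i : ℕ) :
    (pY A B i).Separable ∧ IsCoprime (pf A B) (pY A B i) ∧ IsCoprime (p3 A B) (pY A B i) ∧
    (1 ≤ i → IsCoprime (pT A B) (pY A B i)) := by
  obtain ⟨b1, b2, b3, b4, b5, b6, b7, b8, b9, b10, b11⟩ := base A B h2 h3 hD
  induction i using Nat.strong_induction_on with
  | _ i ih =>
    match i with
    | 0 => exact ⟨b7, b3, b9, fun h => absurd h (by omega)⟩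
    | 1 => exact ⟨b8, b5, b10, fun _ => b11⟩
    | (i + 2) =>
      obtain ⟨s1, s2, s3, -⟩ := ih i (by omega)
      obtain ⟨c, hc, hc2⟩ := GB4_split A B h2 h3 hD i
      have hroot : ∀ j, (pY A B i).eval (c j) = 0 := by
        intro j
        rw [hc, eval_prod]
        exact Finset.prod_eq_zero (Finset.mem_univ j) (by simp)
      have hinj : Function.Injective c := by
        rw [← separable_prod_X_sub_C_iff, ← hc]
        exact s1
      have hf : ∀ j, (pf A B).eval (c j) ≠ 0 := fun j =>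
        GB4_no_common s2.symm (c j) (hroot j)
      have hp3 : ∀ j, (p3 A B).eval (c j) ≠ 0 := fun j =>
        GB4_no_common s3.symm (c j) (hroot j)
      rw [hc2]
      refine ⟨separable_prod ?_ fun j => GB4_sep A B h2 h3 hD _ (hf j), ?_, ?_, fun _ => ?_⟩
      · intro j j' hjj
        exact GB4_copQ A B h2 h3 hD _ _ fun h => hjj (hinj h)
      · exact IsCoprime.prod_right fun j _ => GB4_copf A B h2 h3 hD _
      · exact IsCoprime.prod_right fun j _ => GB4_cop3 A B h2 h3 hD _ (hp3 j)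
      · exact IsCoprime.prod_right fun j _ => GB4_copT A B h2 h3 hD _ (hf j)

theorem GB4_cop (i : ℕ) : ∀ j : ℕ, i ≠ j → IsCoprime (pY A B i) (pY A B j) := by
  have hp6 : ∀ j, IsCoprime (p6 A B) (pY A B (j + 2)) := by
    intro j
    obtain ⟨c, hc, hc2⟩ := GB4_split A B h2 h3 hD j
    obtain ⟨s1, s2, s3, -⟩ := GB4_spec A B h2 h3 hD j
    rw [hc2]
    refine IsCoprime.prod_right fun l _ => GB4_cop6 A B h2 h3 hD _ ?_
    refine GB4_no_common s3.symm (c l) ?_
    rw [hc, eval_prod]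
    exact Finset.prod_eq_zero (Finset.mem_univ l) (by simp)
  induction i using Nat.strong_induction_on with
  | _ i ih =>
    match i with
    | 0 => exact fun j hj => (GB4_spec A B h2 h3 hD j).2.2.2 (by omega)
    | 1 =>
      intro j hj
      match j with
      | 0 => exact ((GB4_spec A B h2 h3 hD 1).2.2.2 le_rfl).symm
      | 1 => exact absurd rfl hj
      | (j + 2) => exact hp6 j
    | (i + 2) =>
      intro j hj
      match j with
      | 0 => exact ((GB4_spec A B h2 h3 hD (i + 2)).2.2.2 (by omega)).symm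
      | 1 => exact (hp6 i).symm
      | (j + 2) =>
        have hij : i ≠ j := by omega
        have h1 := ih i (by omega) j hij
        obtain ⟨c, hc, hc2⟩ := GB4_split A B h2 h3 hD i
        obtain ⟨d, hd, hd2⟩ := GB4_split A B h2 h3 hD j
        rw [hc2, hd2]
        refine IsCoprime.prod_left fun l _ => IsCoprime.prod_right fun m _ => ?_
        refine GB4_copQ A B h2 h3 hD _ _ fun hlm => ?_
        have hl : (pY A B i).eval (c l) = 0 := by
          rw [hc, eval_prod]
          exact Finset.prod_eq_zero (Finset.mem_univ l) (by simp)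
        have hm : (pY A B j).eval (d m) = 0 := by
          rw [hd, eval_prod]
          exact Finset.prod_eq_zero (Finset.mem_univ m) (by simp)
        exact GB4_no_common h1 (c l) hl (hlm ▸ hm)

end closed

section field
variable {k : Type*} [Field k] (A B : k)

theorem GB4_hyp (h2 : (2 : k) ≠ 0) (h3 : (3 : k) ≠ 0) (hD : 4 * A ^ 3 + 27 * B ^ 2 ≠ 0) :
    (2 : AlgebraicClosure k) ≠ 0 ∧ (3 : AlgebraicClosure k) ≠ 0 ∧
    4 * (algebraMap k (AlgebraicClosure k) A) ^ 3 +
      27 * (algebraMap k (AlgebraicClosure k) B) ^ 2 ≠ 0 := by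
  have hinj := (algebraMap k (AlgebraicClosure k)).injective
  refine ⟨?_, ?_, ?_⟩
  · intro h
    exact h2 (hinj (by rw [map_ofNat, map_zero, h]))
  · intro h
    exact h3 (hinj (by rw [map_ofNat, map_zero, h]))
  · intro h
    refine hD (hinj ?_)
    rw [map_zero, ← h]
    simp only [map_add, map_mul, map_pow, map_ofNat]

/-- GB4 -/
theorem pY_spec (h2 : (2 : k) ≠ 0) (h3 : (3 : k) ≠ 0) (hD : 4 * A ^ 3 + 27 * B ^ 2 ≠ 0) (i : ℕ) :
    (pY A B i).Separable ∧ IsCoprime (pf A B) (pY A B i) ∧ IsCoprime (p3 A B) (pY A B i) ∧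
    (1 ≤ i → IsCoprime (pT A B) (pY A B i)) := by
  obtain ⟨h2', h3', hD'⟩ := GB4_hyp A B h2 h3 hD
  obtain ⟨m1, m2, m3, m4, m5, m6, -⟩ := map_all A B (algebraMap k (AlgebraicClosure k))
  obtain ⟨s1, s2, s3, s4⟩ := GB4_spec _ _ h2' h3' hD' i
  rw [← m6] at s1 s2 s3 s4
  rw [← m1] at s2
  rw [← m4] at s3
  rw [← m3] at s4
  refine ⟨?_, ?_, ?_, fun hi => ?_⟩
  · exact (Polynomial.separable_map _).mp s1
  · exact (Polynomial.isCoprime_map _).mp s2
  · exact (Polynomial.isCoprime_map _).mp s3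
  · exact (Polynomial.isCoprime_map _).mp (s4 hi)

theorem pY_coprime (h2 : (2 : k) ≠ 0) (h3 : (3 : k) ≠ 0) (hD : 4 * A ^ 3 + 27 * B ^ 2 ≠ 0)
    (i j : ℕ) (hij : i ≠ j) : IsCoprime (pY A B i) (pY A B j) := by
  obtain ⟨h2', h3', hD'⟩ := GB4_hyp A B h2 h3 hD
  obtain ⟨m1, m2, m3, m4, m5, m6, -⟩ := map_all A B (algebraMap k (AlgebraicClosure k))
  have h := GB4_cop _ _ h2' h3' hD' i j hij
  rw [← m6, ← m6] at h
  exact (Polynomial.isCoprime_map _).mp h

end field

end Pool.Agent.Lib.MP_ca2859_nt.GR.GB
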