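import Mathlib
import Pool.Agent.Lib.MP_ca2859_nt.GR.GB.Defs

/-!
# Scaling of the division polynomials
-/

set_option autoImplicit false

open Polynomial WithZero IsDedekindDomain NumberField

namespace Pool.Agent.Lib.MP_ca2859_nt.GR.GB

section scale
variable {k : Type*} [Field k] (A B : k)

theorem GB6_pf (μ : k) : (pf (μ ^ 2 * A) (μ ^ 3 * B)).comp (C μ * X) =
    C (μ ^ 3) * pf A B := by
  simp only [pf, add_comp, mul_comp, pow_comp, X_comp, C_comp, C_mul, C_pow]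
  ring

theorem GB6_pP (μ : k) : (pP (μ ^ 2 * A) (μ ^ 3 * B)).comp (C μ * X) =
    C (μ ^ 4) * pP A B := by
  simp only [pP, sub_comp, add_comp, mul_comp, pow_comp, X_comp, C_comp, C_mul, C_pow]
  ring

theorem GB6_pT (μ : k) : (pT (μ ^ 2 * A) (μ ^ 3 * B)).comp (C μ * X) =
    C (μ ^ 6) * pT A B := by
  simp only [pT, sub_comp, add_comp, mul_comp, pow_comp, X_comp, C_comp, C_mul, C_pow, C_add]
  ring

theorem p3_scale (μ : k) : (p3 (μ ^ 2 * A) (μ ^ 3 * B)).comp (C μ * X) =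
    C (μ ^ 4) * p3 A B := by
  simp only [p3, sub_comp, add_comp, mul_comp, pow_comp, X_comp, C_comp, C_mul, C_pow, C_add]
  ring

theorem GB6_p6 (μ : k) : (p6 (μ ^ 2 * A) (μ ^ 3 * B)).comp (C μ * X) =
    C (μ ^ 12) * p6 A B := by
  simp only [p6, sub_comp, mul_comp, pow_comp, C_comp, GB6_pf, GB6_pT, p3_scale, C_pow]
  ring

/-- scaling of the pull back -/
theorem GB6_dbl (μ : k) (n : ℕ) (G G' : k[X]) (h : G'.comp (C μ * X) = C (μ ^ n) * G)
    (hμ : μ ≠ 0) : (dbl (μ ^ 2 * A) (μ ^ 3 * B) n G').comp (C μ * X) =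
      C (μ ^ (4 * n)) * dbl A B n G := by
  have hc : ∀ i, G'.coeff i * μ ^ i = μ ^ n * G.coeff i := by
    intro i
    have h1 := congrArg (fun q => q.coeff i) h
    simp only [coeff_C_mul] at h1
    rw [← h1]
    exact (Polynomial.comp_C_mul_X_coeff (p := G') (r := μ) (n := i)).symm
  unfold dbl
  rw [Polynomial.sum_comp, Finset.mul_sum]
  refine Finset.sum_congr rfl fun i hi => ?_
  have hin : i ≤ n := by simpa [Nat.lt_succ_iff] using hi
  simp only [mul_comp, pow_comp, C_comp, GB6_pf, GB6_pP]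
  have h2 : C (G'.coeff i) * C μ ^ i = C (μ ^ n) * C (G.coeff i) := by
    rw [← C_pow, ← C_mul, hc, C_mul]
  have h3 : ((C (μ ^ 4) * pP A B : k[X])) ^ i = C μ ^ (4 * i) * pP A B ^ i := by
    rw [mul_pow, C_pow, ← pow_mul]
  have h4 : (C 4 * (C (μ ^ 3) * pf A B) : k[X]) ^ (n - i) =
      C μ ^ (3 * (n - i)) * (C 4 * pf A B) ^ (n - i) := by
    rw [mul_pow, mul_pow, mul_pow, C_pow, ← pow_mul]
    ring
  rw [h3, h4]
  have h5 : (C μ : k[X]) ^ (4 * i) * C μ ^ (3 * (n - i)) = C μ ^ i * C μ ^ (3 * n) := by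
    rw [← pow_add, ← pow_add]
    congr 1
    omega
  calc C (G'.coeff i) * (C μ ^ (4 * i) * pP A B ^ i) *
        (C μ ^ (3 * (n - i)) * (C 4 * pf A B) ^ (n - i))
      = C (G'.coeff i) * (C μ ^ (4 * i) * C μ ^ (3 * (n - i))) * (pP A B ^ i *
        (C 4 * pf A B) ^ (n - i)) := by ring
    _ = (C (G'.coeff i) * C μ ^ i) * C μ ^ (3 * n) * (pP A B ^ i *
        (C 4 * pf A B) ^ (n - i)) := by rw [h5]; ring
    _ = C (μ ^ (4 * n)) * (C (G.coeff i) * pP A B ^ i * (C 4 * pf A B) ^ (n - i)) := by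
        rw [h2, C_pow, C_pow, show 4 * n = n + 3 * n by ring, pow_add]
        ring

/-- GB6 -/
theorem pY_scale (μ : k) (hμ : μ ≠ 0) (i : ℕ) : (pY (μ ^ 2 * A) (μ ^ 3 * B) i).comp (C μ * X) =
    C (μ ^ (6 * 2 ^ i)) * pY A B i := by
  induction i using Nat.strong_induction_on with
  | _ i ih =>
    match i with
    | 0 => simpa [pY] using GB6_pT A B μ
    | 1 => simpa [pY] using GB6_p6 A B μ
    | (i + 2) =>
      have h1 := ih i (by omega)
      have h2 := GB6_dbl A B μ (6 * 2 ^ i) _ _ h1 hμ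
      rw [show 6 * 2 ^ (i + 2) = 4 * (6 * 2 ^ i) by ring]
      exact h2

theorem pG_same (g : ℕ) (δ ε : ℕ) (s : Finset ℕ) (u : k) (hu : u ≠ 0) :
    SameCurve g (pG A B δ ε s) (pG (u ^ 4 * A) (u ^ 6 * B) δ ε s) := by
  have hμ : u ^ 2 ≠ 0 := pow_ne_zero 2 hu
  have hA : (u ^ 4 * A) = (u ^ 2) ^ 2 * A := by ring
  have hB : (u ^ 6 * B) = (u ^ 2) ^ 3 * B := by ring
  rw [hA, hB]
  -- the scaling identity
  have key : (pG ((u ^ 2) ^ 2 * A) ((u ^ 2) ^ 3 * B) δ ε s).comp (C (u ^ 2) * X) =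
      C ((u ^ 2) ^ (3 * δ + 4 * ε + ∑ i ∈ s, 6 * 2 ^ i)) * pG A B δ ε s := by
    unfold pG
    rw [mul_comp, mul_comp, pow_comp, pow_comp, GB6_pf, p3_scale, Polynomial.prod_comp]
    have h1 : ∏ i ∈ s, (pY ((u ^ 2) ^ 2 * A) ((u ^ 2) ^ 3 * B) i).comp (C (u ^ 2) * X) =
        C ((u ^ 2) ^ (∑ i ∈ s, 6 * 2 ^ i)) * ∏ i ∈ s, pY A B i := by
      rw [Finset.prod_congr rfl fun i _ => pY_scale A B (u ^ 2) hμ i, Finset.prod_mul_distrib]
      congr 1
      rw [← Finset.prod_pow_eq_pow_sum, map_prod]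
    rw [h1, mul_pow, mul_pow, pow_add, pow_add, pow_mul, pow_mul]
    simp only [C_mul, C_pow]
    ring
  refine ⟨(u ^ 2)⁻¹, 0, 0, 1, u ^ (3 * δ + 4 * ε + ∑ i ∈ s, 6 * 2 ^ i), ?_,
    pow_ne_zero _ hu, ?_⟩
  · rw [mul_one, mul_zero, sub_zero]
    exact inv_ne_zero hμ
  · intro x _
    have h2 := congrArg (fun q => q.eval ((u ^ 2)⁻¹ * x)) key
    simp only [eval_comp, eval_mul, eval_C, eval_X] at h2
    rw [← mul_assoc, mul_inv_cancel₀ hμ, one_mul] at h2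
    rw [h2]
    simp only [zero_mul, zero_add, one_pow, mul_one, add_zero, div_one]
    rw [← pow_mul, ← pow_mul, mul_comm 2]
end scale

end Pool.Agent.Lib.MP_ca2859_nt.GR.GB
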