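import Mathlib
import Pool.Agent.Lib.MP_ca2859_nt.GR.GB.Defs

/-!
# The translation by a point of order two and the duplication
-/

set_option autoImplicit false

open Polynomial WithZero IsDedekindDomain NumberField

namespace Pool.Agent.Lib.MP_ca2859_nt.GR.GB

section loc
variable {L : Type*} [Field L] [CharZero L]

/-- evaluation of `x³ + A x + B` -/
theorem GB9_evf (A B x : L) : (pf A B).eval x = x ^ 3 + A * x + B := by
  simp only [pf, eval_add, eval_mul, eval_pow, eval_X, eval_C]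

/-- evaluation of `pP` -/
theorem GB9_evP (A B x : L) :
    (pP A B).eval x = x ^ 4 - 2 * A * x ^ 2 - 8 * B * x + A ^ 2 := by
  simp only [pP, eval_add, eval_sub, eval_mul, eval_pow, eval_X, eval_C]

/-- evaluation of `pT` -/
theorem GB9_evT (A B x : L) : (pT A B).eval x =
    x ^ 6 + 5 * A * x ^ 4 + 20 * B * x ^ 3 - 5 * A ^ 2 * x ^ 2 - 4 * A * B * x -
      (8 * B ^ 2 + A ^ 3) := by
  simp only [pT, eval_add, eval_sub, eval_mul, eval_pow, eval_X, eval_C]

/-- evaluation of `p3` -/
theorem GB9_ev3 (A B x : L) :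
    (p3 A B).eval x = 3 * x ^ 4 + 6 * A * x ^ 2 + 12 * B * x - A ^ 2 := by
  simp only [p3, eval_add, eval_sub, eval_mul, eval_pow, eval_X, eval_C]

/-- evaluation of `p6` -/
theorem GB9_ev6 (A B x : L) : (p6 A B).eval x =
    32 * (pf A B).eval x ^ 2 * (pT A B).eval x - (p3 A B).eval x ^ 3 -
      4 * (pT A B).eval x ^ 2 := by
  simp only [p6, eval_sub, eval_mul, eval_pow, eval_C]

/-- the translation with its multiplier -/
theorem GB9_mu (a b c x : L) (hsum : a + b + c = 0) (hx : x ≠ a) :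
    (pP (a * b + a * c + b * c) (-(a * b * c))).eval (rr a b c x) =
        (((a - b) * (a - c)) ^ 2 / (x - a) ^ 4) *
          (pP (a * b + a * c + b * c) (-(a * b * c))).eval x ∧
      (pf (a * b + a * c + b * c) (-(a * b * c))).eval (rr a b c x) =
        (((a - b) * (a - c)) ^ 2 / (x - a) ^ 4) *
          (pf (a * b + a * c + b * c) (-(a * b * c))).eval x := by
  obtain rfl : c = -a - b := by linear_combination hsum
  have hx' : x - a ≠ 0 := sub_ne_zero.mpr hx
  constructor
  · rw [GB9_evP, GB9_evP, rr]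
    field_simp
    ring
  · rw [GB9_evf, GB9_evf, rr]
    field_simp
    ring

/-- GB9: the translation by a point of order two commutes with the duplication. -/
theorem rr_double (a b c x : L) (hsum : a + b + c = 0) (hx : x ≠ a) :
    ∃ μ : L, (pP (a * b + a * c + b * c) (-(a * b * c))).eval (rr a b c x) =
        μ * (pP (a * b + a * c + b * c) (-(a * b * c))).eval x ∧
      (pf (a * b + a * c + b * c) (-(a * b * c))).eval (rr a b c x) =
        μ * (pf (a * b + a * c + b * c) (-(a * b * c))).eval x :=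
  ⟨_, GB9_mu a b c x hsum hx⟩

/-- `N_a` -/
def NN (a b c x : L) : L := (x - a) * (x - b) + (x - a) * (x - c) - (x - b) * (x - c)

theorem rr_sub_self (a b c x : L) (hx : x ≠ a) : x - rr a b c x = NN a b c x / (x - a) := by
  have hx' : x - a ≠ 0 := sub_ne_zero.mpr hx
  rw [rr, NN]
  field_simp
  ring

theorem rr_sub_rr (a b c x : L) (ha : x ≠ a) (hb : x ≠ b) : rr a b c x - rr b a c x =
    (a - b) * NN c a b x / ((x - a) * (x - b)) := by
  have ha' : x - a ≠ 0 := sub_ne_zero.mpr ha
  have hb' : x - b ≠ 0 := sub_ne_zero.mpr hb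
  rw [rr, rr, NN]
  field_simp
  ring

theorem pT_eval (a b c x : L) (hsum : a + b + c = 0) :
    (pT (a * b + a * c + b * c) (-(a * b * c))).eval x = NN a b c x * NN b a c x * NN c a b x := by
  obtain rfl : c = -a - b := by linear_combination hsum
  rw [GB9_evT, NN, NN, NN]
  ring

theorem pf_eval (a b c x : L) (hsum : a + b + c = 0) :
    (pf (a * b + a * c + b * c) (-(a * b * c))).eval x = (x - a) * (x - b) * (x - c) := by
  obtain rfl : c = -a - b := by linear_combination hsum
  rw [GB9_evf]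
  ring

/-- homogeneity of the pull back -/
theorem GB9_dbl (A B : L) (n : ℕ) (G : L[X]) (x y μ : L)
    (h1 : (pP A B).eval y = μ * (pP A B).eval x)
    (h2 : (pf A B).eval y = μ * (pf A B).eval x) :
    (dbl A B n G).eval y = μ ^ n * (dbl A B n G).eval x := by
  rw [dbl, eval_finsetSum, eval_finsetSum, Finset.mul_sum]
  refine Finset.sum_congr rfl fun i hi => ?_
  have hi' : i ≤ n := Nat.lt_succ_iff.mp (Finset.mem_range.mp hi)
  simp only [eval_mul, eval_pow, eval_C, h1, h2]
  obtain ⟨k, rfl⟩ := Nat.exists_eq_add_of_le hi'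
  rw [Nat.add_sub_cancel_left, pow_add]
  ring

/-- the roots of `pY i`, `i ≥ 2`, are stable under the translations by points of order two -/
theorem rr_pY (a b c x : L) (hsum : a + b + c = 0) (hx : x ≠ a) (i : ℕ)
    (h : (pY (a * b + a * c + b * c) (-(a * b * c)) (i + 2)).eval x = 0) :
    (pY (a * b + a * c + b * c) (-(a * b * c)) (i + 2)).eval (rr a b c x) = 0 := by
  obtain ⟨h1, h2⟩ := GB9_mu a b c x hsum hx
  rw [pY] at h ⊢
  rw [GB9_dbl _ _ _ _ _ _ _ h1 h2, h, mul_zero]

/-- the value of `p3` at a point of order two -/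
theorem GB9_p3a (a b c : L) (hsum : a + b + c = 0) :
    (p3 (a * b + a * c + b * c) (-(a * b * c))).eval a = -((a - b) * (a - c)) ^ 2 := by
  obtain rfl : c = -a - b := by linear_combination hsum
  rw [GB9_ev3]
  ring

/-- the triplication of the duplication -/
theorem GB9_id7 (A B x : L) : 3 * (pP A B).eval x ^ 4 +
    6 * A * (pP A B).eval x ^ 2 * (4 * (pf A B).eval x) ^ 2 +
    12 * B * (pP A B).eval x * (4 * (pf A B).eval x) ^ 3 - A ^ 2 * (4 * (pf A B).eval x) ^ 4 =
    (p3 A B).eval x * (p6 A B).eval x := by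
  rw [GB9_ev6, GB9_evP, GB9_evf, GB9_ev3, GB9_evT]
  ring

/-- translating a point of order three by a point of order two gives a point of order six -/
theorem rr_p3 (a b c x : L) (hsum : a + b + c = 0) (hab : a ≠ b) (hac : a ≠ c) (hbc : b ≠ c)
    (h : (p3 (a * b + a * c + b * c) (-(a * b * c))).eval x = 0) :
    (p6 (a * b + a * c + b * c) (-(a * b * c))).eval (rr a b c x) = 0 := by
  have hab' : a - b ≠ 0 := sub_ne_zero.mpr hab
  have hac' : a - c ≠ 0 := sub_ne_zero.mpr hac
  have hbc' : b - c ≠ 0 := sub_ne_zero.mpr hbc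
  have hxa : x ≠ a := by
    rintro rfl
    rw [GB9_p3a x b c hsum] at h
    exact (neg_ne_zero.mpr (pow_ne_zero 2 (mul_ne_zero hab' hac'))) h
  have hxb : x ≠ b := by
    rintro rfl
    have h1 := GB9_p3a x a c (by linear_combination hsum)
    have e1 : x * a + x * c + a * c = a * x + a * c + x * c := by ring
    have e2 : -(x * a * c) = -(a * x * c) := by ring
    rw [e1, e2, h] at h1
    have h2 : x - a ≠ 0 := sub_ne_zero.mpr (Ne.symm hab)
    exact (neg_ne_zero.mpr (pow_ne_zero 2 (mul_ne_zero h2 hbc'))) h1.symm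
  have hxc : x ≠ c := by
    rintro rfl
    have h1 := GB9_p3a x a b (by linear_combination hsum)
    have e1 : x * a + x * b + a * b = a * b + a * x + b * x := by ring
    have e2 : -(x * a * b) = -(a * b * x) := by ring
    rw [e1, e2, h] at h1
    have h2 : x - a ≠ 0 := sub_ne_zero.mpr (Ne.symm hac)
    have h3 : x - b ≠ 0 := sub_ne_zero.mpr (Ne.symm hbc)
    exact (neg_ne_zero.mpr (pow_ne_zero 2 (mul_ne_zero h2 h3))) h1.symm
  have hxa' : x - a ≠ 0 := sub_ne_zero.mpr hxa
  have hfx : (pf (a * b + a * c + b * c) (-(a * b * c))).eval x ≠ 0 := by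
    rw [pf_eval a b c x hsum]
    exact mul_ne_zero (mul_ne_zero hxa' (sub_ne_zero.mpr hxb)) (sub_ne_zero.mpr hxc)
  obtain ⟨h1, h2⟩ := GB9_mu a b c x hsum hxa
  obtain ⟨A, hA⟩ : ∃ A : L, A = a * b + a * c + b * c := ⟨_, rfl⟩
  obtain ⟨B, hB⟩ : ∃ B : L, B = -(a * b * c) := ⟨_, rfl⟩
  obtain ⟨μ, hμ⟩ : ∃ μ : L, μ = ((a - b) * (a - c)) ^ 2 / (x - a) ^ 4 := ⟨_, rfl⟩
  have hμ0 : μ ≠ 0 := by
    rw [hμ]
    exact div_ne_zero (pow_ne_zero 2 (mul_ne_zero hab' hac')) (pow_ne_zero 4 hxa')
  obtain ⟨y, hy⟩ : ∃ y : L, y = rr a b c x := ⟨_, rfl⟩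
  rw [← hA, ← hB] at h hfx h1 h2 ⊢
  rw [← hμ, ← hy] at h1 h2
  rw [← hy]
  have hP : ∀ z : L, (pP A B).eval z = 4 * z * (pf A B).eval z - (p3 A B).eval z := by
    intro z
    rw [GB9_evP, GB9_evf, GB9_ev3]
    ring
  have hPx : (pP A B).eval x = 4 * x * (pf A B).eval x := by
    rw [hP x, h, sub_zero]
  have hprod : (p3 A B).eval y * (p6 A B).eval y = 0 := by
    rw [← GB9_id7, h1, h2, hPx]
    rw [GB9_ev3] at h
    linear_combination (μ ^ 4 * (4 * (pf A B).eval x) ^ 4) * h
  rcases mul_eq_zero.mp hprod with h3 | h3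
  · exfalso
    have hPy := hP y
    rw [h3, sub_zero, h1, h2, hPx] at hPy
    have hxy : (x - y) * (4 * (μ * (pf A B).eval x)) = 0 := by linear_combination hPy
    have h4 : (4 : L) ≠ 0 := by norm_num
    have hxy' : x - y = 0 :=
      (mul_eq_zero.mp hxy).resolve_right (mul_ne_zero h4 (mul_ne_zero hμ0 hfx))
    rw [hy, rr_sub_self a b c x hxa, div_eq_zero_iff] at hxy'
    have hN : NN a b c x = 0 := hxy'.resolve_right hxa'
    obtain rfl : c = -a - b := by linear_combination hsum
    obtain ⟨u, hu⟩ : ∃ u : L, u = x - a := ⟨_, rfl⟩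
    obtain ⟨m, hm⟩ : ∃ m : L, m = (a - b) * (a - (-a - b)) := ⟨_, rfl⟩
    have hu2 : u ^ 2 = m := by
      rw [NN] at hN
      rw [hu, hm]
      linear_combination hN
    have hu0 : u ≠ 0 := by rw [hu]; exact hxa'
    have hm0 : m ≠ 0 := by rw [hm]; exact mul_ne_zero hab' hac'
    have hp3 : 4 * m * u * (2 * u + 3 * a) = 0 := by
      rw [GB9_ev3, hA, hB] at h
      have hx2 : x = u + a := by rw [hu]; ring
      rw [hx2] at h
      rw [hm] at hu2 ⊢
      linear_combination h - (12 * a * u + (a - b) * (a - (-a - b)) + 3 * u ^ 2) * hu2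
    have h5 : 2 * u + 3 * a = 0 :=
      (mul_eq_zero.mp hp3).resolve_left (mul_ne_zero (mul_ne_zero h4 hm0) hu0)
    have h6 : (b - (-a - b)) ^ 2 = 0 := by
      rw [hm] at hu2
      linear_combination (3 * a - 2 * u) * h5 + 4 * hu2
    exact hbc' ((pow_eq_zero_iff two_ne_zero).mp h6)
  · exact h3

end loc

end Pool.Agent.Lib.MP_ca2859_nt.GR.GB
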