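import Mathlib
import Pool.Agent.Lib.MP_ca2859_nt.CRStable
import Pool.Agent.Lib.MP_ca2859_nt.GR.GB.GB1
import Pool.Agent.Lib.MP_ca2859_nt.GR.GB.GB2
import Pool.Agent.Lib.MP_ca2859_nt.GR.GB.GB3
import Pool.Agent.Lib.MP_ca2859_nt.GR.GB.GB4
import Pool.Agent.Lib.MP_ca2859_nt.GR.GB.GB6
import Pool.Agent.Lib.MP_ca2859_nt.GR.GB.GB9

set_option autoImplicit false

open Polynomial WithZero IsDedekindDomain NumberField

namespace Pool.Agent.Lib.MP_ca2859_nt.GR.GB

section loc
variable {L : Type*} [Field L] [CharZero L] (w : Valuation L ℤᵐ⁰)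

theorem GB10_ord_le {x y : L} (hx : x ≠ 0) (hy : y ≠ 0) (h : w x ≤ w y) : ord w y ≤ ord w x := by
  rw [w_eq_exp hx, w_eq_exp hy, exp_le_exp] at h
  linarith

theorem GB10_le_of_ord {x y : L} (hx : x ≠ 0) (hy : y ≠ 0) (h : ord w y ≤ ord w x) : w x ≤ w y := by
  rw [w_eq_exp hx, w_eq_exp hy, exp_le_exp]
  linarith

/-- polynomials in integral parameters are integral -/
theorem GB10_int (A B : L) (hA : w A ≤ 1) (hB : w B ≤ 1) (k : ℕ) :
    (∀ i, w ((pY A B i).coeff k) ≤ 1) ∧ w ((p3 A B).coeff k) ≤ 1 := by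
  set A' : w.integer := ⟨A, hA⟩
  set B' : w.integer := ⟨B, hB⟩
  obtain ⟨-, -, -, h3, -, hY, -⟩ := map_all A' B' w.integer.subtype
  constructor
  · intro i
    have h := hY i
    have e : pY A B i = (pY A' B' i).map w.integer.subtype := by rw [h]; rfl
    rw [e, coeff_map]
    exact ((pY A' B' i).coeff k).2
  · have e : p3 A B = (p3 A' B').map w.integer.subtype := by rw [h3]; rfl
    rw [e, coeff_map]
    exact ((p3 A' B').coeff k).2

theorem GB10_disc (a b c : L) (hsum : a + b + c = 0) (hab : a ≠ b) (hac : a ≠ c) (hbc : b ≠ c) :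
    4 * (a * b + a * c + b * c) ^ 3 + 27 * (-(a * b * c)) ^ 2 ≠ 0 := by
  have hc : c = -a - b := by linear_combination hsum
  have h : 4 * (a * b + a * c + b * c) ^ 3 + 27 * (-(a * b * c)) ^ 2 =
      -((a - b) * (a - c) * (b - c)) ^ 2 := by
    rw [hc]; ring
  rw [h, neg_ne_zero]
  exact pow_ne_zero _ (mul_ne_zero (mul_ne_zero (sub_ne_zero.2 hab) (sub_ne_zero.2 hac))
    (sub_ne_zero.2 hbc))

theorem GB10_ne_of_root {p q : L[X]} (h : IsCoprime p q) {x y : L} (hp : p.eval x = 0)
    (hq : q.eval y = 0) : y ≠ x := by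
  rintro rfl
  obtain ⟨u, v, huv⟩ := h
  have := congrArg (eval y) huv
  rw [eval_add, eval_mul, eval_mul, hp, hq, eval_one] at this
  simp at this

/-- GB10: sizes of the roots. -/
theorem root_int (a b c : L) (hsum : a + b + c = 0) (hab : a ≠ b) (hac : a ≠ c) (hbc : b ≠ c)
    (hs : ord w (c - b) = ord w (c - a)) (ht : ord w (c - a) ≤ ord w (b - a)) (x : L)
    (h : (∃ i, (pY (a * b + a * c + b * c) (-(a * b * c)) i).eval x = 0) ∨
      (p3 (a * b + a * c + b * c) (-(a * b * c))).eval x = 0) :
    ord w (c - a) - 2 * ord w (3 : L) ≤ ord w (x - a) ∧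
    ord w (c - a) - 2 * ord w (3 : L) ≤ ord w (x - b) ∧
    ord w (c - a) - 2 * ord w (3 : L) ≤ ord w (x - c) := by
  have hD := GB10_disc a b c hsum hab hac hbc
  set A := a * b + a * c + b * c with hAdef
  set B := -(a * b * c) with hBdef
  have d1 : c - a ≠ 0 := sub_ne_zero.2 hac.symm
  have d2 : b - a ≠ 0 := sub_ne_zero.2 hab.symm
  have d3 : c - b ≠ 0 := sub_ne_zero.2 hbc.symm
  have three : (3 : L) ≠ 0 := three_ne_zero
  have w3 : w (3 : L) ≤ 1 := by simpa using natCast_le_one w 3
  have wcb : w (c - b) ≤ w (c - a) := GB10_le_of_ord w d3 d1 hs.ge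
  have wba : w (b - a) ≤ w (c - a) := GB10_le_of_ord w d2 d1 ht
  have wa : w (3 * a) ≤ w (c - a) := by
    have e : 3 * a = -(b - a) + -(c - a) := by linear_combination hsum
    rw [e]
    exact Valuation.map_add_le _ (by rw [Valuation.map_neg]; exact wba) (by rw [Valuation.map_neg])
  have wb : w (3 * b) ≤ w (c - a) := by
    have e : 3 * b = (b - a) + -(c - b) := by linear_combination hsum
    rw [e]
    exact Valuation.map_add_le _ wba (by rw [Valuation.map_neg]; exact wcb)
  have wc : w (3 * c) ≤ w (c - a) := by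
    have e : 3 * c = (c - a) + (c - b) := by linear_combination hsum
    rw [e]
    exact Valuation.map_add_le _ le_rfl wcb
  -- normalisation
  set μ := (c - a) / 3 with hμdef
  have hμ : μ ≠ 0 := div_ne_zero d1 three
  have hint : ∀ y : L, w (3 * y) ≤ w (c - a) → w (y / μ) ≤ 1 := by
    intro y hy
    have e : y / μ = 3 * y / (c - a) := by rw [hμdef]; field_simp
    rw [e, map_div₀]
    exact div_le_one_of_le₀ hy zero_le'
  set a' := a / μ with ha'
  set b' := b / μ with hb'
  set c' := c / μ with hc'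
  have ia := hint a wa
  have ib := hint b wb
  have ic := hint c wc
  set A' := a' * b' + a' * c' + b' * c' with hA'
  set B' := -(a' * b' * c') with hB'
  have iA : w A' ≤ 1 := by
    refine Valuation.map_add_le _ (Valuation.map_add_le _ ?_ ?_) ?_ <;> rw [map_mul]
    · exact mul_le_one' ia ib
    · exact mul_le_one' ia ic
    · exact mul_le_one' ib ic
  have iB : w B' ≤ 1 := by
    rw [hB', Valuation.map_neg, map_mul, map_mul]
    exact mul_le_one' (mul_le_one' ia ib) ic
  have eA : μ ^ 2 * A' = A := by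
    rw [hA', ha', hb', hc', hAdef]; field_simp
  have eB : μ ^ 3 * B' = B := by
    rw [hB', ha', hb', hc', hBdef]; field_simp
  -- integrality of the normalised root
  have hroot : w (3 : L) * w (x / μ) ≤ 1 := by
    rcases h with ⟨i, hi⟩ | h3
    · have hs := congrArg (eval (x / μ)) (pY_scale A' B' μ hμ i)
      rw [eval_comp, eval_mul, eval_C, eval_X, eA, eB, mul_div_cancel₀ _ hμ, hi, eval_mul,
        eval_C] at hs
      have h0 : (pY A' B' i).eval (x / μ) = 0 := by
        rcases mul_eq_zero.1 hs.symm with h | h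
        · exact absurd h (pow_ne_zero _ hμ)
        · exact h
      obtain ⟨hm, hn⟩ := pY_monic A' B' i
      have hlead : (pY A' B' i).coeff (6 * 2 ^ i) = 1 := by rw [← hn]; exact hm
      have := root_bound (w := w) (pY A' B' i) (6 * 2 ^ i) hn.le (by rw [hlead]; exact one_ne_zero)
        1 le_rfl (by
          intro k
          rw [hlead, map_one, one_mul]
          exact (GB10_int w A' B' iA iB k).1 i) (x / μ) h0
      rw [one_mul] at this
      exact mul_le_one' w3 this
    · have hs := congrArg (eval (x / μ)) (p3_scale A' B' μ)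
      rw [eval_comp, eval_mul, eval_C, eval_X, eA, eB, mul_div_cancel₀ _ hμ, h3, eval_mul,
        eval_C] at hs
      have h0 : (p3 A' B').eval (x / μ) = 0 := by
        rcases mul_eq_zero.1 hs.symm with h | h
        · exact absurd h (pow_ne_zero _ hμ)
        · exact h
      obtain ⟨hn, hm⟩ := p3_natDegree A' B' three
      have hlead : (p3 A' B').coeff 4 = 3 := by rw [← hm, leadingCoeff, hn]
      exact root_bound (w := w) (p3 A' B') 4 hn.le (by rw [hlead]; exact three) (w 3) w3 (by
          intro k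
          rw [hlead]
          exact mul_le_of_le_one_right' (GB10_int w A' B' iA iB k).2) (x / μ) h0
  have wx : w (9 * x) ≤ w (c - a) := by
    have e : 9 * x = 3 * (x / μ) * (c - a) := by
      rw [hμdef]; field_simp; ring
    rw [e, map_mul, map_mul]
    exact mul_le_of_le_one_left' hroot
  have w9 : ∀ y : L, w (3 * y) ≤ w (c - a) → w (9 * y) ≤ w (c - a) := by
    intro y hy
    have e : 9 * y = 3 * (3 * y) := by ring
    rw [e, map_mul]
    exact (mul_le_of_le_one_left' w3).trans hy
  have key : ∀ y : L, w (3 * y) ≤ w (c - a) → x ≠ y →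
      ord w (c - a) - 2 * ord w (3 : L) ≤ ord w (x - y) := by
    intro y hy hxy
    have hxy0 : x - y ≠ 0 := sub_ne_zero.2 hxy
    have h1 : w (9 * (x - y)) ≤ w (c - a) := by
      rw [mul_sub]
      exact Valuation.map_sub_le _ wx (w9 y hy)
    have h9 : (9 : L) ≠ 0 := by norm_num
    have h2 := GB10_ord_le w (mul_ne_zero h9 hxy0) d1 h1
    rw [ord_mul h9 hxy0, show (9 : L) = 3 * 3 by norm_num, ord_mul three three] at h2
    linarith
  -- the root is none of the points of order two
  have hpf : ∀ y : L, (y - a) * (y - b) * (y - c) = 0 → (pf A B).eval y = 0 := by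
    intro y hy
    rw [hAdef, hBdef, pf_eval a b c y hsum]
    exact hy
  have hne : ∀ y : L, (y - a) * (y - b) * (y - c) = 0 → x ≠ y := by
    intro y hy
    rcases h with ⟨i, hi⟩ | h3
    · exact GB10_ne_of_root (pY_spec A B two_ne_zero three hD i).2.1 (hpf y hy) hi
    · exact GB10_ne_of_root (base A B two_ne_zero three hD).2.2.2.1 (hpf y hy) h3
  exact ⟨key a wa (hne a (by simp)), key b wb (hne b (by simp)), key c wc (hne c (by simp))⟩

end loc

end Pool.Agent.Lib.MP_ca2859_nt.GR.GB
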