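import Pool.Agent.Lib.MP_ca2859_nt.GR.GB.Defs

/-!
# GB11: some root of `pY i` is far from `a`; points of order three far from and close to `a`
-/

set_option autoImplicit false

open Polynomial WithZero IsDedekindDomain NumberField

namespace Pool.Agent.Lib.MP_ca2859_nt.GR.GB

section top
variable {R : Type*} [CommRing R] [Nontrivial R] (A B : R)

private lemma GB11_pP : (pP A B).Monic ∧ (pP A B).natDegree = 4 ∧ (pP A B).coeff 3 = 0 := by
  have h4 : (pP A B).coeff 4 = 1 := by
    simp only [pP, coeff_sub, coeff_add, coeff_C_mul, coeff_X_pow, coeff_X, coeff_C]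
    norm_num
  have h3 : (pP A B).coeff 3 = 0 := by
    simp only [pP, coeff_sub, coeff_add, coeff_C_mul, coeff_X_pow, coeff_X, coeff_C]
    norm_num
  have hd : (pP A B).natDegree ≤ 4 := by
    unfold pP
    compute_degree
  exact ⟨monic_of_natDegree_le_of_coeff_eq_one 4 hd h4,
    natDegree_eq_of_le_of_coeff_ne_zero hd (by rw [h4]; exact one_ne_zero), h3⟩

private lemma GB11_pT : (pT A B).Monic ∧ (pT A B).natDegree = 6 ∧ (pT A B).coeff 5 = 0 := by
  have h4 : (pT A B).coeff 6 = 1 := by
    simp only [pT, coeff_sub, coeff_add, coeff_C_mul, coeff_X_pow, coeff_X, coeff_C]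
    norm_num
  have h3 : (pT A B).coeff 5 = 0 := by
    simp only [pT, coeff_sub, coeff_add, coeff_C_mul, coeff_X_pow, coeff_X, coeff_C]
    norm_num
  have hd : (pT A B).natDegree ≤ 6 := by
    unfold pT
    compute_degree
  exact ⟨monic_of_natDegree_le_of_coeff_eq_one 6 hd h4,
    natDegree_eq_of_le_of_coeff_ne_zero hd (by rw [h4]; exact one_ne_zero), h3⟩

private lemma GB11_p6 : (p6 A B).Monic ∧ (p6 A B).natDegree = 12 ∧ (p6 A B).coeff 11 = 0 := by
  set S : R[X] := 32 * ((2 * X ^ 3 * (C A * X + C B) + (C A * X + C B) ^ 2) *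
      (X ^ 6 + (5 * C A * X ^ 4 + 20 * C B * X ^ 3 - 5 * C A ^ 2 * X ^ 2 - 4 * C A * C B * X -
        (8 * C B ^ 2 + C A ^ 3))) + X ^ 6 * (5 * C A * X ^ 4 + 20 * C B * X ^ 3 -
        5 * C A ^ 2 * X ^ 2 - 4 * C A * C B * X - (8 * C B ^ 2 + C A ^ 3))) -
      (27 * X ^ 8 * (6 * C A * X ^ 2 + 12 * C B * X - C A ^ 2) +
        9 * X ^ 4 * (6 * C A * X ^ 2 + 12 * C B * X - C A ^ 2) ^ 2 +
        (6 * C A * X ^ 2 + 12 * C B * X - C A ^ 2) ^ 3) -
      4 * (2 * X ^ 6 * (5 * C A * X ^ 4 + 20 * C B * X ^ 3 - 5 * C A ^ 2 * X ^ 2 -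
        4 * C A * C B * X - (8 * C B ^ 2 + C A ^ 3)) + (5 * C A * X ^ 4 + 20 * C B * X ^ 3 -
        5 * C A ^ 2 * X ^ 2 - 4 * C A * C B * X - (8 * C B ^ 2 + C A ^ 3)) ^ 2) with hS
  have hSd : S.natDegree ≤ 10 := by
    rw [hS]
    compute_degree
  have e : p6 A B = X ^ 12 + S := by
    rw [hS]
    unfold p6 pf pT p3
    simp only [map_mul, map_pow, map_ofNat, map_add]
    ring
  have h4 : (p6 A B).coeff 12 = 1 := by
    rw [e, coeff_add, coeff_X_pow_self, coeff_eq_zero_of_natDegree_lt (by omega), add_zero]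
  have h3 : (p6 A B).coeff 11 = 0 := by
    rw [e, coeff_add, coeff_X_pow, coeff_eq_zero_of_natDegree_lt (p := S) (by omega)]
    simp
  have hd : (p6 A B).natDegree ≤ 12 := by
    rw [e]
    refine (natDegree_add_le _ _).trans (max_le ?_ (by omega))
    exact natDegree_X_pow_le _
  exact ⟨monic_of_natDegree_le_of_coeff_eq_one 12 hd h4,
    natDegree_eq_of_le_of_coeff_ne_zero hd (by rw [h4]; exact one_ne_zero), h3⟩

private lemma GB11_term (n i : ℕ) (c : R) :
    (C c * pP A B ^ i * (C 4 * pf A B) ^ (n - i)).natDegree ≤ 4 * i + 3 * (n - i) := by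
  have h1 : (pP A B ^ i).natDegree ≤ 4 * i := by
    refine natDegree_pow_le.trans ?_
    rw [(GB11_pP A B).2.1, mul_comm]
  have h2 : (C (4 : R) * pf A B).natDegree ≤ 3 := by
    unfold pf
    compute_degree
  have h3 : ((C (4 : R) * pf A B) ^ (n - i)).natDegree ≤ 3 * (n - i) := by
    refine natDegree_pow_le.trans ?_
    rw [mul_comm]
    exact Nat.mul_le_mul_right _ h2
  refine natDegree_mul_le.trans (add_le_add ?_ h3)
  exact (natDegree_C_mul_le _ _).trans h1

private lemma GB11_dbl (n : ℕ) (hn : 1 ≤ n) (G : R[X]) (hG : G.Monic) (hd : G.natDegree = n)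
    (hc : G.coeff (n - 1) = 0) : (dbl A B n G).Monic ∧ (dbl A B n G).natDegree = 4 * n ∧
      (dbl A B n G).coeff (4 * n - 1) = 0 := by
  obtain ⟨p1, p2, p3⟩ := GB11_pP A B
  have hGn : G.coeff n = 1 := by
    rw [← hd]
    exact hG
  have hle : (dbl A B n G).natDegree ≤ 4 * n := by
    unfold dbl
    apply natDegree_sum_le_of_forall_le
    intro i hi
    rw [Finset.mem_range] at hi
    refine (GB11_term A B n i _).trans ?_
    omega
  have hpn : (pP A B ^ n).natDegree = 4 * n := by
    rw [p1.natDegree_pow, p2, mul_comm]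
  have hpc : (pP A B ^ n).coeff (4 * n) = 1 := by
    rw [← hpn]
    exact p1.pow n
  have hpc' : (pP A B ^ n).coeff (4 * n - 1) = 0 := by
    have h := p1.nextCoeff_pow n
    rw [nextCoeff_of_natDegree_pos (by rw [hpn]; omega), hpn,
      nextCoeff_of_natDegree_pos (by rw [p2]; omega), p2] at h
    rw [h, p3, smul_zero]
  have htop : (dbl A B n G).coeff (4 * n) = 1 := by
    unfold dbl
    rw [finsetSum_coeff, Finset.sum_range_succ, Finset.sum_eq_zero, zero_add]
    · rw [hGn, Nat.sub_self, pow_zero, mul_one, C_1, one_mul, hpc]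
    · intro i hi
      rw [Finset.mem_range] at hi
      apply coeff_eq_zero_of_natDegree_lt
      refine lt_of_le_of_lt (GB11_term A B n i _) ?_
      omega
  have hnext : (dbl A B n G).coeff (4 * n - 1) = 0 := by
    unfold dbl
    rw [finsetSum_coeff, Finset.sum_range_succ, Finset.sum_eq_zero, zero_add]
    · rw [hGn, Nat.sub_self, pow_zero, mul_one, C_1, one_mul, hpc']
    · intro i hi
      rw [Finset.mem_range] at hi
      by_cases hi1 : i = n - 1
      · rw [hi1, hc, C_0, zero_mul, zero_mul, coeff_zero]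
      · apply coeff_eq_zero_of_natDegree_lt
        refine lt_of_le_of_lt (GB11_term A B n i _) ?_
        omega
  exact ⟨monic_of_natDegree_le_of_coeff_eq_one _ hle htop,
    natDegree_eq_of_le_of_coeff_ne_zero hle (by rw [htop]; exact one_ne_zero), hnext⟩

private lemma GB11_pY (i : ℕ) : (pY A B i).Monic ∧ (pY A B i).natDegree = 6 * 2 ^ i ∧
    (pY A B i).coeff (6 * 2 ^ i - 1) = 0 := by
  induction i using Nat.strong_induction_on with
  | _ i ih =>
    match i, ih with
    | 0, _ => simpa [pY] using GB11_pT A B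
    | 1, _ => simpa [pY] using GB11_p6 A B
    | (i + 2), ih =>
      obtain ⟨h1, h2, h3⟩ := ih i (by omega)
      have h := GB11_dbl A B (6 * 2 ^ i) (by have := Nat.one_le_two_pow (n := i); omega)
        (pY A B i) h1 h2 h3
      have e : 4 * (6 * 2 ^ i) = 6 * 2 ^ (i + 2) := by
        rw [pow_add]
        ring
      rw [e] at h
      exact h

end top

section loc
variable {L : Type*} [Field L] (w : Valuation L ℤᵐ⁰)

private lemma GB11_three : w (3 : L) ≤ 1 := by
  have h1 : w (1 : L) ≤ 1 := by rw [map_one]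
  have h2 : w ((1 : L) + 1) ≤ 1 := Valuation.map_add_le w h1 h1
  have h3 : w ((1 : L) + 1 + 1) ≤ 1 := Valuation.map_add_le w h2 h1
  have e : (3 : L) = 1 + 1 + 1 := by norm_num
  rw [e]
  exact h3

/-- `3 a` has the valuation of `a - c` -/
private lemma GB11_3a (a b c : L) (hsum : a + b + c = 0) (hab : a ≠ b) (hac : a ≠ c)
    (ht : ord w (c - a) < ord w (b - a)) : w (3 * a) = exp (-(ord w (c - a))) := by
  have e : 3 * a = (a - c) + (a - b) := by
    linear_combination hsum
  have h1 : w (a - c) = exp (-(ord w (c - a))) := by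
    rw [Valuation.map_sub_swap]
    exact w_eq_exp (sub_ne_zero.2 hac.symm)
  have h2 : w (a - b) = exp (-(ord w (b - a))) := by
    rw [Valuation.map_sub_swap]
    exact w_eq_exp (sub_ne_zero.2 hab.symm)
  have h3 : w (a - b) < w (a - c) := by
    rw [h1, h2, exp_lt_exp]
    omega
  rw [e, Valuation.map_add_eq_of_lt_left w h3, h1]

private lemma GB11_lt (x : L) (K : ℤ) (h : ¬ ord w x ≤ K) : w x < exp (-K) := by
  rcases eq_or_ne x 0 with rfl | hx
  · rw [map_zero]
    exact exp_pos
  · rw [w_eq_exp hx, exp_lt_exp]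
    omega

private lemma GB11_msum (s : Multiset L) (g : WithZero (Multiplicative ℤ)) (hg : g ≠ 0)
    (h : ∀ x ∈ s, w x < g) : w s.sum < g := by
  induction s using Multiset.induction_on with
  | empty =>
    rw [Multiset.sum_zero, map_zero]
    exact zero_lt_iff.2 hg
  | cons x s ih =>
    rw [Multiset.sum_cons]
    apply Valuation.map_add_lt w
    · exact h x (Multiset.mem_cons_self x s)
    · exact ih fun y hy => h y (Multiset.mem_cons_of_mem hy)

private lemma GB11_shift (s : Multiset L) (a : L) :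
    (s.map fun x => x - a).sum = s.sum - (Multiset.card s : L) * a := by
  induction s using Multiset.induction_on with
  | empty => simp
  | cons x s ih =>
    rw [Multiset.map_cons, Multiset.sum_cons, ih, Multiset.sum_cons, Multiset.card_cons]
    push_cast
    ring

/-- a polynomial with all its roots, of vanishing second coefficient -/
private lemma GB11_far (P : L[X]) (n : ℕ) (hn1 : 1 ≤ n) (hP : P ≠ 0) (hn : P.natDegree = n)
    (hc : P.coeff (n - 1) = 0) (hs : P.Splits) (a : L) (K : ℤ)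
    (h : exp (-K) ≤ w ((n : L) * a)) : ∃ x : L, P.eval x = 0 ∧ ord w (x - a) ≤ K := by
  by_contra hcon
  push Not at hcon
  have h1 : P.roots.sum = 0 := by
    have := hs.nextCoeff_eq_neg_sum_roots_mul_leadingCoeff
    rw [nextCoeff_of_natDegree_pos (by omega), hn, hc] at this
    have hl : P.leadingCoeff ≠ 0 := leadingCoeff_ne_zero.2 hP
    have h2 : P.leadingCoeff * P.roots.sum = 0 := by
      linear_combination this
    exact (mul_eq_zero.1 h2).resolve_left hl
  have h2 : Multiset.card P.roots = n := by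
    rw [← hn, hs.natDegree_eq_card_roots]
  have h3 := GB11_shift P.roots a
  rw [h1, h2, zero_sub] at h3
  have h4 : w (P.roots.map fun x => x - a).sum < exp (-K) := by
    apply GB11_msum w _ _ (exp_ne_zero)
    intro y hy
    rw [Multiset.mem_map] at hy
    obtain ⟨x, hx, rfl⟩ := hy
    apply GB11_lt
    have := hcon x ((mem_roots hP).1 hx)
    omega
  rw [h3, Valuation.map_neg] at h4
  exact absurd h (not_le.2 h4)

variable [CharZero L]

/-- GB11: some root is far from `a`. -/
theorem nonnode (a b c : L) (hsum : a + b + c = 0) (hab : a ≠ b) (hac : a ≠ c) (hbc : b ≠ c)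
    (hs : ord w (c - b) = ord w (c - a)) (ht : ord w (c - a) < ord w (b - a)) (i : ℕ)
    (hspY : (pY (a * b + a * c + b * c) (-(a * b * c)) i).Splits) :
    ∃ x : L, (pY (a * b + a * c + b * c) (-(a * b * c)) i).eval x = 0 ∧
      ord w (x - a) ≤ ord w (c - a) + (i + 1) * ord w (2 : L) := by
  obtain ⟨h1, h2, h3⟩ := GB11_pY (a * b + a * c + b * c) (-(a * b * c)) i
  have hp : 1 ≤ 6 * 2 ^ i := by
    have := Nat.one_le_two_pow (n := i)
    omega
  refine GB11_far w _ (6 * 2 ^ i) hp h1.ne_zero h2 h3 hspY a _ ?_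
  have e : ((6 * 2 ^ i : ℕ) : L) * a = 2 ^ (i + 1) * (3 * a) := by
    push_cast
    ring
  rw [e, map_mul, map_pow, GB11_3a w a b c hsum hab hac ht, w_eq_exp (two_ne_zero : (2 : L) ≠ 0),
    ← exp_nsmul, ← exp_add, exp_le_exp]
  rw [nsmul_eq_mul]
  push_cast
  linarith

private lemma GB11_p3coeff (A B : L) : (p3 A B).natDegree = 4 ∧ (p3 A B).leadingCoeff = 3 ∧
    (p3 A B).coeff 3 = 0 ∧ p3 A B ≠ 0 := by
  have h30 : (3 : L) ≠ 0 := by norm_num
  have h4 : (p3 A B).coeff 4 = 3 := by
    simp only [p3, coeff_sub, coeff_add, coeff_C_mul, coeff_X_pow, coeff_X, coeff_C]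
    norm_num
  have h3 : (p3 A B).coeff 3 = 0 := by
    simp only [p3, coeff_sub, coeff_add, coeff_C_mul, coeff_X_pow, coeff_X, coeff_C]
    norm_num
  have hd : (p3 A B).natDegree ≤ 4 := by
    unfold p3
    compute_degree
  have hd4 := natDegree_eq_of_le_of_coeff_ne_zero hd (by rw [h4]; exact h30)
  refine ⟨hd4, ?_, h3, ?_⟩
  · rw [leadingCoeff, hd4, h4]
  · intro h0
    rw [h0, coeff_zero] at h4
    exact h30 h4.symm

/-- some point of order three is far from `a` -/
theorem nonnode3 (a b c : L) (hsum : a + b + c = 0) (hab : a ≠ b) (hac : a ≠ c) (hbc : b ≠ c)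
    (hs : ord w (c - b) = ord w (c - a)) (ht : ord w (c - a) < ord w (b - a))
    (hsp : (p3 (a * b + a * c + b * c) (-(a * b * c))).Splits) :
    ∃ x : L, (p3 (a * b + a * c + b * c) (-(a * b * c))).eval x = 0 ∧
      ord w (x - a) ≤ ord w (c - a) + 2 * ord w (2 : L) := by
  obtain ⟨h1, h2, h3, h4⟩ := GB11_p3coeff (a * b + a * c + b * c) (-(a * b * c))
  refine GB11_far w _ 4 (by norm_num) h4 h1 h3 hsp a _ ?_
  have e1 : w (3 * a) ≤ w a := by
    rw [map_mul]
    calc w 3 * w a ≤ 1 * w a := mul_le_mul_left (GB11_three w) (w a)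
      _ = w a := one_mul _
  have e2 : ((4 : ℕ) : L) * a = 2 ^ 2 * a := by
    push_cast
    ring
  rw [e2, map_mul, map_pow]
  calc exp (-(ord w (c - a) + 2 * ord w (2 : L)))
      = w 2 ^ 2 * w (3 * a) := by
        rw [GB11_3a w a b c hsum hab hac ht, w_eq_exp (two_ne_zero : (2 : L) ≠ 0),
          ← exp_nsmul, ← exp_add]
        congr 1
        rw [nsmul_eq_mul]
        push_cast
        ring
    _ ≤ w 2 ^ 2 * w a := mul_le_mul_right e1 (w 2 ^ 2)

/-- some point of order three is close to `a` -/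
theorem node3 (a b c : L) (hsum : a + b + c = 0) (hab : a ≠ b) (hac : a ≠ c) (hbc : b ≠ c)
    (hs : ord w (c - b) = ord w (c - a)) (ht : ord w (c - a) < ord w (b - a))
    (hsp : (p3 (a * b + a * c + b * c) (-(a * b * c))).Splits) :
    ∃ y : L, (p3 (a * b + a * c + b * c) (-(a * b * c))).eval y = 0 ∧
      ord w (b - a) - ord w (c - a) - ord w (3 : L) ≤ 2 * (ord w (y - a) - ord w (c - a)) := by
  obtain ⟨h1, h2, h3, h4⟩ := GB11_p3coeff (a * b + a * c + b * c) (-(a * b * c))
  have h30 : (3 : L) ≠ 0 := by norm_num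
  have hord3 : 0 ≤ ord w (3 : L) := ord_nonneg (GB11_three w)
  have hcard : Multiset.card (p3 (a * b + a * c + b * c) (-(a * b * c))).roots = 4 := by
    rw [← h1, hsp.natDegree_eq_card_roots]
  obtain ⟨x1, x2, x3, x4, hx⟩ := Multiset.card_eq_four.1 hcard
  have hev := hsp.eval_eq_prod_roots a
  rw [hx, h2] at hev
  simp only [Multiset.insert_eq_cons, Multiset.map_cons, Multiset.map_singleton,
    Multiset.prod_cons, Multiset.prod_singleton] at hev
  have hval : (p3 (a * b + a * c + b * c) (-(a * b * c))).eval a = -((b - a) * (c - a)) ^ 2 := by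
    have hc : c = -a - b := by linear_combination hsum
    subst hc
    simp [p3]
    ring
  rw [hval] at hev
  have hba : b - a ≠ 0 := sub_ne_zero.2 hab.symm
  have hca : c - a ≠ 0 := sub_ne_zero.2 hac.symm
  have hne : -((b - a) * (c - a)) ^ 2 ≠ 0 := neg_ne_zero.2 (pow_ne_zero _ (mul_ne_zero hba hca))
  rw [hev] at hne
  have n0 : (a - x1) * ((a - x2) * ((a - x3) * (a - x4))) ≠ 0 := right_ne_zero_of_mul hne
  have n1 : a - x1 ≠ 0 := left_ne_zero_of_mul n0
  have n0' := right_ne_zero_of_mul n0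
  have n2 : a - x2 ≠ 0 := left_ne_zero_of_mul n0'
  have n0'' := right_ne_zero_of_mul n0'
  have n3 : a - x3 ≠ 0 := left_ne_zero_of_mul n0''
  have n4 : a - x4 ≠ 0 := right_ne_zero_of_mul n0''
  have hordeq : 2 * (ord w (b - a) + ord w (c - a)) =
      ord w 3 + (ord w (a - x1) + (ord w (a - x2) + (ord w (a - x3) + ord w (a - x4)))) := by
    have e1 : ord w (-((b - a) * (c - a)) ^ 2) = 2 * (ord w (b - a) + ord w (c - a)) := by
      rw [ord, Valuation.map_neg, ← ord, ord_pow, ord_mul hba hca]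
      push_cast
      ring
    rw [← e1, hev, ord_mul h30 n0, ord_mul n1 n0', ord_mul n2 n0'', ord_mul n3 n4]
  have hsw : ∀ x : L, ord w (x - a) = ord w (a - x) := by
    intro x
    rw [ord, ord, Valuation.map_sub_swap]
  have hroot : ∀ x : L, x ∈ (p3 (a * b + a * c + b * c) (-(a * b * c))).roots →
      (p3 (a * b + a * c + b * c) (-(a * b * c))).eval x = 0 := by
    intro x hx
    exact (mem_roots h4).1 hx
  by_contra hcon
  push Not at hcon
  have c1 := hcon x1 (hroot x1 (by rw [hx]; simp))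
  have c2 := hcon x2 (hroot x2 (by rw [hx]; simp))
  have c3 := hcon x3 (hroot x3 (by rw [hx]; simp))
  have c4 := hcon x4 (hroot x4 (by rw [hx]; simp))
  rw [hsw] at c1 c2 c3 c4
  omega

end loc

end Pool.Agent.Lib.MP_ca2859_nt.GR.GB
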