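import Mathlib
import Pool.Agent.Lib.MP_ca2859_nt.GR.GB.Defs
import Pool.Agent.Lib.MP_ca2859_nt.GR.GB.GB9

/-!
# Cross ratios of an orbit of the group of points of order two
-/

set_option autoImplicit false

open Polynomial WithZero IsDedekindDomain NumberField

namespace Pool.Agent.Lib.MP_ca2859_nt.GR.GB

section loc
variable {L : Type*} [Field L] [CharZero L] (w : Valuation L ℤᵐ⁰)

omit [CharZero L] in
theorem GB12_add {x y : L} (h : x + y ≠ 0) : min (ord w x) (ord w y) ≤ ord w (x + y) := by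
  rcases eq_or_ne x 0 with rfl | hx
  · rw [zero_add]; exact min_le_right _ _
  rcases eq_or_ne y 0 with rfl | hy
  · rw [add_zero]; exact min_le_left _ _
  have h1 := w.map_add x y
  have h2 : w (x + y) ≤ exp (-(min (ord w x) (ord w y))) := by
    refine h1.trans (max_le ?_ ?_)
    · rw [w_eq_exp hx, exp_le_exp]; exact neg_le_neg (min_le_left _ _)
    · rw [w_eq_exp hy, exp_le_exp]; exact neg_le_neg (min_le_right _ _)
  rw [le_exp_iff h, neg_neg] at h2
  exact h2

omit [CharZero L] in
theorem GB12_neg (x : L) : ord w (-x) = ord w x := by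
  simp [ord, Valuation.map_neg]

omit [CharZero L] in
theorem GB12_add_eq {x y : L} (hx : x ≠ 0) (h : ord w x < ord w y) :
    x + y ≠ 0 ∧ ord w (x + y) = ord w x := by
  rcases eq_or_ne y 0 with rfl | hy
  · rw [add_zero]; exact ⟨hx, rfl⟩
  have h0 : x + y ≠ 0 := by
    intro h0
    have : y = -x := by linear_combination h0
    rw [this, GB12_neg] at h
    exact lt_irrefl _ h
  refine ⟨h0, le_antisymm ?_ ?_⟩
  · have h1 : (x + y) + (-y) ≠ 0 := by simpa using hx
    have h2 := GB12_add w h1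
    rw [add_neg_cancel_right, GB12_neg] at h2
    rcases min_le_iff.1 h2 with h3 | h3
    · exact h3
    · omega
  · have h1 := GB12_add w h0
    rw [min_eq_left h.le] at h1
    exact h1

omit [CharZero L] in
theorem GB12_sub_eq {x y : L} (hx : x ≠ 0) (h : ord w x < ord w y) :
    x - y ≠ 0 ∧ ord w (x - y) = ord w x := by
  rw [sub_eq_add_neg]
  exact GB12_add_eq w hx (by rwa [GB12_neg])

/-- all cross ratios of the elements of `S` are bounded -/
def CrossB (S : Set L) (E : ℤ) : Prop :=
  ∀ p ∈ S, ∀ q ∈ S, ∀ r ∈ S, ∀ t ∈ S, p ≠ q → p ≠ r → p ≠ t → q ≠ r → q ≠ t → r ≠ t →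
    2 * ord w ((p - q) * (r - t)) ≤ 2 * ord w ((p - r) * (q - t)) + E

/-- GB12: the case of an orbit of the group of points of order two. -/
theorem locD (a b c x : L) (hab : a ≠ b) (hac : a ≠ c) (hbc : b ≠ c) (hxa : x ≠ a) (hxb : x ≠ b)
    (hxc : x ≠ c) (h1 : NN a b c x ≠ 0) (h2 : NN b a c x ≠ 0) (h3 : NN c a b x ≠ 0)
    (hs : ord w (c - b) = ord w (c - a)) (η E : ℤ) (hη : 0 ≤ η) (hE : 0 ≤ E)
    (ht : ord w (c - a) + 20 * η < ord w (b - a))
    (hlow : ord w (c - a) - η ≤ ord w (x - a)) (hlow' : ord w (c - a) - η ≤ ord w (x - c))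
    (hup : ord w (x - a) ≤ ord w (c - a) + η) (S : Set L) (hS : CrossB w S E) (hx : x ∈ S)
    (hra : rr a b c x ∈ S) (hrb : rr b a c x ∈ S) (hrc : rr c a b x ∈ S) :
    2 * (ord w (b - a) - ord w (c - a)) ≤ E + 40 * η := by
  have ua : x - a ≠ 0 := sub_ne_zero.2 hxa
  have ub : x - b ≠ 0 := sub_ne_zero.2 hxb
  have uc : x - c ≠ 0 := sub_ne_zero.2 hxc
  have dab : a - b ≠ 0 := sub_ne_zero.2 hab
  have dba : b - a ≠ 0 := sub_ne_zero.2 hab.symm
  have dca : c - a ≠ 0 := sub_ne_zero.2 hac.symm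
  have dcb : c - b ≠ 0 := sub_ne_zero.2 hbc.symm
  have oab : ord w (a - b) = ord w (b - a) := by rw [← GB12_neg w (b - a), neg_sub]
  -- the size of `x - b`
  have ob : ord w (x - b) = ord w (x - a) := by
    have := (GB12_sub_eq w (x := x - a) (y := b - a) ua (by omega)).2
    rwa [show x - a - (b - a) = x - b by ring] at this
  -- the size of `N_a`
  have oN : ord w (NN a b c x) = 2 * ord w (x - a) := by
    have e : NN a b c x = (x - a) ^ 2 - (b - a) * (c - a) := by unfold NN; ring
    have e1 : ord w ((x - a) ^ 2) = 2 * ord w (x - a) := by rw [ord_pow]; norm_num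
    have e2 : ord w ((b - a) * (c - a)) = ord w (b - a) + ord w (c - a) := ord_mul dba dca
    rw [e, (GB12_sub_eq w (pow_ne_zero 2 ua) (by rw [e1, e2]; omega)).2, e1]
  -- the size of `N_c`
  have oNc : 2 * ord w (c - a) - 2 * η ≤ ord w (NN c a b x) := by
    have p1 : ord w ((x - c) * (x - a)) = ord w (x - c) + ord w (x - a) := ord_mul uc ua
    have p2 : ord w ((x - c) * (x - b)) = ord w (x - c) + ord w (x - b) := ord_mul uc ub
    have p3 : ord w (-((x - a) * (x - b))) = ord w (x - a) + ord w (x - b) := by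
      rw [GB12_neg, ord_mul ua ub]
    have e : NN c a b x = (x - c) * (x - a) + (x - c) * (x - b) + -((x - a) * (x - b)) := by
      unfold NN; ring
    rw [e] at h3 ⊢
    have q1 := GB12_add w h3
    rcases eq_or_ne ((x - c) * (x - a) + (x - c) * (x - b)) 0 with h0 | h0
    · rw [h0, zero_add, p3]
      omega
    · have q2 := GB12_add w h0
      rw [p1, p2] at q2
      rw [p3] at q1
      rcases min_le_iff.1 q1 with h4 | h4 <;> rcases min_le_iff.1 q2 with h5 | h5 <;> omega
  -- the four points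
  have f1 : x - rr c a b x = NN c a b x / (x - c) := rr_sub_self c a b x hxc
  have f2 : rr a b c x - rr b a c x = (a - b) * NN c a b x / ((x - a) * (x - b)) :=
    rr_sub_rr a b c x hxa hxb
  have f3 : x - rr a b c x = NN a b c x / (x - a) := rr_sub_self a b c x hxa
  have f4 : rr c a b x - rr b a c x = (c - b) * NN a b c x / ((x - c) * (x - b)) := by
    have h := rr_sub_rr c b a x hxc hxb
    have g1 : rr c b a x = rr c a b x := by unfold rr; ring
    have g2 : rr b c a x = rr b a c x := by unfold rr; ring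
    have g3 : NN a c b x = NN a b c x := by unfold NN; ring
    rw [g1, g2, g3] at h; exact h
  have f5 : x - rr b a c x = NN b a c x / (x - b) := rr_sub_self b a c x hxb
  have f6 : rr c a b x - rr a b c x = (c - a) * NN b a c x / ((x - c) * (x - a)) := by
    have h := rr_sub_rr c a b x hxc hxa
    have g1 : rr a c b x = rr a b c x := by unfold rr; ring
    have g3 : NN b c a x = NN b a c x := by unfold NN; ring
    rw [g1, g3] at h; exact h
  have n1 : x - rr c a b x ≠ 0 := by rw [f1]; exact div_ne_zero h3 uc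
  have n2 : rr a b c x - rr b a c x ≠ 0 := by
    rw [f2]; exact div_ne_zero (mul_ne_zero dab h3) (mul_ne_zero ua ub)
  have n3 : x - rr a b c x ≠ 0 := by rw [f3]; exact div_ne_zero h1 ua
  have n4 : rr c a b x - rr b a c x ≠ 0 := by
    rw [f4]; exact div_ne_zero (mul_ne_zero dcb h1) (mul_ne_zero uc ub)
  have n5 : x - rr b a c x ≠ 0 := by rw [f5]; exact div_ne_zero h2 ub
  have n6 : rr c a b x - rr a b c x ≠ 0 := by
    rw [f6]; exact div_ne_zero (mul_ne_zero dca h2) (mul_ne_zero uc ua)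
  have key := hS x hx _ hrc _ hra _ hrb (sub_ne_zero.1 n1) (sub_ne_zero.1 n3) (sub_ne_zero.1 n5)
    (sub_ne_zero.1 n6) (sub_ne_zero.1 n4) (sub_ne_zero.1 n2)
  rw [ord_mul n1 n2, ord_mul n3 n4, f1, f2, f3, f4, ord_div h3 uc,
    ord_div (mul_ne_zero dab h3) (mul_ne_zero ua ub), ord_mul dab h3, ord_mul ua ub,
    ord_div h1 ua, ord_div (mul_ne_zero dcb h1) (mul_ne_zero uc ub), ord_mul dcb h1,
    ord_mul uc ub, oN, oab, ob, hs] at key
  omega

end loc

end Pool.Agent.Lib.MP_ca2859_nt.GR.GB
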