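import Pool.Agent.Lib.MP_ca2859_nt.GR.GB.GB12

/-!
# The points of order six: a bound from the cross ratios
-/

set_option autoImplicit false

open Polynomial WithZero IsDedekindDomain NumberField

namespace Pool.Agent.Lib.MP_ca2859_nt.GR.GB

section loc
variable {L : Type*} [Field L] {w : Valuation L ℤᵐ⁰}

private theorem GB13_ge {x y : L} {m : ℤ} (h : x + y ≠ 0) (hx : x = 0 ∨ m ≤ ord w x)
    (hy : y = 0 ∨ m ≤ ord w y) : m ≤ ord w (x + y) := by
  have key : ∀ z : L, (z = 0 ∨ m ≤ ord w z) → w z ≤ exp (-m) := by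
    intro z hz
    rcases eq_or_ne z 0 with rfl | h0
    · simp
    · rw [le_exp_iff h0, neg_neg]
      rcases hz with hz | hz
      · exact absurd hz h0
      · exact hz
  have h1 := w.map_add_le (key x hx) (key y hy)
  rwa [le_exp_iff h, neg_neg] at h1

private theorem GB13_eq {x y : L} (hx : x ≠ 0) (hy : y = 0 ∨ ord w x < ord w y) :
    x + y ≠ 0 ∧ ord w (x + y) = ord w x := by
  rcases eq_or_ne y 0 with rfl | h0
  · rw [add_zero]
    exact ⟨hx, rfl⟩
  · have hlt : ord w x < ord w y := hy.resolve_left h0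
    have h1 : w y < w x := by
      rw [w_eq_exp h0, w_eq_exp hx, exp_lt_exp]
      linarith
    have h2 : w (x + y) = w x := Valuation.map_add_eq_of_lt_left w h1
    have h3 : x + y ≠ 0 := by
      intro h
      rw [h, map_zero] at h2
      exact hx ((Valuation.zero_iff w).mp h2.symm)
    exact ⟨h3, by rw [ord, ord, h2]⟩

private theorem GB13_neg (x : L) : ord w (-x) = ord w x := by
  rw [ord, ord, Valuation.map_neg]

private theorem GB13_p3 (A B x : L) :
    (p3 A B).eval x = 3 * x ^ 4 + 6 * A * x ^ 2 + 12 * B * x - A ^ 2 := by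
  simp [p3]

/-- the equation of the points of order three around `c` -/
private theorem GB13_loc (a b c x : L) (hsum : a + b + c = 0)
    (h : (p3 (a * b + a * c + b * c) (-(a * b * c))).eval x = 0) :
    3 * (x - c) ^ 4 + 4 * ((c - a) + (c - b)) * (x - c) ^ 3 +
      6 * ((c - a) * (c - b)) * (x - c) ^ 2 - ((c - a) * (c - b)) ^ 2 = 0 := by
  rw [GB13_p3] at h
  have hc : c = -a - b := by linear_combination hsum
  subst hc
  linear_combination h

/-- the roots of `p3` are not `a`, `b`, `c` -/
private theorem GB13_ne (a b c x : L) (hsum : a + b + c = 0) (hac : a ≠ c) (hbc : b ≠ c)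
    (h : (p3 (a * b + a * c + b * c) (-(a * b * c))).eval x = 0) : x ≠ c := by
  intro hx
  have h1 := GB13_loc a b c x hsum h
  rw [hx, sub_self] at h1
  have h2 : ((c - a) * (c - b)) ^ 2 = 0 := by linear_combination -h1
  have h3 := pow_eq_zero_iff (two_ne_zero) |>.mp h2
  rcases mul_eq_zero.mp h3 with h4 | h4
  · exact hac (sub_eq_zero.mp h4).symm
  · exact hbc (sub_eq_zero.mp h4).symm

/-- duplication of the translate -/
private theorem GB13_dbl (a b c x : L) (hsum : a + b + c = 0) (hac : a ≠ c) (hbc : b ≠ c)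
    (h : (p3 (a * b + a * c + b * c) (-(a * b * c))).eval x = 0) (r : L)
    (hr : (r - c) * (x - c) = (c - a) * (c - b)) :
    ((r - c) ^ 2 - (c - a) * (c - b)) ^ 2 = 4 * (x - c) * ((r - a) * (r - b) * (r - c)) := by
  have h1 := GB13_loc a b c x hsum h
  have hm : (c - a) * (c - b) ≠ 0 :=
    mul_ne_zero (sub_ne_zero.mpr hac.symm) (sub_ne_zero.mpr hbc.symm)
  set m := (c - a) * (c - b) with hmdef
  set s := (c - a) + (c - b) with hs
  have h2 : m ^ 2 * (3 * m ^ 2 + 4 * s * m * (r - c) + 6 * m * (r - c) ^ 2 - (r - c) ^ 4) = 0 := by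
    have e : (3 * (x - c) ^ 4 + 4 * s * (x - c) ^ 3 + 6 * m * (x - c) ^ 2 - m ^ 2) *
        (r - c) ^ 4 = m ^ 2 * (3 * m ^ 2 + 4 * s * m * (r - c) + 6 * m * (r - c) ^ 2 -
          (r - c) ^ 4) := by
      have e1 : (x - c) ^ 4 * (r - c) ^ 4 = m ^ 4 := by rw [← hr]; ring
      have e2 : (x - c) ^ 3 * (r - c) ^ 3 = m ^ 3 := by rw [← hr]; ring
      have e3 : (x - c) ^ 2 * (r - c) ^ 2 = m ^ 2 := by rw [← hr]; ring
      linear_combination 3 * e1 + 4 * s * (r - c) * e2 + 6 * m * (r - c) ^ 2 * e3
    rw [← e, h1, zero_mul]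
  have h3 := (mul_eq_zero.mp h2).resolve_left (pow_ne_zero 2 hm)
  have h4 : (r - a) * (r - b) = (r - c) ^ 2 + s * (r - c) + m := by
    rw [hs, hmdef]; ring
  rw [h4]
  linear_combination (-1 : L) * h3 - 4 * ((r - c) ^ 2 + s * (r - c) + m) * hr

private theorem GB13_pP (a b c r : L) (hsum : a + b + c = 0) :
    (pP (a * b + a * c + b * c) (-(a * b * c))).eval r =
      ((r - c) ^ 2 - (c - a) * (c - b)) ^ 2 + 4 * c * ((r - a) * (r - b) * (r - c)) := by
  have hc : c = -a - b := by linear_combination hsum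
  subst hc
  simp [pP]
  ring

end loc

section loc
variable {L : Type*} [Field L] [CharZero L] (w : Valuation L ℤᵐ⁰)

/-- the case of the points of order six. -/
theorem locE (a b c x y : L) (hsum : a + b + c = 0) (hab : a ≠ b) (hac : a ≠ c) (hbc : b ≠ c)
    (hxy : x ≠ y) (h3x : (p3 (a * b + a * c + b * c) (-(a * b * c))).eval x = 0)
    (h3y : (p3 (a * b + a * c + b * c) (-(a * b * c))).eval y = 0)
    (hs : ord w (c - b) = ord w (c - a)) (η E : ℤ) (hη : 0 ≤ η) (hE : 0 ≤ E)
    (ht : ord w (c - a) + 40 * η < ord w (b - a))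
    (hlow : ord w (c - a) - η ≤ ord w (x - a)) (hlow' : ord w (c - a) - η ≤ ord w (x - c))
    (hup : ord w (x - a) ≤ ord w (c - a) + η)
    (hlow0 : ord w (c - a) - η ≤ ord w (rr c a b x - a))
    (hlow3 : ord w (c - a) - η ≤ ord w (rr a b c y - a))
    (hy : ord w (b - a) - ord w (c - a) - η ≤ 2 * (ord w (y - a) - ord w (c - a)))
    (S : Set L) (hS : CrossB w S E)
    (hra : rr a b c x ∈ S) (hrb : rr b a c x ∈ S) (hrc : rr c a b x ∈ S) (hry : rr a b c y ∈ S) :
    ord w (b - a) - ord w (c - a) ≤ E + 80 * η := by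
  have h4L : (4 : L) ≠ 0 := by norm_num
  -- symmetric forms
  have perm1 : a * b + a * c + b * c = b * c + b * a + c * a := by ring
  have perm2 : -(a * b * c) = -(b * c * a) := by ring
  have perm3 : a * b + a * c + b * c = a * c + a * b + c * b := by ring
  have perm4 : -(a * b * c) = -(a * c * b) := by ring
  have hsum1 : b + c + a = 0 := by linear_combination hsum
  have hsum2 : a + c + b = 0 := by linear_combination hsum
  have h3xa := h3x
  rw [perm1, perm2] at h3xa
  have h3ya := h3y
  rw [perm1, perm2] at h3ya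
  have h3xb := h3x
  rw [perm3, perm4] at h3xb
  have xc : x ≠ c := GB13_ne a b c x hsum hac hbc h3x
  have xa : x ≠ a := GB13_ne b c a x hsum1 hab.symm hac.symm h3xa
  have xb : x ≠ b := GB13_ne a c b x hsum2 hab hbc.symm h3xb
  have ya : y ≠ a := GB13_ne b c a y hsum1 hab.symm hac.symm h3ya
  have ua : x - a ≠ 0 := sub_ne_zero.mpr xa
  have ub : x - b ≠ 0 := sub_ne_zero.mpr xb
  have uc : x - c ≠ 0 := sub_ne_zero.mpr xc
  have va : y - a ≠ 0 := sub_ne_zero.mpr ya
  have dba : b - a ≠ 0 := sub_ne_zero.mpr hab.symm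
  have dab : a - b ≠ 0 := sub_ne_zero.mpr hab
  have dca : c - a ≠ 0 := sub_ne_zero.mpr hac.symm
  have dac : a - c ≠ 0 := sub_ne_zero.mpr hac
  have dcb : c - b ≠ 0 := sub_ne_zero.mpr hbc.symm
  have dbc : b - c ≠ 0 := sub_ne_zero.mpr hbc
  have oab : ord w (a - b) = ord w (b - a) := by rw [← neg_sub, GB13_neg]
  have oac : ord w (a - c) = ord w (c - a) := by rw [← neg_sub, GB13_neg]
  have obc : ord w (b - c) = ord w (c - a) := by rw [← neg_sub, GB13_neg, hs]
  -- `x - b`
  have oub : ord w (x - b) = ord w (x - a) := by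
    have := (GB13_eq (w := w) (x := x - a) (y := a - b) ua (Or.inr (by rw [oab]; linarith))).2
    rwa [show x - a + (a - b) = x - b by ring] at this
  -- `N_b`
  have hNb : (x - b) ^ 2 + -((b - a) * (b - c)) ≠ 0 ∧
      ord w ((x - b) ^ 2 + -((b - a) * (b - c))) = 2 * ord w (x - a) := by
    have := GB13_eq (w := w) (x := (x - b) ^ 2) (y := -((b - a) * (b - c)))
      (pow_ne_zero 2 ub) (Or.inr (by
        rw [GB13_neg, ord_pow, ord_mul dba dbc, obc, oub]
        push_cast
        linarith))
    refine ⟨this.1, ?_⟩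
    rw [this.2, ord_pow, oub]
    norm_num
  -- `N_a`
  have hNa : (x - a) ^ 2 + -((a - b) * (a - c)) ≠ 0 := by
    have := GB13_eq (w := w) (x := (x - a) ^ 2) (y := -((a - b) * (a - c)))
      (pow_ne_zero 2 ua) (Or.inr (by
        rw [GB13_neg, ord_pow, ord_mul dab dac, oac, oab]
        push_cast
        linarith))
    exact this.1
  -- `N_c`
  have hNc : (x - c) ^ 2 + -((c - a) * (c - b)) ≠ 0 := by
    intro h0
    have h1 := GB13_loc a b c x hsum h3x
    have h2 : 4 * (x - c) ^ 3 * (2 * (x - c) + ((c - a) + (c - b))) = 0 := by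
      have hm : (c - a) * (c - b) = (x - c) ^ 2 := by linear_combination -h0
      rw [hm] at h1
      linear_combination h1
    have h3 : 2 * (x - c) + ((c - a) + (c - b)) = 0 :=
      (mul_eq_zero.mp h2).resolve_left (mul_ne_zero h4L (pow_ne_zero 3 uc))
    have h4 : (a - b) ^ 2 = 0 := by
      linear_combination (4 : L) * h0 - (2 * (x - c) - ((c - a) + (c - b))) * h3
    exact dab (pow_eq_zero_iff (two_ne_zero) |>.mp h4)
  have oNc : 2 * ord w (c - a) - 2 * η ≤ ord w ((x - c) ^ 2 + -((c - a) * (c - b))) := by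
    apply GB13_ge hNc
    · right
      rw [ord_pow]
      push_cast
      linarith
    · right
      rw [GB13_neg, ord_mul dca dcb, hs]
      linarith
  -- differences
  have e12 : rr a b c x - rr b a c x =
      (a - b) * ((x - c) ^ 2 + -((c - a) * (c - b))) / ((x - a) * (x - b)) := by
    unfold rr
    field_simp
    ring
  have e01 : rr c a b x - rr a b c x =
      (c - a) * ((x - b) ^ 2 + -((b - a) * (b - c))) / ((x - c) * (x - a)) := by
    unfold rr
    field_simp
    ring
  have e02 : rr c a b x - rr b a c x =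
      (c - b) * ((x - a) ^ 2 + -((a - b) * (a - c))) / ((x - c) * (x - b)) := by
    unfold rr
    field_simp
    ring
  have e3a : rr a b c y - a = (a - b) * (a - c) / (y - a) := by
    unfold rr
    ring
  have e2a : rr b a c x - a = (b - a) * (b - c) / (x - b) + (b - a) := by
    unfold rr
    ring
  have n12 : rr a b c x - rr b a c x ≠ 0 := by
    rw [e12]
    exact div_ne_zero (mul_ne_zero dab hNc) (mul_ne_zero ua ub)
  have n01 : rr c a b x - rr a b c x ≠ 0 := by
    rw [e01]
    exact div_ne_zero (mul_ne_zero dca hNb.1) (mul_ne_zero uc ua)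
  have n02 : rr c a b x - rr b a c x ≠ 0 := by
    rw [e02]
    exact div_ne_zero (mul_ne_zero dcb hNa) (mul_ne_zero uc ub)
  have n3a : rr a b c y - a ≠ 0 := by
    rw [e3a]
    exact div_ne_zero (mul_ne_zero dab dac) va
  have n31 : rr a b c y - rr a b c x ≠ 0 := by
    have : rr a b c y - rr a b c x = (a - b) * (a - c) * (x - y) / ((y - a) * (x - a)) := by
      unfold rr
      field_simp
      ring
    rw [this]
    exact div_ne_zero (mul_ne_zero (mul_ne_zero dab dac) (sub_ne_zero.mpr hxy))
      (mul_ne_zero va ua)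
  -- `ord (r3 - a)`
  have o3a : 2 * ord w (rr a b c y - a) ≤ 2 * ord w (c - a) + (ord w (b - a) - ord w (c - a)) + η := by
    rw [e3a, ord_div (mul_ne_zero dab dac) va, ord_mul dab dac, oab, oac]
    linarith
  have o2a : rr b a c x - a = 0 ∨ ord w (b - a) - η ≤ ord w (rr b a c x - a) := by
    rcases eq_or_ne (rr b a c x - a) 0 with h | h
    · exact Or.inl h
    · right
      rw [e2a] at h ⊢
      apply GB13_ge h
      · right
        rw [ord_div (mul_ne_zero dba dbc) ub, ord_mul dba dbc, obc, oub]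
        linarith
      · right
        linarith
  have h32 : rr a b c y - rr b a c x ≠ 0 ∧
      ord w (rr a b c y - rr b a c x) = ord w (rr a b c y - a) := by
    have := GB13_eq (w := w) (x := rr a b c y - a) (y := -(rr b a c x - a)) n3a (by
      rcases o2a with h | h
      · left
        rw [h, neg_zero]
      · right
        rw [GB13_neg]
        linarith)
    rwa [show rr a b c y - a + -(rr b a c x - a) = rr a b c y - rr b a c x by ring] at this
  -- `r0 ≠ r3`
  have n03 : rr c a b x - rr a b c y ≠ 0 := by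
    intro h0
    have hr : rr c a b x = rr a b c y := sub_eq_zero.mp h0
    set r := rr c a b x with hrdef
    have k1 : (r - c) * (x - c) = (c - a) * (c - b) := by
      rw [hrdef]
      unfold rr
      field_simp
      ring
    have k2 : (r - a) * (y - a) = (a - b) * (a - c) := by
      rw [hr]
      unfold rr
      field_simp
      ring
    have d1 := GB13_dbl a b c x hsum hac hbc h3x r k1
    have d2 := GB13_dbl b c a y hsum1 hab.symm hac.symm h3ya r k2
    have p1 := GB13_pP a b c r hsum
    have p2 := GB13_pP b c a r hsum1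
    rw [← perm1, ← perm2] at p2
    have d3 : 4 * (x - y) * ((r - a) * (r - b) * (r - c)) = 0 := by
      linear_combination (-1 : L) * d1 + d2 - p1 + p2
    have ra : r - a ≠ 0 := by
      intro h
      rw [h, zero_mul] at k2
      exact mul_ne_zero dab dac k2.symm
    have rc : r - c ≠ 0 := by
      intro h
      rw [h, zero_mul] at k1
      exact mul_ne_zero dca dcb k1.symm
    have rb : r - b ≠ 0 := by
      intro h
      have hrb2 : r = b := sub_eq_zero.mp h
      rw [hrb2] at k1
      have : (c - b) * (x - a) = 0 := by linear_combination -k1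
      exact mul_ne_zero dcb ua this
    exact mul_ne_zero (mul_ne_zero h4L (sub_ne_zero.mpr hxy))
      (mul_ne_zero (mul_ne_zero ra rb) rc) d3
  have o03 : ord w (c - a) - η ≤ ord w (rr c a b x - rr a b c y) := by
    have e : rr c a b x - rr a b c y = (rr c a b x - a) + -(rr a b c y - a) := by ring
    rw [e] at n03 ⊢
    apply GB13_ge n03
    · exact Or.inr hlow0
    · right
      rw [GB13_neg]
      exact hlow3
  have o12 : ord w (b - a) - 4 * η ≤ ord w (rr a b c x - rr b a c x) := by
    rw [e12, ord_div (mul_ne_zero dab hNc) (mul_ne_zero ua ub), ord_mul dab hNc, ord_mul ua ub,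
      oab, oub]
    linarith
  have o01 : ord w (rr c a b x - rr a b c x) ≤ ord w (c - a) + 2 * η := by
    rw [e01, ord_div (mul_ne_zero dca hNb.1) (mul_ne_zero uc ua), ord_mul dca hNb.1,
      ord_mul uc ua, hNb.2]
    linarith
  have fin := hS _ hrc _ hry _ hra _ hrb (sub_ne_zero.mp n03) (sub_ne_zero.mp n01)
    (sub_ne_zero.mp n02) (sub_ne_zero.mp n31) (sub_ne_zero.mp h32.1) (sub_ne_zero.mp n12)
  rw [ord_mul n03 n12, ord_mul n01 h32.1, h32.2] at fin
  linarith

end loc

end Pool.Agent.Lib.MP_ca2859_nt.GR.GB
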