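import Mathlib
import Pool.Agent.Lib.MP_ca2859_nt.GR.GB.GB4
import Pool.Agent.Lib.MP_ca2859_nt.GR.GB.GB9
import Pool.Agent.Lib.MP_ca2859_nt.GR.GB.GB10
import Pool.Agent.Lib.MP_ca2859_nt.GR.GB.GB11
import Pool.Agent.Lib.MP_ca2859_nt.GR.GB.GB12
import Pool.Agent.Lib.MP_ca2859_nt.GR.GB.GB13

/-!
# The two cases together
-/

set_option autoImplicit false

open Polynomial WithZero IsDedekindDomain NumberField

namespace Pool.Agent.Lib.MP_ca2859_nt.GR.GB

section loc
variable {L : Type*} [Field L] [CharZero L] (w : Valuation L ℤᵐ⁰)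

omit [CharZero L] in
private theorem GB14_symm (x y : L) : ord w (x - y) = ord w (y - x) := by
  rw [ord, ord, Valuation.map_sub_swap]

omit [CharZero L] in
private theorem GB14_ultra (a b c : L) (hab : a ≠ b) (hac : a ≠ c)
    (h : ord w (a - c) < ord w (a - b)) : ord w (c - b) = ord w (c - a) := by
  have h1 : w (a - b) < w (c - a) := by
    rw [w_eq_exp (sub_ne_zero.2 hab), w_eq_exp (sub_ne_zero.2 hac.symm), exp_lt_exp,
      GB14_symm w c a]
    linarith
  have h2 := Valuation.map_add_eq_of_lt_left w h1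
  rw [show c - a + (a - b) = c - b by ring] at h2
  rw [ord, ord, h2]

/-- GB14: the two cases together. -/
theorem low_core (a b c : L) (hsum : a + b + c = 0) (hab : a ≠ b) (hac : a ≠ c) (hbc : b ≠ c)
    (i : ℕ) (hi : 1 ≤ i) (E : ℤ) (hE : 0 ≤ E)
    (hsp3 : (p3 (a * b + a * c + b * c) (-(a * b * c))).Splits)
    (hspY : (pY (a * b + a * c + b * c) (-(a * b * c)) i).Splits)
    (hS : CrossB w {x | (pY (a * b + a * c + b * c) (-(a * b * c)) i).eval x = 0} E) :
    2 * ord w (a - b) ≤ 2 * ord w (a - c) + 2 * E +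
      10000 * (i + 1) * (ord w (2 : L) + ord w (3 : L)) := by
  have ho2 : 0 ≤ ord w (2 : L) := by simpa using natCast_int_le w 2
  have ho3 : 0 ≤ ord w (3 : L) := by simpa using natCast_int_le w 3
  set o2 := ord w (2 : L) with ho2d
  set o3 := ord w (3 : L) with ho3d
  have hi0 : (0 : ℤ) ≤ i := Int.natCast_nonneg _
  have hio2 : 0 ≤ (i : ℤ) * o2 := mul_nonneg hi0 ho2
  have hio3 : 0 ≤ (i : ℤ) * o3 := mul_nonneg hi0 ho3
  rcases le_or_gt (ord w (a - b)) (ord w (a - c)) with hle | hlt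
  · nlinarith
  have hs := GB14_ultra w a b c hab hac hlt
  rw [GB14_symm w a b, GB14_symm w a c] at hlt ⊢
  obtain ⟨η, hηd⟩ : ∃ η : ℤ, η = 10 * (i + 1) * (o2 + o3) := ⟨_, rfl⟩
  have hη : 0 ≤ η := by rw [hηd]; positivity
  have e10 : 10000 * ((i : ℤ) + 1) * (o2 + o3) = 1000 * η := by rw [hηd]; ring
  rw [e10]
  have hη1 : 10 * o2 ≤ η := by rw [hηd]; nlinarith
  have hη2 : 10 * o3 ≤ η := by rw [hηd]; nlinarith
  have hη3 : ((i : ℤ) + 1) * o2 ≤ η := by rw [hηd]; nlinarith
  rcases le_or_gt (ord w (b - a)) (ord w (c - a) + 40 * η) with ht | ht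
  · linarith
  have e1 : b * a + b * c + a * c = a * b + a * c + b * c := by ring
  have e1' : b * a * c = a * b * c := by ring
  have e2 : c * a + c * b + a * b = a * b + a * c + b * c := by ring
  have e2' : c * a * b = a * b * c := by ring
  have hs1 : b + a + c = 0 := by rw [← hsum]; ring
  have hs2 : c + a + b = 0 := by rw [← hsum]; ring
  have hD : 4 * (a * b + a * c + b * c) ^ 3 + 27 * (-(a * b * c)) ^ 2 ≠ 0 := by
    have : 4 * (a * b + a * c + b * c) ^ 3 + 27 * (-(a * b * c)) ^ 2 =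
        -((a - b) * (a - c) * (b - c)) ^ 2 := by
      have hc : c = -a - b := by linear_combination hsum
      subst hc
      ring
    rw [this]
    exact neg_ne_zero.2 (pow_ne_zero _ (mul_ne_zero (mul_ne_zero (sub_ne_zero.2 hab)
      (sub_ne_zero.2 hac)) (sub_ne_zero.2 hbc)))
  have h2 : (2 : L) ≠ 0 := two_ne_zero
  have h3 : (3 : L) ≠ 0 := three_ne_zero
  obtain ⟨-, hcf, -, hcT⟩ := pY_spec (a * b + a * c + b * c) (-(a * b * c)) h2 h3 hD i
  rcases Nat.lt_or_ge i 2 with hi2 | hi2
  · obtain rfl : i = 1 := by omega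
    obtain ⟨x, hx, hxb⟩ := nonnode3 w a b c hsum hab hac hbc hs hlt hsp3
    obtain ⟨y, hy, hyb⟩ := node3 w a b c hsum hab hac hbc hs hlt hsp3
    have hxy : x ≠ y := by
      rintro rfl
      linarith
    have hrx1 : (p6 (a * b + a * c + b * c) (-(a * b * c))).eval (rr a b c x) = 0 :=
      rr_p3 a b c x hsum hab hac hbc hx
    have hrx2 : (p6 (a * b + a * c + b * c) (-(a * b * c))).eval (rr b a c x) = 0 := by
      have h := rr_p3 b a c x hs1 hab.symm hbc hac (by rw [e1, e1']; exact hx)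
      rwa [e1, e1'] at h
    have hrx3 : (p6 (a * b + a * c + b * c) (-(a * b * c))).eval (rr c a b x) = 0 := by
      have h := rr_p3 c a b x hs2 hac.symm hbc.symm hab (by rw [e2, e2']; exact hx)
      rwa [e2, e2'] at h
    have hry1 : (p6 (a * b + a * c + b * c) (-(a * b * c))).eval (rr a b c y) = 0 :=
      rr_p3 a b c y hsum hab hac hbc hy
    obtain ⟨b1, b2, b3⟩ := root_int w a b c hsum hab hac hbc hs hlt.le x (Or.inr hx)
    obtain ⟨b4, -, -⟩ := root_int w a b c hsum hab hac hbc hs hlt.le (rr c a b x)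
      (Or.inl ⟨1, hrx3⟩)
    obtain ⟨b5, -, -⟩ := root_int w a b c hsum hab hac hbc hs hlt.le (rr a b c y)
      (Or.inl ⟨1, hry1⟩)
    have key := locE w a b c x y hsum hab hac hbc hxy hx hy hs η E hη hE ht (by linarith)
      (by linarith) (by linarith) (by linarith) (by linarith) (by linarith)
      {x | (pY (a * b + a * c + b * c) (-(a * b * c)) 1).eval x = 0} hS hrx1 hrx2 hrx3 hry1
    linarith
  · obtain ⟨j, rfl⟩ : ∃ j, i = j + 2 := ⟨i - 2, by omega⟩
    obtain ⟨x, hx, hxb⟩ := nonnode w a b c hsum hab hac hbc hs hlt (j + 2) hspY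
    have hf := pf_eval a b c x hsum
    have hfx : (pf (a * b + a * c + b * c) (-(a * b * c))).eval x ≠ 0 := by
      intro h0
      obtain ⟨u, v, huv⟩ := hcf
      have := congrArg (eval x) huv
      simp [h0, hx] at this
    rw [hf] at hfx
    have hxa : x ≠ a := by rintro rfl; simp at hfx
    have hxb' : x ≠ b := by rintro rfl; simp at hfx
    have hxc : x ≠ c := by rintro rfl; simp at hfx
    have hTx : (pT (a * b + a * c + b * c) (-(a * b * c))).eval x ≠ 0 := by
      intro h0
      obtain ⟨u, v, huv⟩ := hcT hi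
      have := congrArg (eval x) huv
      simp [h0, hx] at this
    rw [pT_eval a b c x hsum] at hTx
    have n3 : NN c a b x ≠ 0 := right_ne_zero_of_mul hTx
    have n2 : NN b a c x ≠ 0 := right_ne_zero_of_mul (left_ne_zero_of_mul hTx)
    have n1 : NN a b c x ≠ 0 := left_ne_zero_of_mul (left_ne_zero_of_mul hTx)
    have hr1 := rr_pY a b c x hsum hxa j hx
    have hr2 : (pY (a * b + a * c + b * c) (-(a * b * c)) (j + 2)).eval (rr b a c x) = 0 := by
      have h := rr_pY b a c x hs1 hxb' j (by rw [e1, e1']; exact hx)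
      rwa [e1, e1'] at h
    have hr3 : (pY (a * b + a * c + b * c) (-(a * b * c)) (j + 2)).eval (rr c a b x) = 0 := by
      have h := rr_pY c a b x hs2 hxc j (by rw [e2, e2']; exact hx)
      rwa [e2, e2'] at h
    obtain ⟨b1, b2, b3⟩ := root_int w a b c hsum hab hac hbc hs hlt.le x (Or.inl ⟨_, hx⟩)
    have key := locD w a b c x hab hac hbc hxa hxb' hxc n1 n2 n3 hs η E hη hE (by linarith)
      (by linarith) (by linarith) (by linarith)
      {x | (pY (a * b + a * c + b * c) (-(a * b * c)) (j + 2)).eval x = 0} hS hx hr1 hr2 hr3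
    linarith

end loc

end Pool.Agent.Lib.MP_ca2859_nt.GR.GB
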