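import Mathlib
import Pool.Agent.Lib.MP_ca2859_nt.GR.GB.Defs

/-!
# Distances of the points of order two and the `j`-invariant
-/

set_option autoImplicit false

open Polynomial WithZero IsDedekindDomain NumberField

namespace Pool.Agent.Lib.MP_ca2859_nt.GR.GB

section loc
variable {L : Type*} [Field L] [CharZero L] (w : Valuation L ℤᵐ⁰)

omit [CharZero L] in
theorem GB15_add {x y : L} (h : x + y ≠ 0) : min (ord w x) (ord w y) ≤ ord w (x + y) := by
  rcases eq_or_ne x 0 with rfl | hx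
  · rw [zero_add]; exact min_le_right _ _
  rcases eq_or_ne y 0 with rfl | hy
  · rw [add_zero]; exact min_le_left _ _
  have h1 := w.map_add x y
  have h2 : w (x + y) ≤ exp (-(min (ord w x) (ord w y))) := by
    refine h1.trans (max_le ?_ ?_)
    · rw [w_eq_exp hx, exp_le_exp]; exact neg_le_neg (min_le_left _ _)
    · rw [w_eq_exp hy, exp_le_exp]; exact neg_le_neg (min_le_right _ _)
  rw [le_exp_iff h, neg_neg] at h2
  exact h2

omit [CharZero L] in
theorem GB15_neg (x : L) : ord w (-x) = ord w x := by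
  simp [ord, Valuation.map_neg]

/-- GB15: the `j`-invariant is bounded by the distances. -/
theorem j_of_dist (a b c : L) (hsum : a + b + c = 0) (hab : a ≠ b) (hac : a ≠ c) (hbc : b ≠ c)
    (E : ℤ) (hE : 0 ≤ E)
    (h1 : 2 * ord w (b - a) ≤ 2 * ord w (c - a) + E) (h2 : 2 * ord w (c - a) ≤ 2 * ord w (b - a) + E)
    (h3 : 2 * ord w (b - a) ≤ 2 * ord w (b - c) + E) (h4 : 2 * ord w (b - c) ≤ 2 * ord w (b - a) + E)
    (h5 : 2 * ord w (c - a) ≤ 2 * ord w (c - b) + E) (h6 : 2 * ord w (c - b) ≤ 2 * ord w (c - a) + E) :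
    a * b + a * c + b * c = 0 ∨
    ord w (4 * (a * b + a * c + b * c) ^ 3 + 27 * (-(a * b * c)) ^ 2) -
      3 * ord w (a * b + a * c + b * c) ≤ 2 * E + 3 * ord w (3 : L) := by
  by_cases hA : a * b + a * c + b * c = 0
  · exact Or.inl hA
  refine Or.inr ?_
  have dba : b - a ≠ 0 := sub_ne_zero.2 hab.symm
  have dca : c - a ≠ 0 := sub_ne_zero.2 hac.symm
  have dbc : b - c ≠ 0 := sub_ne_zero.2 hbc
  have obc : ord w (c - b) = ord w (b - c) := by rw [← GB15_neg w (b - c), neg_sub]
  have hc : c = -a - b := by linear_combination hsum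
  have h30 : (3 : L) ≠ 0 := three_ne_zero
  have eD : 4 * (a * b + a * c + b * c) ^ 3 + 27 * (-(a * b * c)) ^ 2 =
      -(((b - a) * (c - a) * (b - c)) ^ 2) := by
    rw [hc]; ring
  have oD : ord w (4 * (a * b + a * c + b * c) ^ 3 + 27 * (-(a * b * c)) ^ 2) =
      2 * (ord w (b - a) + ord w (c - a) + ord w (b - c)) := by
    rw [eD, GB15_neg, ord_pow, ord_mul (mul_ne_zero dba dca) dbc, ord_mul dba dca]
    norm_num
  have eA : 3 * (a * b + a * c + b * c) = -((b - a) ^ 2 + (-((b - a) * (c - a)) + (c - a) ^ 2)) := by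
    rw [hc]; ring
  have hn : (b - a) ^ 2 + (-((b - a) * (c - a)) + (c - a) ^ 2) ≠ 0 := by
    intro h
    rw [h, neg_zero] at eA
    exact (mul_ne_zero h30 hA) eA
  have oA : ord w (3 : L) + ord w (a * b + a * c + b * c) =
      ord w ((b - a) ^ 2 + (-((b - a) * (c - a)) + (c - a) ^ 2)) := by
    rw [← ord_mul h30 hA, eA, GB15_neg]
  have p1 : ord w ((b - a) ^ 2) = 2 * ord w (b - a) := by rw [ord_pow]; norm_num
  have p2 : ord w ((c - a) ^ 2) = 2 * ord w (c - a) := by rw [ord_pow]; norm_num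
  have p3 : ord w (-((b - a) * (c - a))) = ord w (b - a) + ord w (c - a) := by
    rw [GB15_neg, ord_mul dba dca]
  have q : 2 * min (ord w (b - a)) (ord w (c - a)) ≤
      ord w ((b - a) ^ 2 + (-((b - a) * (c - a)) + (c - a) ^ 2)) := by
    have q1 := GB15_add w hn
    rw [p1] at q1
    rcases eq_or_ne (-((b - a) * (c - a)) + (c - a) ^ 2) 0 with h0 | h0
    · rw [h0, add_zero, p1]
      omega
    · have q2 := GB15_add w h0
      rw [p2, p3] at q2
      rcases min_le_iff.1 q1 with h7 | h7 <;> rcases min_le_iff.1 q2 with h8 | h8 <;> omega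
  rw [oD]
  rw [obc] at h5 h6
  rcases le_total (ord w (b - a)) (ord w (c - a)) with h | h
  · rw [min_eq_left h] at q; omega
  · rw [min_eq_right h] at q; omega

end loc

end Pool.Agent.Lib.MP_ca2859_nt.GR.GB
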