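import Mathlib
import Pool.Agent.Lib.MP_ca2859_nt.GR.GB.GB4

/-!
# The branch polynomial
-/

set_option autoImplicit false

open Polynomial WithZero IsDedekindDomain NumberField

namespace Pool.Agent.Lib.MP_ca2859_nt.GR.GB

section field
variable {k : Type*} [Field k] (A B : k)

/-- GB5 -/
theorem pG_spec (h2 : (2 : k) ≠ 0) (h3 : (3 : k) ≠ 0) (hD : 4 * A ^ 3 + 27 * B ^ 2 ≠ 0)
    (δ ε : ℕ) (hδ : δ ≤ 1) (hε : ε ≤ 1) (s : Finset ℕ) :
    (pG A B δ ε s).Separable ∧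
    (pG A B δ ε s).natDegree = 3 * δ + 4 * ε + 6 * ∑ i ∈ s, 2 ^ i ∧
    (pG A B δ ε s).leadingCoeff = 3 ^ ε := by
  obtain ⟨b1, -, -, b4, -, b6, -⟩ := base A B h2 h3 hD
  obtain ⟨⟨f1, f2⟩, -⟩ := monics A B
  obtain ⟨t1, t2⟩ := p3_natDegree A B h3
  have hprodm : (∏ i ∈ s, pY A B i).Monic :=
    monic_prod_of_monic _ _ fun i _ => (pY_monic A B i).1
  have hprodd : (∏ i ∈ s, pY A B i).natDegree = 6 * ∑ i ∈ s, 2 ^ i := by
    rw [natDegree_prod_of_monic _ _ fun i _ => (pY_monic A B i).1, Finset.mul_sum]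
    exact Finset.sum_congr rfl fun i _ => (pY_monic A B i).2
  have hprods : (∏ i ∈ s, pY A B i).Separable :=
    separable_prod' (fun i _ j _ hij => pY_coprime A B h2 h3 hD i j hij)
      fun i _ => (pY_spec A B h2 h3 hD i).1
  have hcf : IsCoprime (pf A B) (∏ i ∈ s, pY A B i) :=
    IsCoprime.prod_right fun i _ => (pY_spec A B h2 h3 hD i).2.1
  have hc3 : IsCoprime (p3 A B) (∏ i ∈ s, pY A B i) :=
    IsCoprime.prod_right fun i _ => (pY_spec A B h2 h3 hD i).2.2.1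
  have hf0 : pf A B ≠ 0 := f1.ne_zero
  have h30 : p3 A B ≠ 0 := by
    intro h
    rw [h, leadingCoeff_zero] at t2
    exact h3 t2.symm
  have hp0 : (∏ i ∈ s, pY A B i) ≠ 0 := hprodm.ne_zero
  refine ⟨?_, ?_, ?_⟩
  · unfold pG
    have hfs : (pf A B ^ δ).Separable := by
      interval_cases δ
      · rw [pow_zero]; exact separable_one
      · rw [pow_one]; exact b1
    have h3s : (p3 A B ^ ε).Separable := by
      interval_cases ε
      · rw [pow_zero]; exact separable_one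
      · rw [pow_one]; exact b6
    refine (hfs.mul h3s (IsCoprime.pow b4)).mul hprods ?_
    exact IsCoprime.mul_left (IsCoprime.pow_left hcf) (IsCoprime.pow_left hc3)
  · unfold pG
    rw [natDegree_mul (mul_ne_zero (pow_ne_zero _ hf0) (pow_ne_zero _ h30)) hp0,
      natDegree_mul (pow_ne_zero _ hf0) (pow_ne_zero _ h30), natDegree_pow, natDegree_pow, f2, t1,
      hprodd]
    ring
  · unfold pG
    rw [leadingCoeff_mul, leadingCoeff_mul, leadingCoeff_pow, leadingCoeff_pow, f1.leadingCoeff,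
      t2, hprodm.leadingCoeff, one_pow, one_mul, mul_one]

end field

/-- binary digits -/
theorem GB5_bits (n : ℕ) : ∃ s : Finset ℕ, ∑ i ∈ s, 2 ^ i = n :=
  ⟨n.bitIndices.toFinset, by
    rw [List.sum_toFinset]
    · exact Nat.sum_map_two_pow_bitIndices n
    · exact Nat.bitIndices_sorted.nodup⟩

/-- GB5 -/
theorem choice (g : ℕ) (hg : 3 ≤ g) : ∃ (δ ε : ℕ) (s : Finset ℕ), δ ≤ 1 ∧ ε ≤ 1 ∧
    ((δ = 1 ∧ 3 * δ + 4 * ε + 6 * ∑ i ∈ s, 2 ^ i = 2 * g + 1) ∨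
     (δ = 0 ∧ 3 * δ + 4 * ε + 6 * ∑ i ∈ s, 2 ^ i = 2 * g + 2 ∧ ∃ i ∈ s, 1 ≤ i)) := by
  obtain ⟨m, hm⟩ : ∃ m, g = 3 * m ∨ g = 3 * m + 1 ∨ g = 3 * m + 2 := ⟨g / 3, by omega⟩
  rcases hm with hm | hm | hm
  · obtain ⟨s, hs⟩ := GB5_bits (m - 1)
    refine ⟨1, 1, s, le_rfl, le_rfl, Or.inl ⟨rfl, ?_⟩⟩
    rw [hs]; omega
  · obtain ⟨s, hs⟩ := GB5_bits m
    refine ⟨1, 0, s, le_rfl, by omega, Or.inl ⟨rfl, ?_⟩⟩
    rw [hs]; omega
  · obtain ⟨s, hs⟩ := GB5_bits (m + 1)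
    refine ⟨0, 0, s, by omega, by omega, Or.inr ⟨rfl, ?_, ?_⟩⟩
    · rw [hs]; omega
    · by_contra hcon
      push Not at hcon
      have h1 : ∑ i ∈ s, 2 ^ i ≤ 1 := by
        have h2 : s ⊆ {0} := by
          intro i hi
          have := hcon i hi
          simp only [Finset.mem_singleton]
          omega
        calc ∑ i ∈ s, 2 ^ i ≤ ∑ i ∈ ({0} : Finset ℕ), 2 ^ i := Finset.sum_le_sum_of_subset h2
          _ = 1 := by simp
      omega

end Pool.Agent.Lib.MP_ca2859_nt.GR.GB
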