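import Mathlib
import Pool.Agent.Lib.MP_ca2859_nt.GR.GB.Defs
import Pool.Agent.Lib.MP_ca2859_nt.GR.GB.GB5
import Pool.Agent.Lib.MP_ca2859_nt.GR.GB.GB9
import Pool.Agent.Lib.MP_ca2859_nt.GR.GB.GB14
import Pool.Agent.Lib.MP_ca2859_nt.GR.GB.GB15
import Pool.Agent.Lib.MP_ca2859_nt.GR.Fin
import Pool.Agent.Lib.MP_ca2859_nt.GR.A2
import Pool.Agent.Lib.MP_ca2859_nt.GR.A3

/-!
# The lower bound for the minimal discriminant of the hyperelliptic curve
-/

set_option autoImplicit false

open Polynomial WithZero IsDedekindDomain NumberField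

namespace Pool.Agent.Lib.MP_ca2859_nt.GR.GB

section loc
variable {L : Type*} [Field L]

private theorem GB16_ord_swap (w : Valuation L ℤᵐ⁰) (x y : L) : ord w (x - y) = ord w (y - x) := by
  rw [ord, ord, ← neg_sub, Valuation.map_neg]

/-- the three roots -/
private theorem GB16_roots3 (A B : L) (α : Fin 3 → L)
    (h : pf A B = C (1 : L) * ∏ j, (X - C (α j))) :
    α 0 + α 1 + α 2 = 0 ∧ A = α 0 * α 1 + α 0 * α 2 + α 1 * α 2 ∧ B = -(α 0 * α 1 * α 2) := by
  rw [Fin.prod_univ_three] at h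
  have h2 := congrArg (fun q => q.coeff 2) h
  have h1 := congrArg (fun q => q.coeff 1) h
  have h0 := congrArg (fun q => q.coeff 0) h
  have he : C (1 : L) * ((X - C (α 0)) * (X - C (α 1)) * (X - C (α 2))) =
      X ^ 3 + C (-(α 0 + α 1 + α 2)) * X ^ 2 +
      C (α 0 * α 1 + α 0 * α 2 + α 1 * α 2) * X + C (-(α 0 * α 1 * α 2)) := by
    simp only [map_neg, map_add, map_mul, C_1]
    ring
  rw [he] at h2 h1 h0
  simp only [pf, coeff_add, coeff_X_pow, coeff_C_mul, coeff_X, coeff_C] at h2 h1 h0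
  norm_num at h2 h1 h0
  refine ⟨?_, h1, ?_⟩
  · linear_combination h2
  · linear_combination h0

end loc

section loc2
variable {L : Type*} [Field L] [CharZero L] (w : Valuation L ℤᵐ⁰)

private theorem GB16_core (A B a b c : L) (hA : A = a * b + a * c + b * c) (hB : B = -(a * b * c))
    (hsum : a + b + c = 0) (hab : a ≠ b) (hac : a ≠ c) (hbc : b ≠ c)
    (i : ℕ) (hi : 1 ≤ i) (E : ℤ) (hE : 0 ≤ E) (hsp3 : (p3 A B).Splits) (hspY : (pY A B i).Splits)
    (hS : CrossB w {x | (pY A B i).eval x = 0} E) :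
    2 * ord w (a - b) ≤ 2 * ord w (a - c) + (2 * E +
      10000 * (i + 1) * (ord w (2 : L) + ord w (3 : L))) := by
  subst hA hB
  have := low_core w a b c hsum hab hac hbc i hi E hE hsp3 hspY hS
  linarith

private theorem GB16_j (A B a b c : L) (hA : A = a * b + a * c + b * c) (hB : B = -(a * b * c))
    (hsum : a + b + c = 0) (hab : a ≠ b) (hac : a ≠ c) (hbc : b ≠ c) (E : ℤ) (hE : 0 ≤ E)
    (H : ∀ p q r : L, A = p * q + p * r + q * r → B = -(p * q * r) → p + q + r = 0 →
      p ≠ q → p ≠ r → q ≠ r → (p = a ∨ p = b ∨ p = c) → (q = a ∨ q = b ∨ q = c) →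
      (r = a ∨ r = b ∨ r = c) → 2 * ord w (p - q) ≤ 2 * ord w (p - r) + E) :
    A = 0 ∨ ord w (4 * A ^ 3 + 27 * B ^ 2) - 3 * ord w A ≤ 2 * E + 3 * ord w (3 : L) := by
  have h1 := H a b c (by rw [hA]) (by rw [hB]) hsum hab hac hbc (by tauto) (by tauto) (by tauto)
  have h2 := H a c b (by rw [hA]; ring) (by rw [hB]; ring) (by linear_combination hsum) hac hab
    hbc.symm (by tauto) (by tauto) (by tauto)
  have h3 := H b a c (by rw [hA]; ring) (by rw [hB]; ring) (by linear_combination hsum) hab.symm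
    hbc hac (by tauto) (by tauto) (by tauto)
  have h4 := H b c a (by rw [hA]; ring) (by rw [hB]; ring) (by linear_combination hsum) hbc
    hab.symm hac.symm (by tauto) (by tauto) (by tauto)
  have h5 := H c a b (by rw [hA]; ring) (by rw [hB]; ring) (by linear_combination hsum) hac.symm
    hbc.symm hab (by tauto) (by tauto) (by tauto)
  have h6 := H c b a (by rw [hA]; ring) (by rw [hB]; ring) (by linear_combination hsum) hbc.symm
    hac.symm hab.symm (by tauto) (by tauto) (by tauto)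
  rw [GB16_ord_swap w a b, GB16_ord_swap w a c] at h1 h2
  subst hA hB
  exact j_of_dist w a b c hsum hab hac hbc E hE h1 h2 h3 h4 h5 h6

end loc2

section glob
variable {K : Type} [Field K] [NumberField K]

private theorem GB16_exists (n : ℕ) (i : ℕ) (s : Finset ℕ) (hi : i ∈ s)
    (h : 6 * ∑ i ∈ s, 2 ^ i ≤ n) : 6 * (i + 1) ≤ n := by
  have h1 : 2 ^ i ≤ ∑ i ∈ s, 2 ^ i := Finset.single_le_sum (f := fun i => 2 ^ i)
    (fun _ _ => Nat.zero_le _) hi
  have h2 : i < 2 ^ i := Nat.lt_two_pow_self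
  omega

/-- GB16: the lower bound for the minimal discriminant of the hyperelliptic curve. -/
theorem low (g : ℕ) (hg : 1 ≤ g) (A B : K) (hD : 4 * A ^ 3 + 27 * B ^ 2 ≠ 0) (δ ε : ℕ)
    (hδ : δ ≤ 1) (hε : ε ≤ 1) (s : Finset ℕ)
    (h : (δ = 1 ∧ 3 * δ + 4 * ε + 6 * ∑ i ∈ s, 2 ^ i = 2 * g + 1) ∨
     (δ = 0 ∧ 3 * δ + 4 * ε + 6 * ∑ i ∈ s, 2 ^ i = 2 * g + 2 ∧ ∃ i ∈ s, 1 ≤ i))
    (v : HeightOneSpectrum (𝓞 K)) :
    A = 0 ∨ ord (v.valuation K) (4 * A ^ 3 + 27 * B ^ 2) - 3 * ord (v.valuation K) A ≤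
      4 * discExp g (pG A B δ ε s) v +
      30000 * (g + 1) * (ord (v.valuation K) (2 : K) + ord (v.valuation K) (3 : K)) := by
  have h2 : (2 : K) ≠ 0 := two_ne_zero
  have h3 : (3 : K) ≠ 0 := three_ne_zero
  obtain ⟨b1, -, -, -, -, b6, -⟩ := base A B h2 h3 hD
  obtain ⟨⟨fm, fd⟩, -⟩ := monics A B
  obtain ⟨gs, gd, gl⟩ := pG_spec A B h2 h3 hD δ ε hδ hε s
  set f := pG A B δ ε s with hf
  have hfh : IsHyperelliptic g f := by
    refine ⟨gs, ?_⟩
    rw [gd]
    rcases h with h | h
    · exact Or.inl h.2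
    · exact Or.inr h.2.1
  set P : K[X] := pf A B * p3 A B * f with hP
  have hf0 : f ≠ 0 := by
    intro h0
    rw [h0] at gl
    rw [leadingCoeff_zero] at gl
    exact pow_ne_zero _ h3 gl.symm
  have h30 : p3 A B ≠ 0 := by
    intro h0
    have := b6.ne_zero
    exact this h0
  have hP0 : P ≠ 0 := mul_ne_zero (mul_ne_zero fm.ne_zero h30) hf0
  let L := spl P
  have hsplit : (P.map (algebraMap K L)).Splits := IsSplittingField.splits L P
  have hP0' : P.map (algebraMap K L) ≠ 0 := by
    rw [Ne, Polynomial.map_eq_zero]; exact hP0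
  have hdvd : ∀ q : K[X], q ∣ P → (q.map (algebraMap K L)).Splits := fun q hq =>
    hsplit.of_dvd hP0' (Polynomial.map_dvd _ hq)
  have hspf : ((pf A B).map (algebraMap K L)).Splits := hdvd _ ⟨p3 A B * f, by rw [hP]; ring⟩
  have hsp3 : ((p3 A B).map (algebraMap K L)).Splits := hdvd _ ⟨pf A B * f, by rw [hP]; ring⟩
  have hspF : (f.map (algebraMap K L)).Splits := hdvd _ ⟨pf A B * p3 A B, by rw [hP]; ring⟩
  obtain ⟨w, hw⟩ := exists_place_above (K := K) (L := L) v
  -- the roots of `pf`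
  obtain ⟨a0, α, π, hα⟩ := exists_rootData (L := L) 3 (pf A B) fd (by norm_num) b1 hspf
  have hα1 := hα.split
  set A' := algebraMap K L A with hA'
  set B' := algebraMap K L B with hB'
  obtain ⟨m1, -, -, m4, -, m6, -⟩ := map_all A B (algebraMap K L)
  rw [m1] at hα1
  have ha0 : a0 = 1 := by
    have h4 := congrArg leadingCoeff hα1
    rw [leadingCoeff_mul, leadingCoeff_C, leadingCoeff_prod] at h4
    simp only [leadingCoeff_X_sub_C, Finset.prod_const_one, mul_one] at h4
    rw [← h4]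
    exact (monics A' B').1.1
  rw [ha0] at hα1
  obtain ⟨hsum, hA, hB⟩ := GB16_roots3 A' B' α hα1
  set a := α 0 with ha
  set b := α 1 with hb
  set c := α 2 with hc
  have hab : a ≠ b := fun h0 => absurd (hα.inj h0) (by decide)
  have hac : a ≠ c := fun h0 => absurd (hα.inj h0) (by decide)
  have hbc : b ≠ c := fun h0 => absurd (hα.inj h0) (by decide)
  -- the ramification index
  set e : ℕ := Ideal.ramificationIdx' v.asIdeal w.asIdeal with he
  have he0 : 0 < e := ram_pos v w
  set n : ℕ := discExp g f v with hn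
  have hord : ∀ x : K, ord (w.valuation L) (algebraMap K L x) = e * ord (v.valuation K) x :=
    fun x => ord_base v w x
  have ho2 : 0 ≤ ord (v.valuation K) (2 : K) := by
    have := natCast_le_one (v.valuation K) 2
    exact ord_nonneg (by exact_mod_cast this)
  have ho3 : 0 ≤ ord (v.valuation K) (3 : K) := by
    have := natCast_le_one (v.valuation K) 3
    exact ord_nonneg (by exact_mod_cast this)
  have hw2 : ord (w.valuation L) (2 : L) = e * ord (v.valuation K) (2 : K) := by
    rw [← hord, map_ofNat]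
  have hw3 : ord (w.valuation L) (3 : L) = e * ord (v.valuation K) (3 : K) := by
    rw [← hord, map_ofNat]
  set o2 := ord (v.valuation K) (2 : K) with ho2d
  set o3 := ord (v.valuation K) (3 : K) with ho3d
  set E : ℤ := e * (n + (4 * g + 4) * o2) with hE
  have hE0 : 0 ≤ E := by positivity
  -- the end
  have hend : ∀ E' : ℤ, E' ≤ e * (2 * (n + (4 * g + 4) * o2) + 10000 * (g + 1) * (o2 + o3)) →
      (A' = 0 ∨ ord (w.valuation L) (4 * A' ^ 3 + 27 * B' ^ 2) - 3 * ord (w.valuation L) A' ≤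
        2 * E' + 3 * ord (w.valuation L) (3 : L)) →
      A = 0 ∨ ord (v.valuation K) (4 * A ^ 3 + 27 * B ^ 2) - 3 * ord (v.valuation K) A ≤
        4 * n + 30000 * (g + 1) * (o2 + o3) := by
    intro E' hE' h4
    rcases h4 with h4 | h4
    · left
      rw [hA', map_eq_zero] at h4
      exact h4
    · right
      have h5 : 4 * A' ^ 3 + 27 * B' ^ 2 = algebraMap K L (4 * A ^ 3 + 27 * B ^ 2) := by
        rw [map_add, map_mul, map_mul, map_pow, map_pow, map_ofNat, map_ofNat]
      rw [h5, hord, hA', hord, hw3] at h4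
      have he1 : (0 : ℤ) < e := by exact_mod_cast he0
      have h6 : (e : ℤ) * (ord (v.valuation K) (4 * A ^ 3 + 27 * B ^ 2) - 3 * ord (v.valuation K) A) ≤
          e * (4 * n + 30000 * (g + 1) * (o2 + o3)) := by
        have h7 : (e : ℤ) * (2 * (2 * (n + (4 * g + 4) * o2) + 10000 * (g + 1) * (o2 + o3)) +
            3 * o3) ≤ e * (4 * n + 30000 * (g + 1) * (o2 + o3)) := by
          apply mul_le_mul_of_nonneg_left _ he1.le
          have hg0 : (0 : ℤ) ≤ g := by positivity
          nlinarith [mul_nonneg hg0 ho2, mul_nonneg hg0 ho3]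
        linarith
      exact le_of_mul_le_mul_left h6 he1
  rcases h with ⟨h1, hdeg⟩ | ⟨h1, hdeg, i, his, hi⟩
  · -- one branch point at infinity
    obtain ⟨c0, β, π', hβ⟩ := exists_rootData (L := L) (2 * g + 1) f (by rw [gd]; exact hdeg)
      (by omega) gs hspF
    have hroot : ∀ x : L, (pf A' B').eval x = 0 → ∃ j, x = β j := by
      intro x hx
      have h5 : (f.map (algebraMap K L)).eval x = 0 := by
        rw [hf, pG, h1, pow_one, Polynomial.map_mul, Polynomial.map_mul, eval_mul, eval_mul, m1,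
          hx, zero_mul, zero_mul]
      rw [hβ.split, eval_mul, eval_C, eval_prod, mul_eq_zero] at h5
      have h6 := h5.resolve_left hβ.a0
      rw [Finset.prod_eq_zero_iff] at h6
      obtain ⟨j, -, hj⟩ := h6
      refine ⟨j, ?_⟩
      rw [eval_sub, eval_X, eval_C] at hj
      linear_combination hj
    have hrt : ∀ j, (pf A' B').eval (α j) = 0 := by
      intro j
      rw [hα1, eval_mul, eval_prod, Finset.prod_eq_zero (Finset.mem_univ j), mul_zero]
      simp
    refine hend E ?_ (GB16_j (w.valuation L) A' B' a b c hA hB hsum hab hac hbc E hE0 ?_)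
    · rw [hE]
      apply mul_le_mul_of_nonneg_left _ (by positivity)
      have hg0 : (0 : ℤ) ≤ g := by positivity
      nlinarith [mul_nonneg hg0 ho2, mul_nonneg hg0 ho3]
    · intro p q r _ _ _ hpq hpr hqr hp hq hr
      have hex : ∀ x : L, (x = a ∨ x = b ∨ x = c) → ∃ j, x = β j := by
        intro x hx
        apply hroot
        rcases hx with hx | hx | hx
        · rw [hx]; exact hrt 0
        · rw [hx]; exact hrt 1
        · rw [hx]; exact hrt 2
      obtain ⟨i1, hi1⟩ := hex p hp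
      obtain ⟨i2, hi2⟩ := hex q hq
      obtain ⟨i3, hi3⟩ := hex r hr
      have h5 := cross_bound_infty g hg f hfh v w c0 hβ.a0 β hβ.inj hβ.split i1 i2 i3
        (fun h0 => hpq (by rw [hi1, hi2, h0])) (fun h0 => hpr (by rw [hi1, hi3, h0]))
        (fun h0 => hqr (by rw [hi2, hi3, h0]))
      rw [hi1, hi2, hi3]
      exact h5
  · -- no branch point at infinity
    obtain ⟨c0, β, π', hβ⟩ := exists_rootData (L := L) (2 * g + 2) f (by rw [gd]; exact hdeg)
      (by omega) gs hspF
    have hYd : pY A B i ∣ f := by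
      rw [hf, pG]
      exact Dvd.dvd.mul_left (Finset.dvd_prod_of_mem _ his) _
    have hspY : (pY A' B' i).Splits := by
      rw [← m6 i]
      exact hdvd _ (hYd.trans ⟨pf A B * p3 A B, by rw [hP]; ring⟩)
    have hsp3' : (p3 A' B').Splits := by
      rw [← m4]; exact hsp3
    have hroot : ∀ x : L, (pY A' B' i).eval x = 0 → ∃ j, x = β j := by
      intro x hx
      obtain ⟨q, hq⟩ := hYd
      have h5 : (f.map (algebraMap K L)).eval x = 0 := by
        rw [hq, Polynomial.map_mul, m6 i, eval_mul, hx, zero_mul]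
      rw [hβ.split, eval_mul, eval_C, eval_prod, mul_eq_zero] at h5
      have h6 := h5.resolve_left hβ.a0
      rw [Finset.prod_eq_zero_iff] at h6
      obtain ⟨j, -, hj⟩ := h6
      refine ⟨j, ?_⟩
      rw [eval_sub, eval_X, eval_C] at hj
      linear_combination hj
    have hCr : CrossB (w.valuation L) {x | (pY A' B' i).eval x = 0} E := by
      intro p hp q hq r hr t ht hpq hpr hpt hqr hqt hrt
      obtain ⟨i1, hi1⟩ := hroot p hp
      obtain ⟨i2, hi2⟩ := hroot q hq
      obtain ⟨i3, hi3⟩ := hroot r hr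
      obtain ⟨i4, hi4⟩ := hroot t ht
      have h5 := cross_bound g hg f hfh v w c0 hβ.a0 β hβ.inj hβ.split i1 i2 i3 i4
        (fun h0 => hpq (by rw [hi1, hi2, h0])) (fun h0 => hpr (by rw [hi1, hi3, h0]))
        (fun h0 => hpt (by rw [hi1, hi4, h0])) (fun h0 => hqr (by rw [hi2, hi3, h0]))
        (fun h0 => hqt (by rw [hi2, hi4, h0])) (fun h0 => hrt (by rw [hi3, hi4, h0]))
      rw [hi1, hi2, hi3, hi4]
      exact h5
    have hi6 : 6 * (i + 1) ≤ 2 * g + 2 := GB16_exists (2 * g + 2) i s his (by omega)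
    set F : ℤ := 2 * E + 10000 * (i + 1) * (ord (w.valuation L) (2 : L) +
      ord (w.valuation L) (3 : L)) with hF
    have hF0 : 0 ≤ F := by
      rw [hF, hw2, hw3]
      positivity
    refine hend F ?_ (GB16_j (w.valuation L) A' B' a b c hA hB hsum hab hac hbc F hF0 ?_)
    · rw [hF, hw2, hw3, hE]
      have h8 : 2 * ((e : ℤ) * (n + (4 * g + 4) * o2)) + 10000 * (i + 1) * (e * o2 + e * o3) =
          e * (2 * (n + (4 * g + 4) * o2) + 10000 * (i + 1) * (o2 + o3)) := by ring
      rw [h8]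
      apply mul_le_mul_of_nonneg_left _ (by positivity)
      have h9 : ((i : ℤ) + 1) ≤ g + 1 := by
        have : i ≤ g := by omega
        exact_mod_cast Nat.succ_le_succ this
      have h10 : 10000 * ((i : ℤ) + 1) * (o2 + o3) ≤ 10000 * (g + 1) * (o2 + o3) := by
        apply mul_le_mul_of_nonneg_right _ (by positivity)
        linarith
      linarith
    · intro p q r hAp hBp hsp hpq hpr hqr _ _ _
      exact GB16_core (w.valuation L) A' B' p q r hAp hBp hsp hpq hpr hqr i hi E hE0 hsp3' hspY hCr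

end glob

end Pool.Agent.Lib.MP_ca2859_nt.GR.GB
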