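import Mathlib
import Pool.Agent.Lib.MP_ca2859_nt.GR.GB.Defs
import Pool.Agent.Lib.MP_ca2859_nt.GR.GB.GB3
import Pool.Agent.Lib.MP_ca2859_nt.GR.GB.GB5

/-!
# GB7: good reduction of the curve attached to `y² = x³ + A x + B`
-/

set_option autoImplicit false

open Polynomial WithZero IsDedekindDomain NumberField

namespace Pool.Agent.Lib.MP_ca2859_nt.GR.GB

section gb7loc
variable {K : Type} [Field K] (w : Valuation K ℤᵐ⁰)

private theorem GB7_unit (x : w.valuationSubring) (hx : w (x : K) = 1) : IsUnit x := by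
  have hx0 : (x : K) ≠ 0 := by
    intro h
    rw [h] at hx
    simp at hx
  have hy : (x : K)⁻¹ ∈ w.valuationSubring := by
    rw [Valuation.mem_valuationSubring_iff, map_inv₀, hx]
    simp
  refine IsUnit.of_mul_eq_one ⟨(x : K)⁻¹, hy⟩ ?_
  apply Subtype.ext
  simp [hx0]

private theorem GB7_unit' (x : w.valuationSubring) (hx : IsUnit x) : w (x : K) = 1 := by
  obtain ⟨y, hy⟩ := hx.exists_right_inv
  have h1 : w (x : K) ≤ 1 := x.2
  have h2 : w (y : K) ≤ 1 := y.2
  have h3 : w (x : K) * w (y : K) = 1 := by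
    rw [← map_mul]
    have h4 := congrArg (fun z : w.valuationSubring => (z : K)) hy
    simp only [MulMemClass.coe_mul, OneMemClass.coe_one] at h4
    rw [h4, map_one]
  by_contra hne
  have h4 : w (x : K) < 1 := lt_of_le_of_ne h1 hne
  have h5 : w (x : K) * w (y : K) < 1 := mul_lt_one_of_lt_of_le h4 h2
  rw [h3] at h5
  exact lt_irrefl _ h5

private theorem GB7_discr (F : w.valuationSubring[X]) (f : K[X])
    (hf : F.map w.valuationSubring.subtype = f) (hn : 0 < f.natDegree)
    (hlc : w f.leadingCoeff = 1)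
    (hsep : (F.map (IsLocalRing.residue w.valuationSubring)).Separable)
    (hdeg : (F.map (IsLocalRing.residue w.valuationSubring)).natDegree = f.natDegree) :
    w f.discr = 1 := by
  set G := F.map (IsLocalRing.residue w.valuationSubring) with hG
  have h1 := resultant_deriv (f := f) (natDegree_pos_iff_degree_pos.mp hn)
  set n := f.natDegree with hn'
  set ρ := resultant F (derivative F) n (n - 1) with hρ
  have h2 : resultant f (derivative f) n (n - 1) = w.valuationSubring.subtype ρ := by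
    rw [← hf, derivative_map, resultant_map_map]
  have h3 : resultant G (derivative G) n (n - 1) = IsLocalRing.residue w.valuationSubring ρ := by
    rw [hG, derivative_map, resultant_map_map]
  have hd : (derivative G).natDegree ≤ n - 1 := by
    have := natDegree_derivative_le G
    rwa [hdeg] at this
  have h4 : resultant G (derivative G) n (n - 1) ≠ 0 := by
    obtain ⟨k, hk⟩ := Nat.exists_eq_add_of_le hd
    rw [hk, resultant_add_right_deg _ _ _ _ _ le_rfl]
    have h5 : G.coeff n ≠ 0 := by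
      rw [← hdeg, coeff_natDegree]
      intro h
      rw [leadingCoeff_eq_zero] at h
      rw [h] at hdeg
      simp at hdeg
      omega
    have h6 : resultant G (derivative G) ≠ 0 := resultant_ne_zero _ _ hsep
    rw [hdeg] at h6
    exact mul_ne_zero (pow_ne_zero _ h5) h6
  rw [h3, IsLocalRing.residue_ne_zero_iff_isUnit] at h4
  have h5 := GB7_unit' w ρ h4
  have h6 : w (resultant f (derivative f) n (n - 1)) = 1 := by
    rw [h2]
    exact h5
  rw [h1, map_mul, map_mul, hlc, map_pow, Valuation.map_neg, map_one, one_pow, one_mul,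
    one_mul] at h6
  exact h6

end gb7loc

section nf
variable {K : Type} [Field K] [NumberField K]

/-- GB7 -/
theorem pG_good (A B : K) (v : HeightOneSpectrum (𝓞 K)) (h2 : v.valuation K (2 : K) = 1)
    (h3 : v.valuation K (3 : K) = 1) (hA : v.valuation K A ≤ 1) (hB : v.valuation K B ≤ 1)
    (hD : v.valuation K (4 * A ^ 3 + 27 * B ^ 2) = 1) (g : ℕ) (hg : 1 ≤ g) (δ ε : ℕ)
    (hδ : δ ≤ 1) (hε : ε ≤ 1) (s : Finset ℕ)
    (hdeg : 3 * δ + 4 * ε + 6 * ∑ i ∈ s, 2 ^ i = 2 * g + 1 ∨
      3 * δ + 4 * ε + 6 * ∑ i ∈ s, 2 ^ i = 2 * g + 2) :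
    discExp g (pG A B δ ε s) v = 0 := by
  set w := v.valuation K with hw
  have hne : ∀ x : K, w x = 1 → x ≠ 0 := by
    intro x hx h
    rw [h, map_zero] at hx
    exact zero_ne_one hx
  set O := w.valuationSubring with hO
  let A' : O := ⟨A, hA⟩
  let B' : O := ⟨B, hB⟩
  have hA' : O.subtype A' = A := rfl
  have hB' : O.subtype B' = B := rfl
  obtain ⟨hs1, hn1, hl1⟩ := pG_spec A B (hne _ h2) (hne _ h3) (hne _ hD) δ ε hδ hε s
  have hu2 : IsUnit (2 : O) := GB7_unit w 2 h2
  have hu3 : IsUnit (3 : O) := GB7_unit w 3 h3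
  have huD : IsUnit (4 * A' ^ 3 + 27 * B' ^ 2 : O) := by
    apply GB7_unit w
    have e : ((4 * A' ^ 3 + 27 * B' ^ 2 : O) : K) = 4 * A ^ 3 + 27 * B ^ 2 := by
      push_cast
      rfl
    rw [e]
    exact hD
  have hr : ∀ x : O, IsUnit x → IsLocalRing.residue O x ≠ 0 := fun x hx =>
    (IsLocalRing.residue_ne_zero_iff_isUnit x).mpr hx
  obtain ⟨hs2, hn2, hl2⟩ := pG_spec (IsLocalRing.residue O A') (IsLocalRing.residue O B')
    (by have h := hr 2 hu2; rwa [map_ofNat] at h) (by have h := hr 3 hu3; rwa [map_ofNat] at h)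
    (by
      have h := hr _ huD
      rwa [map_add, map_mul, map_mul, map_pow, map_pow, map_ofNat, map_ofNat] at h)
    δ ε hδ hε s
  have hm1 := (map_all A' B' O.subtype).2.2.2.2.2.2 δ ε s
  have hm2 := (map_all A' B' (IsLocalRing.residue O)).2.2.2.2.2.2 δ ε s
  rw [hA', hB'] at hm1
  have hlc : w (pG A B δ ε s).leadingCoeff = 1 := by
    rw [hl1, map_pow, h3, one_pow]
  have hpos : 0 < (pG A B δ ε s).natDegree := by
    rw [hn1]
    omega
  have hdisc : w (pG A B δ ε s).discr = 1 :=
    GB7_discr w (pG A' B' δ ε s) _ hm1 hpos hlc (by rw [hm2]; exact hs2)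
      (by rw [hm2, hn2, hn1])
  have heq : w (eqDisc g (pG A B δ ε s)) = 1 := by
    unfold eqDisc
    split_ifs
    · rw [map_mul, map_pow, h2, hdisc, one_pow, one_mul]
    · rw [map_mul, map_mul, map_pow, map_pow, h2, hdisc, hlc, one_pow, one_pow, one_mul, one_mul]
  have hdeg' : (pG A B δ ε s).natDegree = 2 * g + 1 ∨ (pG A B δ ε s).natDegree = 2 * g + 2 := by
    rw [hn1]
    exact hdeg
  apply Nat.le_zero.mp
  refine minDiscExp_le _ g _ 0 ⟨pG A B δ ε s, 0, ⟨?_, fun i => by simp, by omega, by simp, ?_, ?_⟩,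
    ?_⟩
  · intro i
    rw [← hm1, coeff_map]
    exact ((pG A' B' δ ε s).coeff i).2
  · rw [f0_zero]
    exact hdeg'
  · rw [f0_zero]
    exact sameCurve_refl g _
  · rw [f0_zero, heq]
    simp

end nf

end Pool.Agent.Lib.MP_ca2859_nt.GR.GB
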