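import Pool.Agent.Lib.MP_ca2859_nt.GR.GB.Defs
import Pool.Agent.Lib.MP_ca2859_nt.GR.F1
import Pool.Agent.Lib.MP_ca2859_nt.GR.F3

/-!
# GB8: the short equation of an elliptic curve
-/

set_option autoImplicit false

open Polynomial WithZero IsDedekindDomain NumberField

namespace Pool.Agent.Lib.MP_ca2859_nt.GR.GB

private theorem GB8_c {F : Type*} [Field F] (v : Valuation F ℤᵐ⁰) (W : WeierstrassCurve F)
    (h : IntegralE v W) : v W.c₄ ≤ 1 ∧ v W.c₆ ≤ 1 := by
  obtain ⟨h1, h2, h3, h4, h6⟩ := h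
  obtain ⟨W0, hW0⟩ : ∃ W0 : WeierstrassCurve v.integer, W0.map v.integer.subtype = W :=
    ⟨⟨⟨W.a₁, h1⟩, ⟨W.a₂, h2⟩, ⟨W.a₃, h3⟩, ⟨W.a₄, h4⟩, ⟨W.a₆, h6⟩⟩, rfl⟩
  rw [← hW0, WeierstrassCurve.map_c₄, WeierstrassCurve.map_c₆]
  exact ⟨W0.c₄.2, W0.c₆.2⟩

private theorem GB8_num {F : Type*} [Field F] (v : Valuation F ℤᵐ⁰) (n : ℕ) : v (n : F) ≤ 1 :=
  natCast_mem v.integer n

private theorem GB8_div {F : Type*} [Field F] (v : Valuation F ℤᵐ⁰) {x y n : F} (hn : v n = 1)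
    (h : n * x = y) : v x = v y := by
  rw [← h, map_mul, hn, one_mul]

section nf
variable {K : Type} [Field K] [NumberField K]

/-- GB8 -/
theorem exists_short (W : WeierstrassCurve K) (hW : W.Δ ≠ 0) : ∃ A B : K,
    4 * A ^ 3 + 27 * B ^ 2 ≠ 0 ∧
    (∀ v : HeightOneSpectrum (𝓞 K), discExpE W v = 0 → v.valuation K (2 : K) = 1 →
      v.valuation K (3 : K) = 1 → ∃ u : K, u ≠ 0 ∧ v.valuation K (u ^ 4 * A) ≤ 1 ∧
        v.valuation K (u ^ 6 * B) ≤ 1 ∧
        v.valuation K (4 * (u ^ 4 * A) ^ 3 + 27 * (u ^ 6 * B) ^ 2) = 1) ∧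
    (∀ (v : HeightOneSpectrum (𝓞 K)) (J : ℤ), 0 ≤ J →
      (A = 0 ∨ ord (v.valuation K) (4 * A ^ 3 + 27 * B ^ 2) - 3 * ord (v.valuation K) A ≤ J) →
      (discExpE W v : ℤ) ≤ J + 20 +
        40 * (ord (v.valuation K) (2 : K) + ord (v.valuation K) (3 : K))) := by
  let _ : Invertible (2 : K) := invertibleOfNonzero two_ne_zero
  let _ : Invertible (3 : K) := invertibleOfNonzero three_ne_zero
  obtain ⟨C₁, hC₁⟩ := W.exists_variableChange_isShortNF
  have hu1 : ((C₁.u : Kˣ) : K) ≠ 0 := Units.ne_zero _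
  have hΔ' : (C₁ • W).Δ = -16 * (4 * (C₁ • W).a₄ ^ 3 + 27 * (C₁ • W).a₆ ^ 2) :=
    (C₁ • W).Δ_of_isShortNF
  have hc4' : (C₁ • W).c₄ = -48 * (C₁ • W).a₄ := (C₁ • W).c₄_of_isShortNF
  have hc6' : (C₁ • W).c₆ = -864 * (C₁ • W).a₆ := (C₁ • W).c₆_of_isShortNF
  have eΔ := W.variableChange_Δ C₁
  have ec4 := W.variableChange_c₄ C₁
  have ec6 := W.variableChange_c₆ C₁
  rw [hΔ'] at eΔ
  rw [hc4'] at ec4
  rw [hc6'] at ec6
  set A := (C₁ • W).a₄ with hA
  set B := (C₁ • W).a₆ with hB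
  rw [Units.val_inv_eq_inv_val] at eΔ ec4 ec6
  set u₁ : K := (C₁.u : K) with hu₁
  have fΔ : W.Δ = u₁ ^ 12 * (-16 * (4 * A ^ 3 + 27 * B ^ 2)) := by
    rw [eΔ]; field_simp
  have fc4 : W.c₄ = u₁ ^ 4 * (-48 * A) := by
    rw [ec4]; field_simp
  have fc6 : W.c₆ = u₁ ^ 6 * (-864 * B) := by
    rw [ec6]; field_simp
  have hD : 4 * A ^ 3 + 27 * B ^ 2 ≠ 0 := by
    intro h
    apply hW
    rw [fΔ, h]; ring
  refine ⟨A, B, hD, ?_, ?_⟩
  · intro v hv h2 h3
    obtain ⟨π, hπ⟩ := v.valuation_exists_uniformizer K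
    obtain ⟨C₂, hI, hΔ2⟩ := minDiscExpE_spec (v.valuation K) π hπ W hW
    have hm : minDiscExpE (v.valuation K) W = 0 := hv
    rw [hm] at hΔ2
    simp only [Nat.cast_zero, neg_zero, exp_zero] at hΔ2
    obtain ⟨h4, h6⟩ := GB8_c _ _ hI
    rw [W.variableChange_c₄ C₂, fc4, Units.val_inv_eq_inv_val] at h4
    rw [W.variableChange_c₆ C₂, fc6, Units.val_inv_eq_inv_val] at h6
    rw [W.variableChange_Δ C₂, fΔ, Units.val_inv_eq_inv_val] at hΔ2
    have hu2 : ((C₂.u : Kˣ) : K) ≠ 0 := Units.ne_zero _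
    set u₂ : K := (C₂.u : K) with hu₂
    have n16 : v.valuation K (-16 : K) = 1 := by
      rw [show (-16 : K) = -(2 ^ 4) by norm_num, Valuation.map_neg, map_pow, h2, one_pow]
    have n48 : v.valuation K (-48 : K) = 1 := by
      rw [show (-48 : K) = -(2 ^ 4 * 3) by norm_num, Valuation.map_neg, map_mul, map_pow, h2, h3,
        one_pow, one_mul]
    have n864 : v.valuation K (-864 : K) = 1 := by
      rw [show (-864 : K) = -(2 ^ 5 * 3 ^ 3) by norm_num, Valuation.map_neg, map_mul, map_pow,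
        map_pow, h2, h3, one_pow, one_pow, one_mul]
    refine ⟨u₁ / u₂, div_ne_zero hu1 hu2, ?_, ?_, ?_⟩
    · rw [GB8_div (v.valuation K) n48 (y := u₂⁻¹ ^ 4 * (u₁ ^ 4 * (-48 * A))) (by field_simp)]
      exact h4
    · rw [GB8_div (v.valuation K) n864 (y := u₂⁻¹ ^ 6 * (u₁ ^ 6 * (-864 * B))) (by field_simp)]
      exact h6
    · rw [GB8_div (v.valuation K) n16
        (y := u₂⁻¹ ^ 12 * (u₁ ^ 12 * (-16 * (4 * A ^ 3 + 27 * B ^ 2)))) (by field_simp)]
      exact hΔ2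
  · intro v J hJ h
    obtain ⟨π, hπ⟩ := v.valuation_exists_uniformizer K
    have h2 : 0 ≤ ord (v.valuation K) (2 : K) := ord_nonneg (by
      exact_mod_cast GB8_num (v.valuation K) 2)
    have h3 : 0 ≤ ord (v.valuation K) (3 : K) := ord_nonneg (by
      exact_mod_cast GB8_num (v.valuation K) 3)
    apply minDiscExpE_le_j (v.valuation K) π hπ W hW J hJ
    rcases h with h | h
    · left
      rw [fc4, h]; ring
    · by_cases hA0 : A = 0
      · left
        rw [fc4, hA0]; ring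
      · right
        have hneg : ∀ x : K, ord (v.valuation K) (-x) = ord (v.valuation K) x := by
          intro x
          rw [ord, ord, Valuation.map_neg]
        have n16 : ord (v.valuation K) (-16 : K) = 4 * ord (v.valuation K) (2 : K) := by
          rw [show (-16 : K) = -(2 ^ 4) by norm_num, hneg, ord_pow]
          norm_num
        have n48 : ord (v.valuation K) (-48 : K) =
            4 * ord (v.valuation K) (2 : K) + ord (v.valuation K) (3 : K) := by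
          rw [show (-48 : K) = -(2 ^ 4 * 3) by norm_num, hneg, ord_mul (by norm_num) (by norm_num),
            ord_pow]
          norm_num
        rw [fΔ, fc4, ord_mul (pow_ne_zero _ hu1) (mul_ne_zero (by norm_num) hD),
          ord_mul (by norm_num) hD, ord_mul (pow_ne_zero _ hu1) (mul_ne_zero (by norm_num) hA0),
          ord_mul (by norm_num) hA0, ord_pow, ord_pow, n16, n48]
        push_cast
        linarith

end nf

end Pool.Agent.Lib.MP_ca2859_nt.GR.GB
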