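import Mathlib
import Pool.Agent.Lib.MP_ca2859_nt.GR.Fin
import Pool.Agent.Lib.MP_ca2859_nt.GR.F5
import Pool.Agent.Lib.MP_ca2859_nt.GR.GB.GB5
import Pool.Agent.Lib.MP_ca2859_nt.GR.GB.GB6
import Pool.Agent.Lib.MP_ca2859_nt.GR.GB.GB7
import Pool.Agent.Lib.MP_ca2859_nt.GR.GB.GB8
import Pool.Agent.Lib.MP_ca2859_nt.GR.GB.GB16

set_option autoImplicit false

open Polynomial WithZero IsDedekindDomain NumberField

namespace Pool.Agent.Lib.MP_ca2859_nt.GR.GB

/-- GB17 -/
theorem main_GB (g : ℕ) (hg : 3 ≤ g) : ∃ A : ℕ, ∀ (K : Type) [Field K] [NumberField K]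
    (W : WeierstrassCurve K), W.Δ ≠ 0 → ∃ f : K[X], IsHyperelliptic g f ∧
      MC g f ≤ A ^ Module.finrank ℚ K * ME W ∧
      DeltaE W ≤ A ^ Module.finrank ℚ K * ME W ^ 20 * DeltaC g f ^ 4 := by
  obtain ⟨δ, ε, s, hδ, hε, hch⟩ := choice g hg
  have hdeg : 3 * δ + 4 * ε + 6 * ∑ i ∈ s, 2 ^ i = 2 * g + 1 ∨
      3 * δ + 4 * ε + 6 * ∑ i ∈ s, 2 ^ i = 2 * g + 2 := by
    rcases hch with h | h
    · exact Or.inl h.2
    · exact Or.inr h.2.1
  refine ⟨6 ^ (30040 * (g + 1)), ?_⟩
  intro K _ _ W hW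
  obtain ⟨A, B, hD, hgood, hJ⟩ := exists_short W hW
  obtain ⟨hsep, hnat, -⟩ := pG_spec A B two_ne_zero three_ne_zero hD δ ε hδ hε s
  set f := pG A B δ ε s with hf
  have hyp : IsHyperelliptic g f := ⟨hsep, by rw [hnat]; exact hdeg⟩
  have hfin := finite_bad g f hyp
  have hfinE := finite_badE W hW
  refine ⟨f, hyp, ?_, ?_⟩
  · have h1 : MC g f ≤ ME W * 6 ^ Module.finrank ℚ K := by
      rw [MC_eq_PR, ME_eq_PR]
      apply PR_le _ hfin _ hfinE 6 (by norm_num)
      intro v hv hv' h6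
      apply hv
      rw [show ((6 : ℕ) : K) = 2 * 3 by norm_num, ord_mul two_ne_zero three_ne_zero] at h6
      have n2 := natCast_int_le (v.valuation K) 2
      have n3 := natCast_int_le (v.valuation K) 3
      push_cast at n2 n3
      have u : ∀ y : K, y ≠ 0 → ord (v.valuation K) y = 0 → v.valuation K y = 1 := by
        intro y hy hy0
        rw [w_eq_exp hy, hy0, neg_zero, exp_zero]
      have v2 := u 2 two_ne_zero (by omega)
      have v3 := u 3 three_ne_zero (by omega)
      obtain ⟨x, hx, hA, hB, hDx⟩ := hgood v hv' v2 v3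
      have h0 := pG_good (x ^ 4 * A) (x ^ 6 * B) v v2 v3 hA hB hDx g (by omega) δ ε hδ hε s hdeg
      have hDx0 : 4 * (x ^ 4 * A) ^ 3 + 27 * (x ^ 6 * B) ^ 2 ≠ 0 := by
        intro h
        rw [h, map_zero] at hDx
        exact zero_ne_one hDx
      have hnat' := (pG_spec (x ^ 4 * A) (x ^ 6 * B) two_ne_zero three_ne_zero hDx0 δ ε hδ hε s).2.1
      rw [hf, discExp_same g _ _ (by rw [hnat]; omega) (by rw [hnat']; omega)
        (pG_same A B g δ ε s x hx) v]
      exact h0
    refine h1.trans ?_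
    rw [mul_comm]
    apply Nat.mul_le_mul_right
    apply Nat.pow_le_pow_left
    exact Nat.le_self_pow (by omega) 6
  · have h1 : DeltaE W ≤ DeltaC g f ^ 4 * ME W ^ 20 *
        (6 ^ (30040 * (g + 1))) ^ Module.finrank ℚ K := by
      rw [DeltaE_eq_PP, DeltaC_eq_PP, ME_eq_PR]
      apply PP_le_rad _ hfinE _ hfin 4 20 (6 ^ (30040 * (g + 1))) (by positivity)
      intro v _
      have n2 := natCast_int_le (v.valuation K) 2
      have n3 := natCast_int_le (v.valuation K) 3
      push_cast at n2 n3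
      have h2 := low g (by omega) A B hD δ ε hδ hε s hch v
      have h3 := hJ v (4 * discExp g f v +
        30000 * (g + 1) * (ord (v.valuation K) (2 : K) + ord (v.valuation K) (3 : K)))
        (by positivity) h2
      have h6 : ord (v.valuation K) ((6 ^ (30040 * (g + 1)) : ℕ) : K) =
          (30040 * (g + 1)) * (ord (v.valuation K) (2 : K) + ord (v.valuation K) (3 : K)) := by
        rw [Nat.cast_pow, ord_pow, show ((6 : ℕ) : K) = 2 * 3 by norm_num,
          ord_mul two_ne_zero three_ne_zero]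
        push_cast
        ring
      rw [h6]
      push_cast
      nlinarith [mul_nonneg (Int.natCast_nonneg g) n2, mul_nonneg (Int.natCast_nonneg g) n3]
    refine h1.trans (le_of_eq ?_)
    generalize 6 ^ (30040 * (g + 1)) = z
    ring

end Pool.Agent.Lib.MP_ca2859_nt.GR.GB
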